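import Mathlib
import Pool.Agent.TH881.RQ.Defs2
import Pool.Agent.TH494.RgC
import Pool.Agent.TH881.Per

/-!
# RQ-H: unions of classes (job 3004, helper416 for helper881)
-/

set_option autoImplicit false

namespace Pool.Agent.TH416.J3004

open Finset Filter Topology Polynomial
open Pool.Agent.TH881
open Pool.Agent.TH881.RG
open Pool.Agent.TH881.RQ
open Pool.Agent.H373R2.T7

lemma gv_cast (g : ℤ[X]) (w n : ℕ) :
    gv g w (n : ZMod (Wp w)) = ((g.eval (n : ℤ) : ℤ) : ZMod (Wp w)) := by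
  unfold gv
  have h := Polynomial.eval_intCast_map (Int.castRingHom (ZMod (Wp w))) g (n : ℤ)
  rw [Int.cast_natCast] at h
  rw [h]
  rfl

/-- a polynomial of degree at least two grows faster than any linear function -/
lemma growth (g : ℤ[X]) (hd : 2 ≤ g.natDegree) (hl : 0 < g.leadingCoeff) (M : ℕ) :
    ∃ n0 : ℕ, ∀ n : ℕ, n0 ≤ n → (M : ℤ) * n ≤ g.eval (n : ℤ) := by
  set P : ℝ[X] := g.map (Int.castRingHom ℝ) with hP
  have hinj : Function.Injective (Int.castRingHom ℝ) := RingHom.injective_int _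
  have hPd : P.natDegree = g.natDegree := natDegree_map_eq_of_injective hinj g
  have hPl : P.leadingCoeff = (g.leadingCoeff : ℝ) := by
    rw [hP, leadingCoeff_map_of_injective hinj]
    rfl
  have hP0 : P ≠ 0 := by
    intro h
    rw [h, natDegree_zero] at hPd
    omega
  have hQd : (C (M : ℝ) * X : ℝ[X]).degree < P.degree := by
    refine lt_of_le_of_lt (degree_C_mul_X_le (M : ℝ)) ?_
    rw [degree_eq_natDegree hP0, hPd]
    exact_mod_cast (by omega : 1 < g.natDegree)
  have h1 : (P - C (M : ℝ) * X).leadingCoeff = P.leadingCoeff := leadingCoeff_sub_of_degree_lt hQd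
  have h2 : (P - C (M : ℝ) * X).degree = P.degree := degree_sub_eq_left_of_degree_lt hQd
  have h3 : Tendsto (fun x : ℝ => (P - C (M : ℝ) * X).eval x) atTop atTop := by
    refine Polynomial.tendsto_atTop_of_leadingCoeff_nonneg _ ?_ ?_
    · rw [h2, degree_eq_natDegree hP0, hPd]
      exact_mod_cast (by omega : 0 < g.natDegree)
    · rw [h1, hPl]
      exact_mod_cast hl.le
  have h4 := (h3.comp tendsto_natCast_atTop_atTop).eventually_ge_atTop 0
  obtain ⟨n0, hn0⟩ := eventually_atTop.1 h4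
  refine ⟨n0, fun n hn => ?_⟩
  have h5 := hn0 n hn
  simp only [Function.comp, eval_sub, eval_mul, eval_C, eval_X, sub_nonneg] at h5
  have h6 : P.eval (n : ℝ) = ((g.eval (n : ℤ) : ℤ) : ℝ) := by
    have h := Polynomial.eval_intCast_map (Int.castRingHom ℝ) g (n : ℤ)
    rw [Int.cast_natCast] at h
    rw [hP, h]
    rfl
  rw [h6] at h5
  exact_mod_cast h5

open Classical in
/-- the `N` hit by a small prime -/
noncomputable def TT (g : ℤ[X]) (σ : ℤ) (w x : ℕ) : Finset ℕ :=
  (Icc 1 x).filter (fun N => ∃ q n : ℕ, q ≤ w ∧ (N : ℤ) + σ * g.eval (n : ℤ) = q)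

lemma TT_card (g : ℤ[X]) (σ : ℤ) (hσ : σ = 1 ∨ σ = -1) (w M n0 : ℕ) (hM : 1 ≤ M)
    (hn0 : ∀ n : ℕ, n0 ≤ n → (M : ℤ) * n ≤ g.eval (n : ℤ)) (x : ℕ) :
    (TT g σ w x).card ≤ (w + 1) * (n0 + w + x / M + 1) := by
  classical
  obtain ⟨k, hk⟩ : ∃ k : ℕ, k = x / M := ⟨_, rfl⟩
  rw [← hk]
  have hsub : TT g σ w x ⊆ ((range (w + 1)) ×ˢ (range (n0 + w + k + 1))).image
      (fun p : ℕ × ℕ => ((p.1 : ℤ) - σ * g.eval (p.2 : ℤ)).toNat) := by
    intro N hN
    unfold TT at hN
    rw [mem_filter, mem_Icc] at hN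
    obtain ⟨⟨hN1, hNx⟩, q, n, hq, hqn⟩ := hN
    rw [mem_image]
    refine ⟨(q, n), ?_, ?_⟩
    · rw [mem_product, mem_range, mem_range]
      refine ⟨by show q < w + 1; omega, ?_⟩
      show n < n0 + w + k + 1
      by_cases hn : n < n0
      · omega
      · have h1 := hn0 n (by omega)
        rcases hσ with rfl | rfl
        · have h2 : (M : ℤ) * n ≤ w := by
            have : (q : ℤ) ≤ w := by exact_mod_cast hq
            have : (1 : ℤ) ≤ N := by exact_mod_cast hN1
            linarith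
          have h3 : M * n ≤ w := by exact_mod_cast h2
          have h4 : n ≤ M * n := Nat.le_mul_of_pos_left n (by omega)
          omega
        · have h2 : (M : ℤ) * n ≤ x := by
            have : (0 : ℤ) ≤ q := Int.natCast_nonneg q
            have : (N : ℤ) ≤ x := by exact_mod_cast hNx
            linarith
          have h3 : M * n ≤ x := by exact_mod_cast h2
          have h4 : n ≤ k := by
            rw [hk, Nat.le_div_iff_mul_le (by omega), mul_comm]
            exact h3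
          omega
    · show ((q : ℤ) - σ * g.eval (n : ℤ)).toNat = N
      have : (q : ℤ) - σ * g.eval (n : ℤ) = N := by linarith
      rw [this, Int.toNat_natCast]
  refine (card_le_card hsub).trans (card_image_le.trans ?_)
  rw [card_product, card_range, card_range]

lemma TT_small (g : ℤ[X]) (hd : 2 ≤ g.natDegree) (hl : 0 < g.leadingCoeff) (σ : ℤ)
    (hσ : σ = 1 ∨ σ = -1) (w : ℕ) (ε : ℝ) (hε : 0 < ε) :
    ∀ᶠ x : ℕ in atTop, ((TT g σ w x).card : ℝ) ≤ ε * x := by
  obtain ⟨M, hM⟩ := exists_nat_ge (2 * ((w : ℝ) + 1) / ε)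
  obtain ⟨n0, hn0⟩ := growth g hd hl (M + 1)
  have hlin : ∀ᶠ x : ℕ in atTop, ((w : ℝ) + 1) * (n0 + w + 1) ≤ ε / 2 * (x : ℝ) :=
    (tendsto_natCast_atTop_atTop.const_mul_atTop (by positivity)).eventually_ge_atTop _
  filter_upwards [hlin] with x hx
  have h1 := TT_card g σ hσ w (M + 1) n0 (by omega) hn0 x
  have h2 : ((TT g σ w x).card : ℝ) ≤ ((w : ℝ) + 1) * (n0 + w + (x / (M + 1) : ℕ) + 1) := by
    exact_mod_cast h1
  have h3 : ((x / (M + 1) : ℕ) : ℝ) ≤ (x : ℝ) / (M + 1 : ℕ) := Nat.cast_div_le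
  have h4 : ((w : ℝ) + 1) * ((x : ℝ) / (M + 1 : ℕ)) ≤ ε / 2 * x := by
    rw [← mul_div_assoc, div_le_iff₀ (by positivity)]
    rw [div_le_iff₀ hε] at hM
    push_cast
    have hx0 : (0 : ℝ) ≤ x := Nat.cast_nonneg x
    nlinarith [mul_nonneg hε.le hx0, mul_le_mul_of_nonneg_right hM hx0]
  have h5 : ((w : ℝ) + 1) * ((x / (M + 1) : ℕ) : ℝ) ≤ ((w : ℝ) + 1) * ((x : ℝ) / (M + 1 : ℕ)) :=
    mul_le_mul_of_nonneg_left h3 (by positivity)
  calc ((TT g σ w x).card : ℝ) ≤ ((w : ℝ) + 1) * (n0 + w + (x / (M + 1) : ℕ) + 1) := h2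
    _ = ((w : ℝ) + 1) * (n0 + w + 1) + ((w : ℝ) + 1) * ((x / (M + 1) : ℕ) : ℝ) := by ring
    _ ≤ ε * x := by linarith

/-- the upper bound for the number of hit integers -/
lemma cnt_hit_le (pr : Bool) (g : ℤ[X]) (σ : ℤ) (w : ℕ) (B : Finset (ZMod (Wp w))) (x : ℕ) :
    cnt (hit pr g σ {n : ℕ | (n : ZMod (Wp w)) ∈ B}) x ≤
      cnt (per (Wp w) (sumq g σ w B)) x + (TT g σ w x).card := by
  classical
  have hsub : (Icc 1 x).filter (fun N => N ∈ hit pr g σ {n : ℕ | (n : ZMod (Wp w)) ∈ B}) ⊆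
      (Icc 1 x).filter (fun N => N ∈ per (Wp w) (sumq g σ w B)) ∪ TT g σ w x := by
    intro N hN
    rw [mem_filter] at hN
    obtain ⟨hNI, n, -, hnB, hq⟩ := hN
    obtain ⟨q, hqd⟩ : ∃ q : ℕ, q = ((N : ℤ) + σ * g.eval (n : ℤ)).toNat := ⟨_, rfl⟩
    rw [← hqd] at hq
    have hqe : (N : ℤ) + σ * g.eval (n : ℤ) = q := by
      have h1 : 0 < ((N : ℤ) + σ * g.eval (n : ℤ)).toNat := by rw [← hqd]; exact hq.pos
      rw [hqd, Int.toNat_of_nonneg]
      omega
    rw [mem_union]
    by_cases hqw : q ≤ w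
    · right
      unfold TT
      rw [mem_filter]
      exact ⟨hNI, q, n, hqw, hqe⟩
    · left
      rw [mem_filter]
      refine ⟨hNI, (mem_Icc.1 hNI).1, ?_⟩
      unfold sumq
      rw [mem_filter]
      refine ⟨mem_univ _, (n : ZMod (Wp w)), hnB, ?_⟩
      unfold gd
      rw [gv_cast]
      have h2 : ((N : ZMod (Wp w))) + (σ : ZMod (Wp w)) * ((g.eval (n : ℤ) : ℤ) : ZMod (Wp w)) =
          (q : ZMod (Wp w)) := by
        have := congrArg (fun z : ℤ => (z : ZMod (Wp w))) hqe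
        push_cast at this
        exact this
      rw [h2, ZMod.isUnit_iff_coprime, Nat.Prime.coprime_iff_not_dvd hq, prime_dvd_Wp hq]
      omega
  have h := (card_le_card hsub).trans (card_union_le _ _)
  unfold cnt
  convert h

lemma lowerDensity_le {A : Set ℕ} {c : ℝ} (h : ∀ᶠ n : ℕ in atTop, (cnt A n : ℝ) ≤ c * n) :
    lowerDensity A ≤ c := by
  apply liminf_le_of_frequently_le
  · apply Eventually.frequently
    filter_upwards [h, eventually_ge_atTop 1] with n h2 h3
    have h4 : (0 : ℝ) < n := by exact_mod_cast h3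
    rw [div_le_iff₀ h4]
    exact h2
  · exact ratio_bdd_below A

theorem hit_upper (pr : Bool) (g : ℤ[X]) (hd : 2 ≤ g.natDegree) (hl : 0 < g.leadingCoeff)
    (σ : ℤ) (hσ : σ = 1 ∨ σ = -1) (w : ℕ) (B : Finset (ZMod (Wp w))) :
    lowerDensity (hit pr g σ {n : ℕ | (n : ZMod (Wp w)) ∈ B}) ≤
      ((sumq g σ w B).card : ℝ) / Wp w := by
  apply le_of_forall_pos_le_add
  intro ε hε
  apply lowerDensity_le
  have hlin : ∀ᶠ x : ℕ in atTop, ((sumq g σ w B).card : ℝ) ≤ ε / 2 * (x : ℝ) :=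
    (tendsto_natCast_atTop_atTop.const_mul_atTop (by positivity)).eventually_ge_atTop _
  filter_upwards [hlin, TT_small g hd hl σ hσ w (ε / 2) (by positivity)] with x h1 h2
  have h3 := cnt_hit_le pr g σ w B x
  have h4 : (cnt (hit pr g σ {n : ℕ | (n : ZMod (Wp w)) ∈ B}) x : ℝ) ≤
      (cnt (per (Wp w) (sumq g σ w B)) x : ℝ) + ((TT g σ w x).card : ℝ) := by exact_mod_cast h3
  have h5 := (abs_le.1 (cnt_per (Wp w) (Wp_pos w) (sumq g σ w B) x)).2
  have h6 : (((sumq g σ w B).card : ℝ) / Wp w + ε) * x =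
      ((sumq g σ w B).card : ℝ) / Wp w * x + ε / 2 * x + ε / 2 * x := by ring
  rw [h6]
  linarith

/-! ### the relative density -/

lemma cob (pr : Bool) (A : Set ℕ) : IsCoboundedUnder (· ≥ ·) atTop
    (fun x : ℕ => (cnt {n | isArg pr n ∧ n ∈ A} x : ℝ) / (cnt {n | isArg pr n} x : ℝ)) := by
  apply IsBoundedUnder.isCoboundedUnder_ge
  refine isBoundedUnder_of ⟨1, fun n => ?_⟩
  have h1 : cnt {n | isArg pr n ∧ n ∈ A} n ≤ cnt {n | isArg pr n} n :=
    cnt_subset (fun p hp => hp.1) n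
  have h2 : (cnt {n | isArg pr n ∧ n ∈ A} n : ℝ) ≤ (cnt {n | isArg pr n} n : ℝ) := by
    exact_mod_cast h1
  exact div_le_one_of_le₀ h2 (Nat.cast_nonneg _)

lemma rel_false (w : ℕ) (B : Finset (ZMod (Wp w))) :
    (B.card : ℝ) / (AA false w).card ≤ relq false {n : ℕ | (n : ZMod (Wp w)) ∈ B} := by
  classical
  have hW := Wp_pos w
  have hWR : (0 : ℝ) < Wp w := by exact_mod_cast hW
  have e1 : (AA false w).card = Wp w := by
    unfold AA
    simp [ZMod.card]
  rw [e1]
  have key : ∀ ε : ℝ, 0 < ε → (B.card : ℝ) / Wp w - ε ≤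
      relq false {n : ℕ | (n : ZMod (Wp w)) ∈ B} := by
    intro ε hε
    unfold relq
    apply le_liminf_of_le (cob false _)
    have hlin : ∀ᶠ x : ℕ in atTop, (B.card : ℝ) ≤ ε * (x : ℝ) :=
      (tendsto_natCast_atTop_atTop.const_mul_atTop hε).eventually_ge_atTop _
    filter_upwards [hlin, eventually_ge_atTop 1] with x h1 h2
    have hx : (0 : ℝ) < x := by exact_mod_cast h2
    have e2 : cnt {n | isArg false n} x = x :=
      cnt_full (fun a _ => by
        show isArg false a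
        unfold isArg
        simp)
    rw [e2, le_div_iff₀ hx]
    have h3 := (abs_le.1 (cnt_per (Wp w) hW B x)).1
    have h4 : cnt (per (Wp w) B) x ≤
        cnt {n | isArg false n ∧ n ∈ {n : ℕ | (n : ZMod (Wp w)) ∈ B}} x := by
      refine cnt_subset ?_ x
      rintro n ⟨-, hn⟩
      refine ⟨?_, hn⟩
      unfold isArg
      simp
    have h5 : (cnt (per (Wp w) B) x : ℝ) ≤
        (cnt {n | isArg false n ∧ n ∈ {n : ℕ | (n : ZMod (Wp w)) ∈ B}} x : ℝ) := by
      exact_mod_cast h4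
    have h6 : ((B.card : ℝ) / Wp w - ε) * x = (B.card : ℝ) / Wp w * x - ε * x := by ring
    rw [h6]
    refine le_trans ?_ h5
    linarith
  by_contra hcon
  push Not at hcon
  have := key (((B.card : ℝ) / Wp w - relq false {n : ℕ | (n : ZMod (Wp w)) ∈ B}) / 2)
    (by linarith)
  linarith

lemma rel_true (hPC : StPC) (w : ℕ) (B : Finset (ZMod (Wp w))) (hB : B ⊆ AA true w) :
    (B.card : ℝ) / (AA true w).card ≤ relq true {n : ℕ | (n : ZMod (Wp w)) ∈ B} := by
  classical
  have hφ := totient_Wp_pos w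
  have eA : AA true w = UU w := by
    ext a
    unfold AA
    rw [mem_filter, mem_UU]
    simp
  have e1 : ((AA true w).card : ℝ) = Nat.totient (Wp w) := by
    rw [eA, card_UU]
  have hBU : ∀ a ∈ B, IsUnit a := fun a ha => by
    have := hB ha
    rw [eA, mem_UU] at this
    exact this
  rw [e1]
  set φ : ℝ := (Nat.totient (Wp w) : ℝ) with hφd
  have key : ∀ ε : ℝ, 0 < ε → ε < 1 → ((B.card : ℝ) * (1 - ε)) / (φ * (1 + ε) + 2 * ε) ≤
      relq true {n : ℕ | (n : ZMod (Wp w)) ∈ B} := by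
    intro ε hε hε1
    unfold relq
    apply le_liminf_of_le (cob true _)
    have hsq : ∀ᶠ n : ℕ in atTop, (w : ℝ) ≤ √(n : ℝ) :=
      (Real.tendsto_sqrt_atTop.comp tendsto_natCast_atTop_atTop).eventually_ge_atTop _
    filter_upwards [Pool.Agent.TH494.RG.prime_count hPC w ε hε,
      Pool.Agent.TH494.RG.sqrt_small w ε hε, hsq, eventually_ge_atTop 2] with n h1 h2 h3 h4
    have hpp := Pool.Agent.TH494.RG.pp_pos w n h4
    have l1 := (h1 B hBU).1
    have l2 := (h1 (UU w) (fun a ha => mem_UU.1 ha)).2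
    rw [card_UU, ← hφd] at l2
    have c1 : Pool.Agent.TH494.RG.PrC w n B =
        (Icc 1 n).filter (fun p => p ∈ {n | isArg true n ∧ n ∈ {n : ℕ | (n : ZMod (Wp w)) ∈ B}}) := by
      unfold Pool.Agent.TH494.RG.PrC
      apply filter_congr
      intro p _
      show _ ↔ (isArg true p ∧ _)
      unfold isArg
      simp
    have c2 : ((Pool.Agent.TH494.RG.PrC w n B).card : ℝ) =
        (cnt {n | isArg true n ∧ n ∈ {n : ℕ | (n : ZMod (Wp w)) ∈ B}} n : ℝ) := by
      rw [c1]
      unfold cnt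
      congr
    have c3 : (Icc 1 n).filter (fun p => p ∈ {n | isArg true n}) ⊆
        Pool.Agent.TH494.RG.PrC w n (UU w) ∪ Icc 1 w := by
      intro p hp
      rw [mem_filter] at hp
      have hpp' : p.Prime := hp.2 rfl
      rw [mem_union]
      by_cases hpw : p ≤ w
      · right
        rw [mem_Icc]
        exact ⟨hpp'.pos, hpw⟩
      · left
        unfold Pool.Agent.TH494.RG.PrC
        rw [mem_filter]
        refine ⟨hp.1, hpp', ?_⟩
        rw [mem_UU, ZMod.isUnit_iff_coprime, Nat.Prime.coprime_iff_not_dvd hpp', prime_dvd_Wp hpp']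
        omega
    have c4 : (cnt {n | isArg true n} n : ℝ) ≤
        ((Pool.Agent.TH494.RG.PrC w n (UU w)).card : ℝ) + w := by
      have := (card_le_card c3).trans (card_union_le _ _)
      rw [Nat.card_Icc, Nat.add_sub_cancel] at this
      have h5 : cnt {n | isArg true n} n ≤ (Pool.Agent.TH494.RG.PrC w n (UU w)).card + w := by
        refine le_trans (le_of_eq ?_) this
        unfold cnt
        congr
      exact_mod_cast h5
    rw [c2] at l1
    have u1 : (cnt {n | isArg true n} n : ℝ) ≤ (φ * (1 + ε) + 2 * ε) * pp w n := by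
      have e : (φ * (1 + ε) + 2 * ε) * pp w n = φ * ((1 + ε) * pp w n) + ε * pp w n + ε * pp w n := by
        ring
      rw [e]
      linarith
    have u0 : 0 < φ * (1 + ε) + 2 * ε := by positivity
    -- positivity of the count of the arguments
    have hpos : 0 < (cnt {n | isArg true n} n : ℝ) := by
      have : 0 < cnt {n | isArg true n} n := by
        unfold cnt
        rw [card_pos]
        exact ⟨2, by rw [mem_filter, mem_Icc]; exact ⟨⟨by omega, h4⟩, fun _ => Nat.prime_two⟩⟩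
      exact_mod_cast this
    rw [div_le_div_iff₀ u0 hpos]
    have m1 : (B.card : ℝ) * (1 - ε) * (cnt {n | isArg true n} n : ℝ) ≤
        (B.card : ℝ) * (1 - ε) * ((φ * (1 + ε) + 2 * ε) * pp w n) := by
      refine mul_le_mul_of_nonneg_left u1 ?_
      have : 0 < 1 - ε := by linarith
      positivity
    refine m1.trans ?_
    have m2 := mul_le_mul_of_nonneg_right l1 u0.le
    refine le_trans (le_of_eq ?_) m2
    ring
  have hlim : Tendsto (fun ε : ℝ => ((B.card : ℝ) * (1 - ε)) / (φ * (1 + ε) + 2 * ε)) (𝓝[>] 0)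
      (𝓝 (((B.card : ℝ) * (1 - 0)) / (φ * (1 + 0) + 2 * 0))) := by
    apply Tendsto.mono_left _ nhdsWithin_le_nhds
    have : ContinuousAt (fun ε : ℝ => ((B.card : ℝ) * (1 - ε)) / (φ * (1 + ε) + 2 * ε)) 0 := by
      apply ContinuousAt.div (by fun_prop) (by fun_prop)
      simp only [add_zero, mul_one, mul_zero]
      exact hφ.ne'
    exact this
  have e : ((B.card : ℝ) * (1 - 0)) / (φ * (1 + 0) + 2 * 0) = (B.card : ℝ) / φ := by ring_nf
  rw [e] at hlim
  apply le_of_tendsto hlim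
  filter_upwards [Ioo_mem_nhdsGT (show (0 : ℝ) < 1 by norm_num)] with ε hε
  exact key ε hε.1 hε.2

end Pool.Agent.TH416.J3004

namespace Pool.Agent.TH416.J3004

open Finset Filter Topology Polynomial
open Pool.Agent.TH881
open Pool.Agent.TH881.RG
open Pool.Agent.TH881.RQ
open Pool.Agent.H373R2.T7

theorem ffq_class (hPC : StPC) (pr : Bool) (g : ℤ[X]) (hd : 2 ≤ g.natDegree) (hl : 0 < g.leadingCoeff)
    (σ : ℤ) (hσ : σ = 1 ∨ σ = -1) (w : ℕ) (B : Finset (ZMod (Wp w))) (hB : B ⊆ AA pr w) :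
    ∃ A : Set ℕ, (B.card : ℝ) / (AA pr w).card ≤ relq pr A ∧
      lowerDensity (hit pr g σ A) ≤ ((sumq g σ w B).card : ℝ) / Wp w := by
  refine ⟨{n : ℕ | (n : ZMod (Wp w)) ∈ B}, ?_, hit_upper pr g hd hl σ hσ w B⟩
  cases pr with
  | false => exact rel_false w B
  | true => exact rel_true hPC w B hB

end Pool.Agent.TH416.J3004
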