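import Pool.Agent.TH796.AL.Stms

/-!
# Project AL: elements of `KA` in a basis (job AL-DEC, helper416 for helper796)
-/

set_option autoImplicit false

namespace Pool.Agent.TH416.AL

open Filter Topology Pool.Agent.TH932.Abs Pool.Agent.TH932.Germs Pool.Agent.TH932.Chi
open Pool.Agent.TH796.AL

lemma gr_sum {κ : Type} (s : Finset κ) (f : κ → ℕ → ℝ) :
    ∑ k ∈ s, gr (f k) = gr (fun n => ∑ k ∈ s, f k n) := by
  classical
  induction s using Finset.induction_on with
  | empty => simp only [Finset.sum_empty]; exact gr_zero.symm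
  | insert a s ha ih =>
    rw [Finset.sum_insert ha, ih, gr_add]
    congr 1
    funext n
    rw [Finset.sum_insert ha]

theorem disj : DisjStmt := by
  intro κ _ β hβ g hg k
  choose a ha using fun k => gm_surj (g k)
  have h1 : ∑ k, algebraMap ℝ HR (β k) * rho (g k) = gr (fun n => ∑ k, β k * (a k n : ℝ)) := by
    rw [← gr_sum]
    refine Finset.sum_congr rfl fun k _ => ?_
    rw [← ha k, rho_gm, cst_eq, gr_mul]
  rw [h1, ← gr_zero, gr_eq] at hg
  rw [← ha k, ← gm_zero, gm_eq]
  filter_upwards [hg] with n hn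
  have h2 := Fintype.linearIndependent_iff.1 hβ (fun k => a k n) (by
    rw [← hn]
    refine Finset.sum_congr rfl fun k _ => ?_
    rw [Rat.smul_def, mul_comm])
  exact h2 k

lemma algF (F : IntermediateField ℚ ℝ) (x : F) :
    algebraMap F HR x = algebraMap ℝ HR (x : ℝ) := rfl

lemma alg_rat (q : ℚ) : algebraMap ℝ HR (q : ℝ) = rho (q : GG) := by
  rw [map_ratCast, map_ratCast]

/-- the combinations -/
def Dc {L : ℕ → ℝ} (hL : Tendsto L atTop atTop) (F : IntermediateField ℚ ℝ) {κ : Type}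
    [Fintype κ] (β : κ → F) (g : HR) : Prop :=
  ∃ c : κ → KK L hL, g = ∑ k, algebraMap ℝ HR (β k : ℝ) * rho (c k : GG)

lemma Dc.add {L : ℕ → ℝ} {hL : Tendsto L atTop atTop} {F : IntermediateField ℚ ℝ} {κ : Type}
    [Fintype κ] {β : κ → F} {g h : HR} (hg : Dc hL F β g) (hh : Dc hL F β h) :
    Dc hL F β (g + h) := by
  obtain ⟨c, rfl⟩ := hg
  obtain ⟨d, rfl⟩ := hh
  refine ⟨fun k => c k + d k, ?_⟩
  rw [← Finset.sum_add_distrib]
  refine Finset.sum_congr rfl fun k _ => ?_
  rw [← mul_add, ← map_add]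
  rfl

lemma Dc.zero {L : ℕ → ℝ} {hL : Tendsto L atTop atTop} {F : IntermediateField ℚ ℝ} {κ : Type}
    [Fintype κ] {β : κ → F} : Dc hL F β 0 :=
  ⟨fun _ => 0, by simp⟩

lemma Dc.sum {L : ℕ → ℝ} {hL : Tendsto L atTop atTop} {F : IntermediateField ℚ ℝ} {κ : Type}
    [Fintype κ] {β : κ → F} {J : Type} (s : Finset J) (f : J → HR)
    (h : ∀ j ∈ s, Dc hL F β (f j)) : Dc hL F β (∑ j ∈ s, f j) :=
  Finset.sum_induction f (Dc hL F β) (fun _ _ => Dc.add) Dc.zero h

lemma Dc.base {L : ℕ → ℝ} (hL : Tendsto L atTop atTop) {F : IntermediateField ℚ ℝ} {κ : Type}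
    [Fintype κ] (β : Module.Basis κ ℚ F) (x : F) (y : KK L hL) :
    Dc hL F β (algebraMap ℝ HR (x : ℝ) * rho (y : GG)) := by
  refine ⟨fun k => ((β.repr x k : ℚ) : KK L hL) * y, ?_⟩
  have h1 : (x : ℝ) = ∑ k, ((β.repr x k : ℚ) : ℝ) * (β k : ℝ) := by
    conv_lhs => rw [← β.sum_repr x]
    push_cast
    refine Finset.sum_congr rfl fun k _ => ?_
    rw [Rat.smul_def]
  rw [h1, map_sum, Finset.sum_mul]
  refine Finset.sum_congr rfl fun k _ => ?_
  have h2 : ((((β.repr x k : ℚ) : KK L hL) * y : KK L hL) : GG)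
      = ((β.repr x k : ℚ) : GG) * (y : GG) := by
    push_cast
    rfl
  rw [h2, map_mul, map_mul, alg_rat]
  ring

theorem dec : DecStmt := by
  intro L hL F _ κ _ β g
  constructor
  · intro hg
    change Dc hL F β g
    unfold KA at hg
    induction hg using Algebra.adjoin_induction with
    | mem x hx =>
      obtain ⟨y, hy, rfl⟩ := hx
      have := Dc.base hL β 1 ⟨y, hy⟩
      simpa using this
    | algebraMap r =>
      have := Dc.base hL β r 1
      simpa [algF] using this
    | add x y _ _ hx hy => exact hx.add hy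
    | mul x y _ _ hx hy =>
      obtain ⟨c, rfl⟩ := hx
      obtain ⟨d, rfl⟩ := hy
      rw [Finset.sum_mul_sum]
      refine Dc.sum _ _ fun k _ => Dc.sum _ _ fun l _ => ?_
      have := Dc.base hL β (β k * β l) (c k * d l)
      have h2 : algebraMap ℝ HR ((β k * β l : F) : ℝ) * rho ((c k * d l : KK L hL) : GG)
          = algebraMap ℝ HR (β k : ℝ) * rho (c k : GG)
            * (algebraMap ℝ HR (β l : ℝ) * rho (d l : GG)) := by
        rw [show ((β k * β l : F) : ℝ) = (β k : ℝ) * (β l : ℝ) from rfl,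
          show ((c k * d l : KK L hL) : GG) = (c k : GG) * (d l : GG) from rfl, map_mul, map_mul]
        ring
      rwa [h2] at this
  · rintro ⟨c, rfl⟩
    refine Subalgebra.sum_mem _ fun k _ => Subalgebra.mul_mem _ ?_ ?_
    · rw [← algF]
      exact Subalgebra.algebraMap_mem _ _
    · exact Algebra.subset_adjoin ⟨_, (c k).2, rfl⟩

end Pool.Agent.TH416.AL
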