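import Pool.Agent.TH97.GB.Defs

set_option autoImplicit false

/-!
# Power trick (job PT of project GB)
-/

namespace Pool.Agent.TH416.GB_PT

open Pool.Agent.TH97.GB Filter Topology

lemma stpp_rot {G ι : Type} [Group G] {A B C : ι → Finset G} (h : STPP A B C) : STPP B C A := by
  intro i j k b' hb' b hb c' hc' c hc a' ha' a ha heq
  have h1 : a' * a⁻¹ * (b' * b⁻¹) * (c' * c⁻¹) = 1 := by
    have h2 : a' * a⁻¹ * (b' * b⁻¹) * (c' * c⁻¹) =
        (a' * a⁻¹) * (b' * b⁻¹ * (c' * c⁻¹) * (a' * a⁻¹)) * (a' * a⁻¹)⁻¹ := by group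
    rw [h2, heq]; group
  obtain ⟨e1, e2, e3, e4, e5⟩ := h k i j a' ha' a ha b' hb' b hb c' hc' c hc h1
  exact ⟨e2, (e1.trans e2).symm, e4, e5, e3⟩

lemma stpp_pi {H T ι J : Type} [Group H] [Fintype T] [DecidableEq T]
    {A B C : T → ι → Finset H} (h : ∀ t, STPP (A t) (B t) (C t)) (φ : J → T → ι)
    (hφ : Function.Injective φ) :
    STPP (G := T → H) (fun j => Fintype.piFinset fun t => A t (φ j t))
      (fun j => Fintype.piFinset fun t => B t (φ j t))
      (fun j => Fintype.piFinset fun t => C t (φ j t)) := by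
  intro i j k a' ha' a ha b' hb' b hb c' hc' c hc heq
  simp only [Fintype.mem_piFinset] at ha' ha hb' hb hc' hc
  have key := fun t => h t (φ i t) (φ j t) (φ k t) (a' t) (ha' t) (a t) (ha t) (b' t) (hb' t)
    (b t) (hb t) (c' t) (hc' t) (c t) (hc t) (congrFun heq t)
  exact ⟨hφ (funext fun t => (key t).1), hφ (funext fun t => (key t).2.1),
    funext fun t => (key t).2.2.1, funext fun t => (key t).2.2.2.1,
    funext fun t => (key t).2.2.2.2⟩

lemma sqBound_fintype {H : Type} [Group H] {β : ℝ} (hβ : SqBound H β) {T ι : Type} [Fintype T]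
    [Finite ι] (A B C : ι → Finset (T → H)) (s : ℕ) (h : STPP A B C)
    (hc : ∀ i, (A i).card = s ∧ (B i).card = s ∧ (C i).card = s) :
    (Nat.card ι : ℝ) * (s : ℝ) ^ 2 ≤ 3 * β ^ (Fintype.card T) := by
  classical
  let e := Fintype.equivFin T
  let f : (T → H) →* (Fin (Fintype.card T) → H) :=
    { toFun := fun x => x ∘ e.symm, map_one' := rfl, map_mul' := fun _ _ => rfl }
  have hf : Function.Injective f := by
    intro x y hxy
    have h1 : x ∘ e.symm = y ∘ e.symm := hxy
    exact e.symm.surjective.injective_comp_right h1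
  refine hβ (Fintype.card T) ι (fun i => (A i).image f) (fun i => (B i).image f)
    (fun i => (C i).image f) s ?_ ?_
  · intro i j k a' ha' a ha b' hb' b hb c' hc' c hc heq
    simp only [Finset.mem_image] at ha' ha hb' hb hc' hc
    obtain ⟨a', ha', rfl⟩ := ha'
    obtain ⟨a, ha, rfl⟩ := ha
    obtain ⟨b', hb', rfl⟩ := hb'
    obtain ⟨b, hb, rfl⟩ := hb
    obtain ⟨c', hc', rfl⟩ := hc'
    obtain ⟨c, hc, rfl⟩ := hc
    have h1 : f (a' * a⁻¹ * (b' * b⁻¹) * (c' * c⁻¹)) = f 1 := by
      rw [map_one, ← heq]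
      simp only [map_mul, map_inv]
    obtain ⟨e1, e2, e3, e4, e5⟩ := h i j k a' ha' a ha b' hb' b hb c' hc' c hc (hf h1)
    exact ⟨e1, e2, by rw [e3], by rw [e4], by rw [e5]⟩
  · intro i
    refine ⟨?_, ?_, ?_⟩
    · rw [Finset.card_image_of_injective _ hf]; exact (hc i).1
    · rw [Finset.card_image_of_injective _ hf]; exact (hc i).2.1
    · rw [Finset.card_image_of_injective _ hf]; exact (hc i).2.2

/-- number of occurrences -/
noncomputable def cnt {ι : Type} [DecidableEq ι] {r : ℕ} (w : Fin r → ι) (i : ι) : ℕ :=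
  (Finset.univ.filter fun t => w t = i).card

lemma prod_cnt {ι : Type} [DecidableEq ι] [Fintype ι] {M : Type} [CommMonoid M] {r : ℕ}
    (w : Fin r → ι) (g : ι → M) : ∏ t, g (w t) = ∏ i, g i ^ cnt w i := by
  rw [← Finset.prod_fiberwise (s := Finset.univ) (g := w) (f := fun t => g (w t))]
  refine Finset.prod_congr rfl fun i _ => ?_
  rw [cnt, ← Finset.prod_const]
  refine Finset.prod_congr rfl fun t ht => ?_
  rw [(Finset.mem_filter.1 ht).2]

lemma kap_bound {H ι : Type} [Group H] [Fintype ι] [DecidableEq ι] {β : ℝ} (hβ0 : 0 < β)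
    (hβ : SqBound H β) {A B C : ι → Finset H} (h : STPP A B C) (r : ℕ) (kap : ι → ℕ) :
    ((Finset.univ.filter fun w : Fin r → ι => cnt w = kap).card : ℝ) *
      ∏ i, ((((A i).card * (B i).card * (C i).card : ℕ) : ℝ) ^ ((2 : ℝ) / 3)) ^ kap i ≤
      2 * β ^ r := by
  classical
  -- the three families
  let D : Fin 3 → ι → Finset H := ![A, B, C]
  have hD : ∀ m : Fin 3, STPP (D m) (D (m + 1)) (D (m + 2)) := by
    intro m
    fin_cases m
    · exact h
    · exact stpp_rot h
    · exact stpp_rot (stpp_rot h)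
  let W : Type := {w : Fin r → ι // cnt w = kap}
  let φ : (Fin 3 → W) → (Fin 3 × Fin r) → ι := fun x p => (x p.1).1 p.2
  have hφ : Function.Injective φ := by
    intro x y hxy
    funext m
    apply Subtype.ext
    funext t
    exact congrFun hxy (m, t)
  have hst := stpp_pi (A := fun p : Fin 3 × Fin r => D p.1) (B := fun p => D (p.1 + 1))
    (C := fun p => D (p.1 + 2)) (fun p => hD p.1) φ hφ
  set s : ℕ := ∏ i, ((A i).card * (B i).card * (C i).card) ^ kap i with hs
  have hcard : ∀ (j : Fin 3 → W) (l : Fin 3),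
      (Fintype.piFinset fun t : Fin 3 × Fin r => D (t.1 + l) (φ j t)).card = s := by
    intro j l
    rw [Fintype.card_piFinset, Fintype.prod_prod_type]
    have h1 : ∀ m : Fin 3, ∏ y : Fin r, (D ((m, y).1 + l) (φ j (m, y))).card =
        ∏ i, (D (m + l) i).card ^ kap i := by
      intro m
      have h2 := prod_cnt (j m).1 (fun i => (D (m + l) i).card)
      rw [(j m).2] at h2
      exact h2
    rw [Finset.prod_congr rfl fun m _ => h1 m]
    have h3 : ∏ m : Fin 3, ∏ i, (D (m + l) i).card ^ kap i =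
        ∏ m : Fin 3, ∏ i, (D m i).card ^ kap i :=
      Equiv.prod_comp (Equiv.addRight l) (fun m => ∏ i, (D m i).card ^ kap i)
    rw [h3, Fin.prod_univ_three, hs]
    rw [← Finset.prod_mul_distrib, ← Finset.prod_mul_distrib]
    refine Finset.prod_congr rfl fun i _ => ?_
    rw [mul_pow, mul_pow]
    rfl
  have hb := sqBound_fintype hβ _ _ _ s hst (fun j => ⟨?_, hcard j 1, hcard j 2⟩)
  swap
  · have := hcard j 0
    simpa using this
  set N : ℕ := (Finset.univ.filter fun w : Fin r → ι => cnt w = kap).card with hN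
  have hNW : Nat.card W = N := by
    rw [Nat.card_eq_fintype_card, Fintype.card_subtype]
  have hcJ : Nat.card (Fin 3 → W) = N ^ 3 := by
    rw [Nat.card_fun, hNW]; simp
  rw [hcJ, Fintype.card_prod, Fintype.card_fin, Fintype.card_fin] at hb
  set P : ℝ := ∏ i, ((((A i).card * (B i).card * (C i).card : ℕ) : ℝ) ^ ((2 : ℝ) / 3)) ^ kap i
    with hP
  have hP0 : 0 ≤ P := Finset.prod_nonneg fun i _ => by positivity
  have hP3 : P ^ 3 = (s : ℝ) ^ 2 := by
    rw [hP, hs, Nat.cast_prod, ← Finset.prod_pow, ← Finset.prod_pow]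
    refine Finset.prod_congr rfl fun i _ => ?_
    have hx : ((((A i).card * (B i).card * (C i).card : ℕ) : ℝ) ^ ((2 : ℝ) / 3)) ^ 3 =
        (((A i).card * (B i).card * (C i).card : ℕ) : ℝ) ^ 2 := by
      rw [← Real.rpow_natCast, ← Real.rpow_mul (Nat.cast_nonneg _), ← Real.rpow_natCast]
      norm_num
    rw [pow_right_comm, hx, Nat.cast_pow, pow_right_comm]
  have hN0 : (0 : ℝ) ≤ N := by positivity
  have h3 : ((N : ℝ) * P) ^ 3 ≤ (2 * β ^ r) ^ 3 := by
    rw [mul_pow, hP3]
    push_cast at hb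
    refine hb.trans ?_
    have h4 : β ^ (3 * r) = (β ^ r) ^ 3 := by rw [← pow_mul, mul_comm]
    have h5 : 0 < (β ^ r) ^ 3 := by positivity
    rw [h4, mul_pow]
    exact mul_le_mul_of_nonneg_right (by norm_num) h5.le
  have h6 : 0 < 2 * β ^ r := mul_pos two_pos (pow_pos hβ0 r)
  exact (pow_le_pow_iff_left₀ (mul_nonneg hN0 hP0) h6.le three_ne_zero).1 h3

theorem t_PT : P_PT := by
  intro H _ _ β hβ0 hβ ι _ A B C h
  classical
  set g : ι → ℝ := fun i => (((A i).card * (B i).card * (C i).card : ℕ) : ℝ) ^ ((2 : ℝ) / 3)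
    with hg
  have hg0 : ∀ i, 0 ≤ g i := fun i => by rw [hg]; positivity
  set S : ℝ := ∑ i, g i with hS
  set k : ℕ := Fintype.card ι with hk
  have key : ∀ r : ℕ, S ^ r ≤ 2 * ((r : ℝ) + 1) ^ k * β ^ r := by
    intro r
    have h1 : S ^ r = ∑ w : Fin r → ι, ∏ t, g (w t) := by
      rw [hS]
      have := Finset.prod_univ_sum (fun _ : Fin r => (Finset.univ : Finset ι)) (fun _ i => g i)
      rw [Finset.prod_const, Finset.card_univ, Fintype.card_fin, Fintype.piFinset_univ] at this
      exact this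
    let K : Finset (ι → ℕ) := Fintype.piFinset fun _ => Finset.range (r + 1)
    have hK : ∀ w ∈ (Finset.univ : Finset (Fin r → ι)), cnt w ∈ K := by
      intro w _
      simp only [K, Fintype.mem_piFinset, Finset.mem_range]
      intro i
      have := Finset.card_le_univ (Finset.univ.filter fun t => w t = i)
      rw [Fintype.card_fin] at this
      exact Nat.lt_succ_of_le this
    have hKc : K.card = (r + 1) ^ k := by
      simp only [K, Fintype.card_piFinset, Finset.card_range, Finset.prod_const, Finset.card_univ]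
      rw [hk]
    rw [h1, ← Finset.sum_fiberwise_of_maps_to hK]
    have h2 : ∀ kap ∈ K, ∑ w ∈ Finset.univ.filter (fun w : Fin r → ι => cnt w = kap),
        ∏ t, g (w t) ≤ 2 * β ^ r := by
      intro kap _
      have h3 : ∑ w ∈ Finset.univ.filter (fun w : Fin r → ι => cnt w = kap), ∏ t, g (w t) =
          ((Finset.univ.filter fun w : Fin r → ι => cnt w = kap).card : ℝ) *
            ∏ i, g i ^ kap i := by
        rw [← nsmul_eq_mul, ← Finset.sum_const]
        refine Finset.sum_congr rfl fun w hw => ?_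
        rw [prod_cnt, (Finset.mem_filter.1 hw).2]
      rw [h3]
      exact kap_bound hβ0 hβ h r kap
    calc _ ≤ ∑ kap ∈ K, 2 * β ^ r := Finset.sum_le_sum h2
      _ = 2 * ((r : ℝ) + 1) ^ k * β ^ r := by
        rw [Finset.sum_const, hKc, nsmul_eq_mul]
        push_cast
        ring
  by_contra hcon
  push Not at hcon
  have hx : 1 < S / β := by rwa [one_lt_div hβ0]
  have hx0 : 0 < S / β := by linarith
  have ht := (tendsto_pow_const_div_const_pow_of_one_lt k hx).comp (tendsto_add_atTop_nat 1)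
  have hlow : ∀ r : ℕ, 1 / (2 * (S / β)) ≤
      ((fun n : ℕ => (n : ℝ) ^ k / (S / β) ^ n) ∘ fun a => a + 1) r := by
    intro r
    simp only [Function.comp]
    have h7 : 0 < (S / β) ^ (r + 1) := pow_pos hx0 _
    have h8 : 0 < 2 * (S / β) := mul_pos two_pos hx0
    rw [div_le_div_iff₀ h8 h7]
    have h1 := key r
    have h2 : (S / β) ^ r ≤ 2 * ((r : ℝ) + 1) ^ k := by
      rw [div_pow, div_le_iff₀ (pow_pos hβ0 r)]
      exact h1
    push_cast
    rw [pow_succ, one_mul]
    calc (S / β) ^ r * (S / β) ≤ (2 * ((r : ℝ) + 1) ^ k) * (S / β) :=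
          mul_le_mul_of_nonneg_right h2 hx0.le
      _ = ((r : ℝ) + 1) ^ k * (2 * (S / β)) := by ring
  have h0 := ge_of_tendsto' ht hlow
  have h9 : 0 < 1 / (2 * (S / β)) := div_pos one_pos (mul_pos two_pos hx0)
  exact absurd h0 (not_le.2 h9)

end Pool.Agent.TH416.GB_PT
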