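import Pool.Agent.TH142.PN.Agh0

/-!
# Minimality criterion for affine maps on compact nilpotent homogeneous spaces (job 1359, PN-1)
-/

set_option autoImplicit false

open Set Topology Filter
open scoped Pointwise

namespace Pool.Agent.TH416.PN
open Pool.Agent.TH142.PN

variable {G : Type*} [Group G] [TopologicalSpace G] {Γ : Subgroup G} {H : Type*} {n : ℕ}

/-! ### Basic facts -/

lemma Gs_anti (S : AffSys G Γ H n) {i j : ℕ} (h : i ≤ j) : S.Gs j ≤ S.Gs i := by
  induction h with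
  | refl => exact le_rfl
  | step _ ih => exact (S.le _).trans ih

lemma Gs_conj (S : AffSys G Γ H n) {i : ℕ} (hi : i ≤ n) (g : G) {k : G} (hk : k ∈ S.Gs i) :
    g * k * g⁻¹ ∈ S.Gs i := by
  rcases Nat.lt_or_ge i n with h | h
  · have h1 := S.le i (S.comm i h g k hk)
    have h2 : g * k * g⁻¹ = (g * k * g⁻¹ * k⁻¹) * k := by group
    rw [h2]
    exact (S.Gs i).mul_mem h1 hk
  · have : i = n := le_antisymm hi h
    subst this
    rw [S.last, Subgroup.mem_bot] at hk
    rw [hk, S.last, Subgroup.mem_bot]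
    group

lemma Gs_conj' (S : AffSys G Γ H n) {i : ℕ} (hi : i ≤ n) (g : G) {k : G} (hk : k ∈ S.Gs i) :
    g⁻¹ * k * g ∈ S.Gs i := by
  have := Gs_conj S hi g⁻¹ hk
  rwa [inv_inv] at this

lemma Gs_θ (S : AffSys G Γ H n) {i : ℕ} (hi : i ≤ n) (h : H) {k : G} (hk : k ∈ S.Gs i) :
    S.θ h k ∈ S.Gs i := by
  rcases Nat.lt_or_ge i n with h' | h'
  · have h1 := S.le i (S.θGs h i h' k hk)
    have h2 : S.θ h k = (S.θ h k * k⁻¹) * k := by group
    rw [h2]
    exact (S.Gs i).mul_mem h1 hk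
  · have : i = n := le_antisymm hi h'
    subst this
    rw [S.last, Subgroup.mem_bot] at hk
    rw [hk, map_one]
    exact (S.Gs i).one_mem

lemma Gs_θ' (S : AffSys G Γ H n) {i : ℕ} (hi : i ≤ n) (h : H) {k : G} (hk : k ∈ S.Gs i) :
    (S.θ h).symm k ∈ S.Gs i := by
  rcases Nat.lt_or_ge i n with h' | h'
  · have h1 := S.le i (S.θGs' h i h' k hk)
    have h2 : (S.θ h).symm k = ((S.θ h).symm k * k⁻¹) * k := by group
    rw [h2]
    exact (S.Gs i).mul_mem h1 hk
  · have : i = n := le_antisymm hi h'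
    subst this
    rw [S.last, Subgroup.mem_bot] at hk
    rw [hk, map_one]
    exact (S.Gs i).one_mem

lemma e_zero (S : AffSys G Γ H n) {i : ℕ} (hi : i < n) : S.e i 0 = 1 := by
  have h := S.add i hi 0 0
  rw [add_zero] at h
  exact left_eq_mul.1 h

lemma e_neg (S : AffSys G Γ H n) {i : ℕ} (hi : i < n) (t : ℝ) : S.e i (-t) = (S.e i t)⁻¹ := by
  have h := S.add i hi t (-t)
  rw [add_neg_cancel, e_zero S hi] at h
  exact eq_inv_of_mul_eq_one_right h.symm

lemma e_nat (S : AffSys G Γ H n) {i : ℕ} (hi : i < n) (m : ℕ) (t : ℝ) :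
    S.e i (m * t) = S.e i t ^ m := by
  induction m with
  | zero => simp [e_zero S hi]
  | succ m ih =>
    rw [pow_succ, ← ih, ← S.add i hi]
    congr 1
    push_cast
    ring

lemma e_int (S : AffSys G Γ H n) {i : ℕ} (hi : i < n) (m : ℤ) : S.e i m ∈ Γ := by
  have h1 : ∀ m : ℕ, S.e i m ∈ Γ := by
    intro m
    have := e_nat S hi m 1
    rw [mul_one] at this
    rw [this]
    exact Γ.pow_mem (S.e_one i hi) m
  rcases Int.eq_nat_or_neg m with ⟨k, rfl | rfl⟩
  · simpa using h1 k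
  · push_cast
    rw [e_neg S hi]
    exact Γ.inv_mem (h1 k)

/-- the compact set -/
lemma exists_compact [IsTopologicalGroup G] (S : AffSys G Γ H n) :
    ∃ C : Set G, IsCompact C ∧ ∀ g : G, ∃ c ∈ C, ∃ γ ∈ Γ, g = c * γ := by
  have key : ∀ d i : ℕ, i + d = n → ∃ C : Set G, IsCompact C ∧
      ∀ k ∈ S.Gs i, ∃ c ∈ C, ∃ γ ∈ Γ, k = c * γ := by
    intro d
    induction d with
    | zero =>
      intro i hi
      refine ⟨{1}, isCompact_singleton, fun k hk => ⟨1, rfl, 1, Γ.one_mem, ?_⟩⟩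
      have : i = n := by omega
      rw [this, S.last, Subgroup.mem_bot] at hk
      rw [hk, mul_one]
    | succ d ih =>
      intro i hi
      have hin : i < n := by omega
      obtain ⟨C, hC, hC2⟩ := ih (i + 1) (by omega)
      refine ⟨(S.e i '' Icc 0 1) * C, (isCompact_Icc.image (S.cont i hin)).mul hC, ?_⟩
      intro k hk
      obtain ⟨t, k', hk', rfl⟩ := S.gen i hin k hk
      have hg : S.e i (⌊t⌋ : ℤ) ∈ Γ := e_int S hin _
      obtain ⟨c, hc, γ, hγ, h1⟩ := hC2 _ (Gs_conj S (by omega : i + 1 ≤ n) (S.e i (⌊t⌋ : ℤ)) hk')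
      refine ⟨S.e i (Int.fract t) * c, mul_mem_mul ⟨_, ⟨Int.fract_nonneg t,
        (Int.fract_lt_one t).le⟩, rfl⟩ hc, γ * S.e i (⌊t⌋ : ℤ), Γ.mul_mem hγ hg, ?_⟩
      have h2 : S.e i t = S.e i (Int.fract t) * S.e i (⌊t⌋ : ℤ) := by
        rw [← S.add i hin, Int.fract_add_floor]
      rw [h2]
      have h3 : S.e i (⌊t⌋ : ℤ) * k' = (c * γ) * S.e i (⌊t⌋ : ℤ) := by
        rw [← h1]; group
      calc S.e i (Int.fract t) * S.e i (⌊t⌋ : ℤ) * k'
          = S.e i (Int.fract t) * (S.e i (⌊t⌋ : ℤ) * k') := by rw [mul_assoc]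
        _ = _ := by rw [h3]; group
  obtain ⟨C, hC, hC2⟩ := key n 0 (by omega)
  exact ⟨C, hC, fun g => hC2 g (by rw [S.zero]; trivial)⟩

/-! ### The invariant sets -/

/-- closed, nonempty, invariant sets -/
structure PP (S : AffSys G Γ H n) (i : ℕ) (Y : Set G) : Prop where
  closed : IsClosed Y
  ne : Y.Nonempty
  Γinv : ∀ y ∈ Y, ∀ γ ∈ Γ, y * γ ∈ Y
  Ainv : ∀ h, ∀ y ∈ Y, S.u h * S.θ h y ∈ Y
  Ginv : ∀ y ∈ Y, ∀ k ∈ S.Gs i, y * k ∈ Y

/-- the translate `Z e_i(t)` -/
def sh (S : AffSys G Γ H n) (i : ℕ) (t : ℝ) (Z : Set G) : Set G := {g | g * S.e i (-t) ∈ Z}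

lemma sh_zero (S : AffSys G Γ H n) {i : ℕ} (hi : i < n) (Z : Set G) : sh S i 0 Z = Z := by
  ext g
  simp [sh, e_zero S hi]

lemma sh_add (S : AffSys G Γ H n) {i : ℕ} (hi : i < n) (s t : ℝ) (Z : Set G) :
    sh S i s (sh S i t Z) = sh S i (s + t) Z := by
  ext g
  show g * S.e i (-s) * S.e i (-t) ∈ Z ↔ g * S.e i (-(s + t)) ∈ Z
  rw [mul_assoc, ← S.add i hi, neg_add]

lemma sh_mono (S : AffSys G Γ H n) {i : ℕ} (t : ℝ) {Z W : Set G} (h : Z ⊆ W) :
    sh S i t Z ⊆ sh S i t W := fun _ hg => h hg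

lemma sh_PP [IsTopologicalGroup G] (S : AffSys G Γ H n) {i : ℕ} (hi : i < n) (t : ℝ) {Z : Set G}
    (hZ : PP S (i + 1) Z) : PP S (i + 1) (sh S i t Z) := by
  refine ⟨?_, ?_, ?_, ?_, ?_⟩
  · exact hZ.closed.preimage (continuous_mul_const _)
  · obtain ⟨z, hz⟩ := hZ.ne
    refine ⟨z * S.e i t, ?_⟩
    show z * S.e i t * S.e i (-t) ∈ Z
    rw [e_neg S hi, mul_assoc, mul_inv_cancel, mul_one]
    exact hz
  · intro g hg γ hγ
    show g * γ * S.e i (-t) ∈ Z
    have h1 : (γ * S.e i (-t) * γ⁻¹ * (S.e i (-t))⁻¹) ∈ S.Gs (i + 1) :=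
      S.comm i hi γ _ (S.mem i hi (-t))
    have h1' := Gs_conj' S (by omega : i + 1 ≤ n) (S.e i (-t)) h1
    have h2 : g * γ * S.e i (-t) = g * S.e i (-t) *
        ((S.e i (-t))⁻¹ * (γ * S.e i (-t) * γ⁻¹ * (S.e i (-t))⁻¹) * S.e i (-t)) * γ := by group
    rw [h2]
    exact hZ.Γinv _ (hZ.Ginv _ hg _ h1') γ hγ
  · intro h g hg
    show S.u h * S.θ h g * S.e i (-t) ∈ Z
    have h1 := S.θGs h i hi (S.e i t) (S.mem i hi t)
    have h2 : S.u h * S.θ h g * S.e i (-t) =
        (S.u h * S.θ h (g * S.e i (-t))) * (S.θ h (S.e i t) * (S.e i t)⁻¹) := by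
      rw [map_mul, e_neg S hi, map_inv]
      group
    rw [h2]
    exact hZ.Ginv _ (hZ.Ainv h _ hg) _ h1
  · intro g hg k hk
    show g * k * S.e i (-t) ∈ Z
    have h1 := Gs_conj' S (by omega : i + 1 ≤ n) (S.e i (-t)) hk
    have h2 : g * k * S.e i (-t) = g * S.e i (-t) * ((S.e i (-t))⁻¹ * k * S.e i (-t)) := by group
    rw [h2]
    exact hZ.Ginv _ hg _ h1

lemma inter_PP (S : AffSys G Γ H n) {i : ℕ} {Z W : Set G} (hZ : PP S i Z) (hW : PP S i W)
    (hne : (Z ∩ W).Nonempty) : PP S i (Z ∩ W) :=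
  ⟨hZ.closed.inter hW.closed, hne, fun y hy γ hγ => ⟨hZ.Γinv y hy.1 γ hγ, hW.Γinv y hy.2 γ hγ⟩,
    fun h y hy => ⟨hZ.Ainv h y hy.1, hW.Ainv h y hy.2⟩,
    fun y hy k hk => ⟨hZ.Ginv y hy.1 k hk, hW.Ginv y hy.2 k hk⟩⟩

lemma exists_min [IsTopologicalGroup G] (S : AffSys G Γ H n) {i : ℕ} {Y : Set G}
    (hY : PP S i Y) : ∃ M, M ⊆ Y ∧ Minimal (· ∈ {Z | PP S i Z}) M := by
  obtain ⟨C, hC, hC2⟩ := exists_compact S
  refine zorn_superset_nonempty {Z | PP S i Z} ?_ Y hY
  intro c hcS hchain hcne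
  refine ⟨⋂₀ c, ?_, fun s hs => sInter_subset_of_mem hs⟩
  have hne : (⋂₀ c).Nonempty := by
    by_contra hemp
    rw [not_nonempty_iff_eq_empty] at hemp
    obtain ⟨s0, hs0⟩ := hcne
    have : Nonempty c := ⟨⟨s0, hs0⟩⟩
    obtain ⟨s, hs⟩ := hC.elim_directed_family_closed (fun s : c => (s : Set G))
      (fun s => (hcS s.2).closed) (by
        rw [← sInter_eq_iInter, hemp, inter_empty]) (by
        intro a b
        rcases hchain.total a.2 b.2 with h | h
        · exact ⟨a, subset_rfl, h⟩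
        · exact ⟨b, h, subset_rfl⟩)
    obtain ⟨y, hy⟩ := (hcS s.2).ne
    obtain ⟨x, hx, γ, hγ, hyx⟩ := hC2 y
    have h1 : x ∈ (s : Set G) := by
      have := (hcS s.2).Γinv y hy γ⁻¹ (Γ.inv_mem hγ)
      rwa [hyx, mul_assoc, mul_inv_cancel, mul_one] at this
    have h2 : x ∈ C ∩ (s : Set G) := ⟨hx, h1⟩
    rw [hs] at h2
    exact h2
  refine ⟨isClosed_sInter (fun s hs => (hcS hs).closed), hne, ?_, ?_, ?_⟩
  · exact fun y hy γ hγ s hs => (hcS hs).Γinv y (hy s hs) γ hγ
  · exact fun h y hy s hs => (hcS hs).Ainv h y (hy s hs)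
  · exact fun y hy k hk s hs => (hcS hs).Ginv y (hy s hs) k hk

/-- no small subgroups -/
lemma circle_small (z : Circle) (h : ∀ m : ℕ, ‖((z ^ m : Circle) : ℂ) - 1‖ ≤ 1 / 2) : z = 1 := by
  by_contra hne
  have hd : 0 < ‖(z : ℂ) - 1‖ := by
    rw [norm_pos_iff, sub_ne_zero]
    intro h1
    exact hne (Circle.ext h1)
  have key : ∀ m : ℕ, (3 / 2) ^ m * ‖(z : ℂ) - 1‖ ≤ ‖((z ^ (2 ^ m) : Circle) : ℂ) - 1‖ := by
    intro m
    induction m with
    | zero => simp
    | succ m ih =>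
      have h1 := h (2 ^ m)
      set w : ℂ := ((z ^ (2 ^ m) : Circle) : ℂ) with hw
      have h2 : ((z ^ (2 ^ (m + 1)) : Circle) : ℂ) - 1 = (w - 1) * (w + 1) := by
        rw [pow_succ, pow_mul, hw]
        push_cast
        ring
      have h3 : (3 / 2 : ℝ) ≤ ‖w + 1‖ := by
        have : (2 : ℂ) = (w + 1) - (w - 1) := by ring
        have h4 : ‖(2 : ℂ)‖ ≤ ‖w + 1‖ + ‖w - 1‖ := by
          rw [this]
          exact norm_sub_le _ _
        rw [Complex.norm_ofNat] at h4
        linarith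
      rw [h2, norm_mul, pow_succ]
      have h5 : 0 ≤ ‖w - 1‖ := norm_nonneg _
      nlinarith
  have h1 : Tendsto (fun m : ℕ => (3 / 2 : ℝ) ^ m * ‖(z : ℂ) - 1‖) atTop atTop :=
    (tendsto_pow_atTop_atTop_of_one_lt (by norm_num)).atTop_mul_const hd
  obtain ⟨m, hm⟩ := (h1.eventually_gt_atTop (1 / 2)).exists
  have := key m
  have := h (2 ^ m)
  linarith

lemma proj_closed {K : Set ℝ} (hK : IsCompact K) {A : Set (G × ℝ)} (hA : IsClosed A) :
    IsClosed {g : G | ∃ t ∈ K, (g, t) ∈ A} := by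
  have : CompactSpace K := isCompact_iff_compactSpace.1 hK
  have h1 : IsClosed {q : G × K | (q.1, (q.2 : ℝ)) ∈ A} :=
    hA.preimage (continuous_fst.prodMk (continuous_subtype_val.comp continuous_snd))
  have h2 := isClosedMap_fst_of_compactSpace _ h1
  have h3 : Prod.fst '' {q : G × K | (q.1, (q.2 : ℝ)) ∈ A} = {g : G | ∃ t ∈ K, (g, t) ∈ A} := by
    ext g
    constructor
    · rintro ⟨⟨g', t⟩, h, rfl⟩
      exact ⟨t, t.2, h⟩
    · rintro ⟨t, ht, h⟩
      exact ⟨(g, ⟨t, ht⟩), h, rfl⟩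
  rwa [h3] at h2

/-! ### Functions to the circle -/

/-- the properties of the function `F` -/
structure FF (S : AffSys G Γ H n) (i : ℕ) (χ : ℝ → Circle) (F : G → Circle) : Prop where
  cont : Continuous F
  e : ∀ g t, F (g * S.e i t) = χ t * F g
  Γ : ∀ g, ∀ γ ∈ Γ, F (g * γ) = F g
  k : ∀ g, ∀ k ∈ S.Gs (i + 1), F (g * k) = F g
  A : ∀ h g, F (S.u h * S.θ h g) = F g

/-- the elements which multiply `F` by a constant -/
def MM (F : G → Circle) : Subgroup G where
  carrier := {k | ∃ c : Circle, ∀ g, F (k * g) = c * F g}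
  one_mem' := ⟨1, fun g => by simp⟩
  mul_mem' := by
    rintro a b ⟨c, hc⟩ ⟨d, hd⟩
    exact ⟨c * d, fun g => by rw [mul_assoc, hc, hd, mul_assoc]⟩
  inv_mem' := by
    rintro a ⟨c, hc⟩
    refine ⟨c⁻¹, fun g => ?_⟩
    have h := hc (a⁻¹ * g)
    rw [mul_inv_cancel_left] at h
    rw [h, inv_mul_cancel_left]

lemma Q_base (S : AffSys G Γ H n) {i : ℕ} (hi : i < n) {χ : ℝ → Circle} {F : G → Circle}
    (hF : FF S i χ F) {k : G} (hk : k ∈ S.Gs i) : k ∈ MM F := by
  obtain ⟨t, k', hk', rfl⟩ := S.gen i hi k hk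
  refine ⟨χ t, fun g => ?_⟩
  set k := S.e i t * k' with hk0
  have h1 : k⁻¹ * (g⁻¹ * k * g) ∈ S.Gs (i + 1) := by
    have h2 := S.comm i hi g⁻¹ k hk
    rw [inv_inv] at h2
    have h3 := Gs_conj' S (by omega : i + 1 ≤ n) k h2
    have h4 : k⁻¹ * (g⁻¹ * k * g * k⁻¹) * k = k⁻¹ * (g⁻¹ * k * g) := by group
    rwa [h4] at h3
  have h5 : k * g = g * k * (k⁻¹ * (g⁻¹ * k * g)) := by group
  rw [h5, hF.k _ _ h1, hk0, ← mul_assoc, hF.k _ _ hk', hF.e]

/-- the quotient -/
noncomputable def RR (F : G → Circle) (k g : G) : Circle := F (k * g) * (F g)⁻¹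

lemma RR_Gi (S : AffSys G Γ H n) {i : ℕ} (hi : i < n) {χ : ℝ → Circle} {F : G → Circle}
    (hF : FF S i χ F) (k g : G) {k' : G} (hk' : k' ∈ S.Gs i) : RR F k (g * k') = RR F k g := by
  obtain ⟨t, k'', hk'', rfl⟩ := S.gen i hi k' hk'
  unfold RR
  rw [← mul_assoc, ← mul_assoc, hF.k _ _ hk'', ← mul_assoc, hF.k _ _ hk'', hF.e, hF.e,
    mul_inv]
  have : χ t * F (k * g) * ((χ t)⁻¹ * (F g)⁻¹) = (χ t * (χ t)⁻¹) * (F (k * g) * (F g)⁻¹) := by
    rw [mul_mul_mul_comm]
  rw [this, mul_inv_cancel, one_mul]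

lemma RR_Γ (S : AffSys G Γ H n) {i : ℕ} {χ : ℝ → Circle} {F : G → Circle}
    (hF : FF S i χ F) (k g : G) {γ : G} (hγ : γ ∈ Γ) : RR F k (g * γ) = RR F k g := by
  unfold RR
  rw [← mul_assoc, hF.Γ _ _ hγ, hF.Γ _ _ hγ]

lemma RR_A (S : AffSys G Γ H n) {i j : ℕ} (hj : j < n) {χ : ℝ → Circle} {F : G → Circle}
    (hF : FF S i χ F) (hQ : ∀ k ∈ S.Gs (j + 1), k ∈ MM F) {k : G} (hk : k ∈ S.Gs j) (h : H) :
    ∃ l : Circle, ∀ g, RR F k (S.u h * S.θ h g) = l * RR F k g := by
  set κ : G := (S.θ h).symm ((S.u h)⁻¹ * k * S.u h) with hκ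
  have hν : κ * k⁻¹ ∈ S.Gs (j + 1) := by
    have h1 := S.comm j hj (S.u h)⁻¹ k hk
    rw [inv_inv] at h1
    have h2 := Gs_θ' S (by omega : j + 1 ≤ n) h h1
    have h3 := S.θGs' h j hj k hk
    have h4 : κ * k⁻¹ = (S.θ h).symm ((S.u h)⁻¹ * k * S.u h * k⁻¹) *
        ((S.θ h).symm k * k⁻¹) := by
      rw [hκ, ← mul_assoc, ← map_mul]
      congr 2
      group
    rw [h4]
    exact (S.Gs (j + 1)).mul_mem h2 h3
  obtain ⟨c, hc⟩ := hQ _ hν
  refine ⟨c, fun g => ?_⟩
  unfold RR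
  have h5 : k * (S.u h * S.θ h g) = S.u h * S.θ h (κ * g) := by
    rw [map_mul, hκ, MulEquiv.apply_symm_apply]
    group
  have h6 : κ * g = (κ * k⁻¹) * (k * g) := by group
  rw [h5, hF.A, hF.A, h6, hc, mul_assoc]

lemma Q_step [IsTopologicalGroup G] (S : AffSys G Γ H n) {i j : ℕ} (hi : i < n) (hji : j < i)
    (hcl : ∀ Y, PP S i Y → Y = univ) {χ : ℝ → Circle} {F : G → Circle}
    (hF : FF S i χ F) (hQ : ∀ k ∈ S.Gs (j + 1), k ∈ MM F) :
    ∀ k ∈ S.Gs j, k ∈ MM F := by
  have hjn : j < n := by omega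
  obtain ⟨C, hC, hC2⟩ := exists_compact S
  have hcont := hF.cont
  have hRcont : ∀ k, Continuous (RR F k) := by
    intro k
    unfold RR
    exact (hcont.comp (continuous_const_mul k)).mul hcont.inv
  -- uniform smallness
  obtain ⟨ε, hε, hsmall⟩ : ∃ ε : ℝ, 0 < ε ∧ ∀ t : ℝ, |t| < ε → ∀ g,
      ‖((RR F (S.e j t) g : Circle) : ℂ) - 1‖ < 1 / 4 := by
    have hW : IsOpen {q : ℝ × G | ‖((RR F (S.e j q.1) q.2 : Circle) : ℂ) - 1‖ < 1 / 4} := by
      have h1 : Continuous (fun q : ℝ × G => ‖((RR F (S.e j q.1) q.2 : Circle) : ℂ) - 1‖) := by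
        have h2 : Continuous (fun q : ℝ × G => RR F (S.e j q.1) q.2) := by
          unfold RR
          exact (hcont.comp (((S.cont j hjn).comp continuous_fst).mul continuous_snd)).mul
            (hcont.comp continuous_snd).inv
        exact ((continuous_subtype_val.comp h2).sub continuous_const).norm
      exact isOpen_lt h1 continuous_const
    obtain ⟨u, v, hu, _, h0u, hCv, huv⟩ := generalized_tube_lemma (isCompact_singleton (x := (0:ℝ)))
      hC hW (by
        rintro ⟨t, g⟩ ⟨ht, hg⟩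
        have ht : t = 0 := ht
        subst ht
        show ‖((RR F (S.e j 0) g : Circle) : ℂ) - 1‖ < 1 / 4
        unfold RR
        rw [e_zero S hjn, one_mul, mul_inv_cancel]
        simp)
    obtain ⟨ε, hε, hball⟩ := Metric.isOpen_iff.1 hu 0 (h0u rfl)
    refine ⟨ε, hε, fun t ht g => ?_⟩
    obtain ⟨c, hc, γ, hγ, rfl⟩ := hC2 g
    rw [RR_Γ S hF _ _ hγ]
    have h1 : (t, c) ∈ u ×ˢ v := ⟨hball (by simpa [Metric.mem_ball, Real.dist_eq] using ht), hCv hc⟩
    exact huv h1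
  have hsm : ∀ t : ℝ, |t| < ε → S.e j t ∈ MM F := by
    intro t ht
    set k := S.e j t with hk
    have hkj : k ∈ S.Gs j := S.mem j hjn t
    have hinv : ∀ h g, RR F k (S.u h * S.θ h g) = RR F k g := by
      intro h
      obtain ⟨l, hl⟩ := RR_A S hjn hF hQ hkj h
      have hl1 : l = 1 := by
        refine circle_small l (fun m => ?_)
        have hit : ∀ m : ℕ, RR F k ((fun g => S.u h * S.θ h g)^[m] 1) = l ^ m * RR F k 1 := by
          intro m
          induction m with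
          | zero => simp
          | succ m ih =>
            rw [Function.iterate_succ', Function.comp_apply, hl, ih, pow_succ', mul_assoc]
        have h1 := hsmall t ht ((fun g => S.u h * S.θ h g)^[m] 1)
        have h2 := hsmall t ht 1
        rw [← hk, hit m] at h1
        rw [← hk] at h2
        have h3 : ((l ^ m : Circle) : ℂ) - 1 =
            (((l ^ m * RR F k 1 : Circle) : ℂ) - 1 - (((RR F k 1 : Circle) : ℂ) - 1)) *
              (((RR F k 1)⁻¹ : Circle) : ℂ) := by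
          have h4 : ((RR F k 1 : Circle) : ℂ) * (((RR F k 1)⁻¹ : Circle) : ℂ) = 1 := by
            rw [← Circle.coe_mul, mul_inv_cancel, Circle.coe_one]
          rw [Circle.coe_mul]
          linear_combination (1 - ((l ^ m : Circle) : ℂ)) * h4
        rw [h3, norm_mul, Circle.norm_coe, mul_one]
        refine (norm_sub_le _ _).trans ?_
        linarith
      intro g
      rw [hl, hl1, one_mul]
    have hset := hcl {g | RR F k g = RR F k 1} ⟨isClosed_eq (hRcont k) continuous_const, ⟨1, rfl⟩,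
      fun y hy γ hγ => by
        show RR F k (y * γ) = RR F k 1
        rw [RR_Γ S hF _ _ hγ]; exact hy,
      fun h y hy => by
        show RR F k (S.u h * S.θ h y) = RR F k 1
        rw [hinv]; exact hy,
      fun y hy k' hk' => by
        show RR F k (y * k') = RR F k 1
        rw [RR_Gi S hi hF _ _ hk']; exact hy⟩
    refine ⟨RR F k 1, fun g => ?_⟩
    have hg : g ∈ {g | RR F k g = RR F k 1} := by rw [hset]; trivial
    have hg : RR F k g = RR F k 1 := hg
    rw [← hg]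
    unfold RR
    rw [inv_mul_cancel_right]
  intro k hk
  obtain ⟨t, k', hk', rfl⟩ := S.gen j hjn k hk
  refine (MM F).mul_mem ?_ (hQ k' hk')
  obtain ⟨N, hN⟩ := exists_nat_gt (|t| / ε)
  have hN0 : 0 < N := by
    have h1 : (0:ℝ) < N := lt_of_le_of_lt (by positivity) hN
    exact_mod_cast h1
  have hNr : (0:ℝ) < N := by exact_mod_cast hN0
  have h1 : S.e j t = S.e j (t / N) ^ N := by
    rw [← e_nat S hjn]
    congr 1
    field_simp
  rw [h1]
  refine (MM F).pow_mem (hsm _ ?_) N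
  rw [abs_div, abs_of_pos hNr, div_lt_iff₀ hNr]
  rw [div_lt_iff₀ hε] at hN
  linarith

lemma no_F [IsTopologicalGroup G] (S : AffSys G Γ H n) {i : ℕ} (hi : i < n)
    (hcl : ∀ Y, PP S i Y → Y = univ)
    (hchar : ∀ c : G →* Circle, Continuous c → (∀ γ ∈ Γ, c γ = 1) → (∀ h, c (S.u h) = 1) →
      (∀ h g, c (S.θ h g) = c g) → ∀ g, c g = 1) {χ : ℝ → Circle} {F : G → Circle}
    (hF : FF S i χ F) (t : ℝ) : χ t = 1 := by
  have hQ : ∀ d j : ℕ, j + d = i → ∀ k ∈ S.Gs j, k ∈ MM F := by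
    intro d
    induction d with
    | zero =>
      intro j hj k hk
      have : j = i := by omega
      subst this
      exact Q_base S hi hF hk
    | succ d ih =>
      intro j hj
      exact Q_step S hi (by omega) hcl hF (ih (j + 1) (by omega))
  have h0 : ∀ k : G, ∃ c : Circle, ∀ g, F (k * g) = c * F g := fun k =>
    hQ i 0 (by omega) k (by rw [S.zero]; trivial)
  have h1 : ∀ k g, F (k * g) = F k * (F 1)⁻¹ * F g := by
    intro k g
    obtain ⟨c, hc⟩ := h0 k
    have h2 := hc 1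
    rw [mul_one] at h2
    rw [hc g, h2, mul_inv_cancel_right]
  let c : G →* Circle :=
    { toFun := fun k => F k * (F 1)⁻¹
      map_one' := by simp
      map_mul' := fun a b => by
        rw [h1 a b]
        rw [mul_assoc] }
  have hc : ∀ g, c g = F g * (F 1)⁻¹ := fun g => rfl
  have hcF : ∀ g, F g = c g * F 1 := fun g => by rw [hc, inv_mul_cancel_right]
  have hcu : ∀ h g, c (S.u h) * c (S.θ h g) = c g := by
    intro h g
    have h2 := hF.A h g
    rw [hcF, hcF g, map_mul] at h2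
    exact mul_right_cancel h2
  have hcu1 : ∀ h, c (S.u h) = 1 := by
    intro h
    have := hcu h 1
    rwa [map_one, map_one, mul_one] at this
  have hall := hchar c (hF.cont.mul continuous_const) (by
    intro γ hγ
    have h2 := hF.Γ 1 γ hγ
    rw [one_mul] at h2
    rw [hc, h2, mul_inv_cancel]) hcu1 (by
    intro h g
    have := hcu h g
    rwa [hcu1, one_mul] at this)
  have h3 := hall (S.e i t)
  have h4 := hF.e 1 t
  rw [one_mul] at h4
  rwa [hc, h4, mul_inv_cancel_right] at h3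

/-! ### The induction step -/

lemma sh_eq [IsTopologicalGroup G] (S : AffSys G Γ H n) {i : ℕ} (hi : i < n) {Y0 : Set G}
    (hY0 : Minimal (· ∈ {Z | PP S (i + 1) Z}) Y0) {s t : ℝ} {g : G} (hs : g ∈ sh S i s Y0)
    (ht : g ∈ sh S i t Y0) : sh S i s Y0 = sh S i t Y0 := by
  have hP : PP S (i + 1) Y0 := hY0.1
  have hW : PP S (i + 1) (sh S i s Y0 ∩ sh S i t Y0) :=
    inter_PP S (sh_PP S hi s hP) (sh_PP S hi t hP) ⟨g, hs, ht⟩
  have key : ∀ r : ℝ, (sh S i s Y0 ∩ sh S i t Y0) ⊆ sh S i r Y0 →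
      sh S i r Y0 ⊆ (sh S i s Y0 ∩ sh S i t Y0) := by
    intro r hr
    have h1 : sh S i (-r) (sh S i s Y0 ∩ sh S i t Y0) ⊆ Y0 := by
      have := sh_mono S (i := i) (-r) hr
      rwa [sh_add S hi, neg_add_cancel, sh_zero S hi] at this
    have h2 := hY0.2 (sh_PP S hi (-r) hW) h1
    have h3 := sh_mono S (i := i) r h2
    rwa [sh_add S hi, add_neg_cancel, sh_zero S hi] at h3
  exact subset_antisymm ((key s inter_subset_left).trans inter_subset_right)
    ((key t inter_subset_right).trans inter_subset_left)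

lemma step [IsTopologicalGroup G] (S : AffSys G Γ H n) {i : ℕ} (hi : i < n)
    (hcl : ∀ Y, PP S i Y → Y = univ)
    (hchar : ∀ c : G →* Circle, Continuous c → (∀ γ ∈ Γ, c γ = 1) → (∀ h, c (S.u h) = 1) →
      (∀ h g, c (S.θ h g) = c g) → ∀ g, c g = 1) (Y : Set G) (hY : PP S (i + 1) Y) :
    Y = univ := by
  obtain ⟨Y0, hY0Y, hY0⟩ := exists_min S hY
  suffices h : Y0 = univ by
    rw [h] at hY0Y
    exact univ_subset_iff.1 hY0Y
  have hP : PP S (i + 1) Y0 := hY0.1
  obtain ⟨y0, hy0⟩ := hP.ne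
  have hmem0 : y0 ∈ sh S i 0 Y0 := by rw [sh_zero S hi]; exact hy0
  -- the stabiliser
  let P : AddSubgroup ℝ :=
    { carrier := {t | sh S i t Y0 = Y0}
      zero_mem' := sh_zero S hi Y0
      add_mem' := by
        intro s t hs ht
        show sh S i (s + t) Y0 = Y0
        have hs : sh S i s Y0 = Y0 := hs
        have ht : sh S i t Y0 = Y0 := ht
        rw [← sh_add S hi, ht, hs]
      neg_mem' := by
        intro t ht
        show sh S i (-t) Y0 = Y0
        have ht : sh S i t Y0 = Y0 := ht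
        have h1 : sh S i (-t) (sh S i t Y0) = Y0 := by
          rw [sh_add S hi, neg_add_cancel, sh_zero S hi]
        rwa [ht] at h1 }
  have hPmem : ∀ t, t ∈ P ↔ sh S i t Y0 = Y0 := fun t => Iff.rfl
  have hPiff : ∀ t, t ∈ P ↔ y0 * S.e i (-t) ∈ Y0 := by
    intro t
    rw [hPmem]
    constructor
    · intro h
      have : y0 ∈ sh S i t Y0 := by rw [h]; exact hy0
      exact this
    · intro h
      have h1 := sh_eq S hi hY0 (s := t) (t := 0) (g := y0) h hmem0
      rwa [sh_zero S hi] at h1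
  have hPcl : IsClosed (P : Set ℝ) := by
    have h1 : (P : Set ℝ) = (fun t => y0 * S.e i (-t)) ⁻¹' Y0 := by
      ext t
      exact hPiff t
    rw [h1]
    exact hP.closed.preimage (continuous_const.mul ((S.cont i hi).comp continuous_neg))
  have hint : ∀ m : ℤ, (m : ℝ) ∈ P := by
    intro m
    rw [hPiff]
    refine hP.Γinv y0 hy0 _ ?_
    have := e_int S hi (-m)
    push_cast at this
    exact this
  have hfract : ∀ t, sh S i t Y0 = sh S i (Int.fract t) Y0 := by
    intro t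
    have h1 := (hPmem _).1 (hint ⌊t⌋)
    calc sh S i t Y0 = sh S i (Int.fract t + (⌊t⌋ : ℝ)) Y0 := by rw [Int.fract_add_floor]
      _ = sh S i (Int.fract t) (sh S i (⌊t⌋ : ℝ) Y0) := by rw [sh_add S hi]
      _ = _ := by rw [h1]
  -- the union of the translates is everything
  have hU : {g : G | ∃ t ∈ Icc (0:ℝ) 1, g ∈ sh S i t Y0} = univ := by
    have hIcc : ∀ t, Int.fract t ∈ Icc (0:ℝ) 1 := fun t =>
      ⟨Int.fract_nonneg t, (Int.fract_lt_one t).le⟩
    apply hcl
    refine ⟨?_, ⟨y0, 0, ⟨le_rfl, zero_le_one⟩, hmem0⟩, ?_, ?_, ?_⟩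
    · have hA : IsClosed {q : G × ℝ | q.1 * S.e i (-q.2) ∈ Y0} :=
        hP.closed.preimage (continuous_fst.mul ((S.cont i hi).comp (continuous_neg.comp
          continuous_snd)))
      exact proj_closed isCompact_Icc hA
    · rintro g ⟨t, ht, hg⟩ γ hγ
      exact ⟨t, ht, (sh_PP S hi t hP).Γinv g hg γ hγ⟩
    · rintro h g ⟨t, ht, hg⟩
      exact ⟨t, ht, (sh_PP S hi t hP).Ainv h g hg⟩
    · rintro g ⟨t, ht, hg⟩ k hk
      obtain ⟨s, k', hk', rfl⟩ := S.gen i hi k hk
      refine ⟨Int.fract (t + s), hIcc _, ?_⟩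
      rw [← hfract, ← mul_assoc]
      refine (sh_PP S hi (t + s) hP).Ginv _ ?_ _ hk'
      show g * S.e i s * S.e i (-(t + s)) ∈ Y0
      rw [mul_assoc, ← S.add i hi]
      have : s + -(t + s) = -t := by ring
      rw [this]
      exact hg
  have hex : ∀ g : G, ∃ t ∈ Icc (0:ℝ) 1, g ∈ sh S i t Y0 := by
    intro g
    have : g ∈ {g : G | ∃ t ∈ Icc (0:ℝ) 1, g ∈ sh S i t Y0} := by rw [hU]; trivial
    exact this
  rcases P.dense_or_cyclic with hd | ⟨a, ha⟩
  · -- the stabiliser is everything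
    have hPt : (P : Set ℝ) = univ := by
      rw [← hPcl.closure_eq]
      exact hd.closure_eq
    rw [eq_univ_iff_forall]
    intro g
    obtain ⟨t, _, hg⟩ := hex g
    have : t ∈ (P : Set ℝ) := by rw [hPt]; trivial
    rwa [(hPmem t).1 this] at hg
  · exfalso
    have hPa : ∀ t, t ∈ P ↔ ∃ m : ℤ, m • a = t := by
      intro t
      rw [ha, AddSubgroup.mem_closure_singleton]
    have ha0 : a ≠ 0 := by
      rintro rfl
      have h1 : (1:ℝ) ∈ P := by simpa using hint 1
      obtain ⟨m, hm⟩ := (hPa 1).1 h1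
      simp at hm
    set χ : ℝ → Circle := fun t => Circle.exp (2 * Real.pi * t / a) with hχ
    choose τ _ hτ using hex
    set F : G → Circle := fun g => χ (τ g) with hFdef
    have hχadd : ∀ s t, χ (s + t) = χ s * χ t := by
      intro s t
      rw [hχ]
      simp only
      rw [← Circle.exp_add]
      congr 1
      ring
    have hkey : ∀ g t, g ∈ sh S i t Y0 → F g = χ t := by
      intro g t hg
      have h1 := sh_eq S hi hY0 (hτ g) hg
      have h2 : sh S i (-t + τ g) Y0 = Y0 := by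
        rw [← sh_add S hi, h1, sh_add S hi, neg_add_cancel, sh_zero S hi]
      obtain ⟨m, hm⟩ := (hPa _).1 ((hPmem _).2 h2)
      have h3 : τ g = m • a + t := by rw [hm]; ring
      have h4 : χ (m • a) = 1 := by
        rw [hχ]
        simp only
        rw [zsmul_eq_mul]
        have : 2 * Real.pi * (m * a) / a = 2 * Real.pi * m := by field_simp
        rw [this]
        exact Circle.exp_two_pi_mul_int m
      rw [hFdef]
      simp only
      rw [h3, hχadd, h4, one_mul]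
    have hχcont : Continuous χ := by
      rw [hχ]
      exact Circle.exp.continuous.comp (by fun_prop)
    have hFF : FF S i χ F := by
      refine ⟨?_, ?_, ?_, ?_, ?_⟩
      · rw [continuous_iff_isClosed]
        intro K hK
        have hA : IsClosed {q : G × ℝ | χ q.2 ∈ K ∧ q.1 * S.e i (-q.2) ∈ Y0} :=
          (hK.preimage (hχcont.comp continuous_snd)).inter
          (hP.closed.preimage (continuous_fst.mul ((S.cont i hi).comp (continuous_neg.comp
            continuous_snd))))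
        have h1 := proj_closed (isCompact_Icc (a := (0:ℝ)) (b := 1)) hA
        have h2 : F ⁻¹' K = {g : G | ∃ t ∈ Icc (0:ℝ) 1,
            (g, t) ∈ {q : G × ℝ | χ q.2 ∈ K ∧ q.1 * S.e i (-q.2) ∈ Y0}} := by
          ext g
          constructor
          · intro hg
            refine ⟨Int.fract (τ g), ⟨Int.fract_nonneg _, (Int.fract_lt_one _).le⟩, ?_, ?_⟩
            · have h3 : g ∈ sh S i (Int.fract (τ g)) Y0 := by rw [← hfract]; exact hτ g
              show χ (Int.fract (τ g)) ∈ K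
              rw [← hkey g _ h3]
              exact hg
            · have h3 : g ∈ sh S i (Int.fract (τ g)) Y0 := by rw [← hfract]; exact hτ g
              exact h3
          · rintro ⟨t, _, hK1, hY1⟩
            show F g ∈ K
            rw [hkey g t hY1]
            exact hK1
        rw [h2]
        exact h1
      · intro g t
        rw [hkey (g * S.e i t) (t + τ g), hχadd]
        show g * S.e i t * S.e i (-(t + τ g)) ∈ Y0
        rw [mul_assoc, ← S.add i hi]
        have : t + -(t + τ g) = -(τ g) := by ring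
        rw [this]
        exact hτ g
      · intro g γ hγ
        exact hkey _ _ ((sh_PP S hi _ hP).Γinv g (hτ g) γ hγ)
      · intro g k hk
        exact hkey _ _ ((sh_PP S hi _ hP).Ginv g (hτ g) k hk)
      · intro h g
        exact hkey _ _ ((sh_PP S hi _ hP).Ainv h g (hτ g))
    have h1 := no_F S hi hcl hchar hFF (a / 2)
    rw [hχ] at h1
    simp only at h1
    have h2 : 2 * Real.pi * (a / 2) / a = Real.pi := by field_simp
    rw [h2] at h1
    have h3 := congrArg (fun z : Circle => (z : ℂ)) h1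
    simp only [Circle.coe_exp, Complex.exp_pi_mul_I, Circle.coe_one] at h3
    norm_num at h3

/-- **Minimality criterion.** If every continuous character of `G` that is trivial on `Γ` and
invariant under the affine maps is trivial, then `G` has no proper nonempty closed subsets that are
invariant under `Γ` (on the right) and under the affine maps. -/
theorem agh {G : Type*} [Group G] [TopologicalSpace G] [IsTopologicalGroup G] {Γ : Subgroup G}
    {H : Type*} {n : ℕ} (S : AffSys G Γ H n)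
    (hchar : ∀ c : G →* Circle, Continuous c → (∀ γ ∈ Γ, c γ = 1) → (∀ h, c (S.u h) = 1) →
      (∀ h g, c (S.θ h g) = c g) → ∀ g, c g = 1)
    {Y : Set G} (hY : IsClosed Y) (hne : Y.Nonempty) (hΓ : ∀ y ∈ Y, ∀ γ ∈ Γ, y * γ ∈ Y)
    (hH : ∀ h, ∀ y ∈ Y, S.u h * S.θ h y ∈ Y) : Y = Set.univ := by
  have key : ∀ i, i ≤ n → ∀ Y, PP S i Y → Y = univ := by
    intro i
    induction i with
    | zero =>
      intro _ Y hY
      obtain ⟨y, hy⟩ := hY.ne
      rw [eq_univ_iff_forall]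
      intro g
      have h1 := hY.Ginv y hy (y⁻¹ * g) (by rw [S.zero]; trivial)
      rwa [mul_inv_cancel_left] at h1
    | succ i ih =>
      intro hi Y hY
      exact step S (by omega) (ih (by omega)) hchar Y hY
  refine key n le_rfl Y ⟨hY, hne, hΓ, hH, ?_⟩
  intro y hy k hk
  rw [S.last, Subgroup.mem_bot] at hk
  rw [hk, mul_one]
  exact hy

end Pool.Agent.TH416.PN
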