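import Pool.Agent.TH281.DW.Stmts

/-!
# Sublevel set estimate by shifts (job 2109, helper416 for helper281)
-/

set_option autoImplicit false

open MeasureTheory Complex Filter Topology Set
open scoped ENNReal Real

namespace Pool.Agent.TH416.J2109

open Pool.Agent.TH281.DW

noncomputable section

theorem int3 (P Q : Torus → ℝ) (c d : ℝ) (hP : Integrable P tmu) (hQ : Integrable Q tmu) :
    ∫ x, (P x - c * Q x + d) ∂tmu = (∫ x, P x ∂tmu) - c * (∫ x, Q x ∂tmu) + d := by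
  have h1 : Integrable (fun x => P x - c * Q x) tmu := hP.sub (hQ.const_mul c)
  have h2 : Integrable (fun _ : Torus => d) tmu := integrable_const _
  have h3 : Integrable (fun x => c * Q x) tmu := hQ.const_mul c
  rw [integral_add h1 h2, integral_sub hP h3, integral_const_mul, integral_const, probReal_univ,
    one_smul]

/-- recurrence -/
theorem recur (F : Set Torus) (hF : MeasurableSet F) (y : Torus) (J : ℕ)
    (hpos : 0 < tmu.real F) (hJ : 2 ≤ (J : ℝ) * tmu.real F) :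
    ∃ l : ℕ, 1 ≤ l ∧ l < J ∧
      (tmu.real F) ^ 2 / 2 ≤ tmu.real (F ∩ {x | x + l • y ∈ F}) := by
  by_contra hcon
  push Not at hcon
  let A : ℕ → Set Torus := fun j => {x | x + j • y ∈ F}
  have hAm : ∀ j, MeasurableSet (A j) := fun j => measurable_add_const (j • y) hF
  have hA : ∀ j, tmu.real (A j) = tmu.real F := by
    intro j
    have h := measure_preimage_add_right tmu (j • y) F
    unfold Measure.real
    rw [← h]
    rfl
  have hAlt : ∀ j j', j < j' → j' < J → tmu.real (A j ∩ A j') ≤ (tmu.real F) ^ 2 / 2 := by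
    intro j j' hjj hj'
    have h := measure_preimage_add_right tmu (j • y) (F ∩ A (j' - j))
    have h2 : (fun x => x + j • y) ⁻¹' (F ∩ A (j' - j)) = A j ∩ A j' := by
      ext x
      simp only [A, mem_preimage, mem_inter_iff, mem_ofPred_eq]
      rw [add_assoc, ← add_nsmul, show j + (j' - j) = j' by omega]
    rw [h2] at h
    have h3 := hcon (j' - j) (by omega) (by omega)
    have h4 : tmu.real (A j ∩ A j') = tmu.real (F ∩ {x | x + (j' - j) • y ∈ F}) := by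
      unfold Measure.real
      rw [h]
    rw [h4]
    exact h3.le
  have hAA : ∀ j ∈ Finset.range J, ∀ j' ∈ Finset.range J, tmu.real (A j ∩ A j') ≤
      (tmu.real F) ^ 2 / 2 + (if j = j' then tmu.real F - (tmu.real F) ^ 2 / 2 else 0) := by
    intro j hj j' hj'
    rw [Finset.mem_range] at hj hj'
    rcases lt_trichotomy j j' with h | h | h
    · rw [if_neg h.ne, add_zero]
      exact hAlt j j' h hj'
    · subst h
      rw [if_pos rfl, inter_self, hA]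
      linarith
    · rw [if_neg h.ne', add_zero, inter_comm]
      exact hAlt j' j h hj
  let f : ℕ → Torus → ℝ := fun j => (A j).indicator 1
  have hfi : ∀ j, Integrable (f j) tmu := fun j =>
    (integrable_const (1 : ℝ)).indicator (hAm j)
  have hff : ∀ j j' x, f j x * f j' x = (A j ∩ A j').indicator (1 : Torus → ℝ) x := by
    intro j j' x
    rw [Set.inter_indicator_one]
    rfl
  have hffi : ∀ j j', Integrable (fun x => f j x * f j' x) tmu := by
    intro j j'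
    simp only [hff]
    exact (integrable_const (1 : ℝ)).indicator ((hAm j).inter (hAm j'))
  have hint : ∀ j, ∫ x, f j x ∂tmu = tmu.real F := by
    intro j
    rw [← hA j]
    exact integral_indicator_one (hAm j)
  have hint2 : ∀ j j', ∫ x, f j x * f j' x ∂tmu = tmu.real (A j ∩ A j') := by
    intro j j'
    simp only [hff]
    exact integral_indicator_one ((hAm j).inter (hAm j'))
  have h0 : 0 ≤ ∫ x, (∑ j ∈ Finset.range J, f j x - J * tmu.real F) ^ 2 ∂tmu :=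
    integral_nonneg fun x => sq_nonneg _
  have hexp : ∀ x, (∑ j ∈ Finset.range J, f j x - J * tmu.real F) ^ 2 =
      (∑ j ∈ Finset.range J, ∑ j' ∈ Finset.range J, f j x * f j' x) -
        (2 * (J * tmu.real F)) * (∑ j ∈ Finset.range J, f j x) + (J * tmu.real F) ^ 2 := by
    intro x
    rw [← Finset.sum_mul_sum]
    ring
  simp only [hexp] at h0
  have i1 : Integrable (fun x => ∑ j ∈ Finset.range J, ∑ j' ∈ Finset.range J, f j x * f j' x)
      tmu := integrable_finsetSum _ fun j _ => integrable_finsetSum _ fun j' _ => hffi j j'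
  have i2 : Integrable (fun x => ∑ j ∈ Finset.range J, f j x) tmu :=
    integrable_finsetSum _ fun j _ => hfi j
  rw [int3 _ _ _ _ i1 i2, integral_finsetSum _ fun j _ => hfi j,
    integral_finsetSum _ fun j _ => integrable_finsetSum _ fun j' _ => hffi j j'] at h0
  have h1 : ∑ j ∈ Finset.range J, ∫ x, ∑ j' ∈ Finset.range J, f j x * f j' x ∂tmu ≤
      ∑ j ∈ Finset.range J, ∑ j' ∈ Finset.range J, ((tmu.real F) ^ 2 / 2 +
        (if j = j' then tmu.real F - (tmu.real F) ^ 2 / 2 else 0)) := by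
    refine Finset.sum_le_sum fun j hj => ?_
    rw [integral_finsetSum _ fun j' _ => hffi j j']
    refine Finset.sum_le_sum fun j' hj' => ?_
    rw [hint2]
    exact hAA j hj j' hj'
  have h2 : ∑ j ∈ Finset.range J, ∑ j' ∈ Finset.range J, ((tmu.real F) ^ 2 / 2 +
        (if j = j' then tmu.real F - (tmu.real F) ^ 2 / 2 else 0)) =
      J * (J * ((tmu.real F) ^ 2 / 2) + (tmu.real F - (tmu.real F) ^ 2 / 2)) := by
    have : ∀ j ∈ Finset.range J, ∑ j' ∈ Finset.range J, ((tmu.real F) ^ 2 / 2 +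
        (if j = j' then tmu.real F - (tmu.real F) ^ 2 / 2 else 0)) =
        J * ((tmu.real F) ^ 2 / 2) + (tmu.real F - (tmu.real F) ^ 2 / 2) := by
      intro j hj
      rw [Finset.sum_add_distrib, Finset.sum_ite_eq, if_pos hj, Finset.sum_const,
        Finset.card_range, nsmul_eq_mul]
    rw [Finset.sum_congr rfl this, Finset.sum_const, Finset.card_range, nsmul_eq_mul]
  simp only [hint, Finset.sum_const, Finset.card_range, nsmul_eq_mul] at h0
  rw [h2] at h1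
  have hJ0 : (0 : ℝ) < J := by
    by_contra hc
    have : (J : ℝ) ≤ 0 := not_lt.1 hc
    nlinarith
  have h3 : (J * tmu.real F) ^ 2 ≤
      J * (J * ((tmu.real F) ^ 2 / 2) + (tmu.real F - (tmu.real F) ^ 2 / 2)) := by
    nlinarith
  have h4 : 0 < J * tmu.real F := by positivity
  have h5 : (J * tmu.real F) * (J * tmu.real F) ≤ (J * tmu.real F) *
      (J * tmu.real F / 2 + 1 - tmu.real F / 2) := by nlinarith
  have h6 := le_of_mul_le_mul_left h5 h4
  linarith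

/-- the modulation factor -/
def ee (k h : Fin 2 → ℝ) : ℂ := cexp (2 * π * I * (k 0 * h 0 + k 1 * h 1 : ℝ))

theorem norm_ee (k h : Fin 2 → ℝ) : ‖ee k h‖ = 1 := by
  unfold ee
  rw [show (2 * π * I * ((k 0 * h 0 + k 1 * h 1 : ℝ) : ℂ)) =
    ((2 * π * (k 0 * h 0 + k 1 * h 1) : ℝ) : ℂ) * I by push_cast; ring]
  exact Complex.norm_exp_ofReal_mul_I _

theorem ee_sub (k k' h : Fin 2 → ℝ) : ‖ee k h - ee k' h‖ =
    2 * |Real.sin (π * ((k 0 - k' 0) * h 0 + (k 1 - k' 1) * h 1))| := by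
  have h1 : ee k h - ee k' h = ee k' h *
      (cexp (I * ((2 * π * ((k 0 - k' 0) * h 0 + (k 1 - k' 1) * h 1) : ℝ) : ℂ)) - 1) := by
    unfold ee
    rw [mul_sub, mul_one, ← Complex.exp_add]
    congr 2
    push_cast; ring
  rw [h1, norm_mul, norm_ee, one_mul, Complex.norm_exp_I_mul_ofReal_sub_one, Real.norm_eq_abs,
    abs_mul, abs_two]
  congr 3
  ring

/-- the hypotheses on the functions -/
structure Dat (ι : Type) (s : Finset ι) (V : ι → Torus → ℂ) (κ : ι → Fin 2 → ℝ) (A B : ℝ) :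
    Prop where
  cont : ∀ i ∈ s, Continuous (V i)
  hA : 0 ≤ A
  hB : 0 < B
  mod : ∀ i ∈ s, ∀ h : Fin 2 → ℝ, ∫ x, ‖V i (x + toT h) - ee (κ i) h * V i x‖ ^ 2 ∂tmu ≤
    A ^ 2 * (h 0 ^ 2 + h 1 ^ 2)
  sep : ∀ i ∈ s, ∀ j ∈ s, i ≠ j → B ^ 2 ≤ (κ i 0 - κ j 0) ^ 2 + (κ i 1 - κ j 1) ^ 2

theorem toT_nsmul (l : ℕ) (h : Fin 2 → ℝ) : l • toT h = toT (fun i => l * h i) := by
  funext i
  show l • ((h i : ℝ) : UnitAddCircle) = ((l * h i : ℝ) : UnitAddCircle)
  rw [← AddCircle.coe_nsmul, nsmul_eq_mul]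

/-- integrals over the shifted set -/
theorem int_shift (W : Torus → ℂ) (hW : Continuous W) (F : Set Torus) (hF : MeasurableSet F)
    (y : Torus) :
    ∫ x in F ∩ {x | x + y ∈ F}, ‖W (x + y)‖ ^ 2 ∂tmu ≤ ∫ x in F, ‖W x‖ ^ 2 ∂tmu := by
  have hm : MeasurableSet {x | x + y ∈ F} := measurable_add_const y hF
  have hi : Integrable (fun x => ‖W (x + y)‖ ^ 2) tmu :=
    int_cont ((hW.comp (continuous_add_const y)).norm.pow 2)
  calc ∫ x in F ∩ {x | x + y ∈ F}, ‖W (x + y)‖ ^ 2 ∂tmu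
      ≤ ∫ x in {x | x + y ∈ F}, ‖W (x + y)‖ ^ 2 ∂tmu :=
        setIntegral_mono_set hi.integrableOn (Eventually.of_forall fun x => by positivity)
          (Eventually.of_forall fun x hx => hx.2)
    _ = ∫ x, (F.indicator fun x => ‖W x‖ ^ 2) (x + y) ∂tmu := by
        rw [← integral_indicator hm]
        rfl
    _ = ∫ x, (F.indicator fun x => ‖W x‖ ^ 2) x ∂tmu :=
        integral_add_right_eq_self (μ := tmu) (F.indicator fun x => ‖W x‖ ^ 2) y
    _ = ∫ x in F, ‖W x‖ ^ 2 ∂tmu := integral_indicator hF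

theorem arith4 {z p q R S : ℝ} (h : (2 * z) ^ 2 ≤ (p + q + R) ^ 2) (h2 : R ^ 2 ≤ S) :
    z ^ 2 ≤ p ^ 2 + q ^ 2 + S := by
  have h3 : (p + q + R) ^ 2 ≤ 3 * (p ^ 2 + q ^ 2 + R ^ 2) := by
    nlinarith [sq_nonneg (p - q), sq_nonneg (p - R), sq_nonneg (q - R)]
  nlinarith [sq_nonneg p, sq_nonneg q, sq_nonneg R]

/-- elimination of one frequency -/
theorem elim {ι : Type} [DecidableEq ι] {s : Finset ι} {V : ι → Torus → ℂ}
    {κ : ι → Fin 2 → ℝ} {A B : ℝ}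
    (D : Dat ι s V κ A B) (a : ι → ℂ) (ha : ∀ i ∈ s, ‖a i‖ ≤ 1) {i j0 : ι} (hi : i ∈ s)
    (hj : j0 ∈ s) (hij : i ≠ j0) (F : Set Torus) (hF : MeasurableSet F) (hpos : 0 < tmu.real F) :
    ∃ F1 ⊆ F, MeasurableSet F1 ∧ (tmu.real F) ^ 2 / 2 ≤ tmu.real F1 ∧ ∃ a' : ι → ℂ,
      (∀ i ∈ s, ‖a' i‖ ≤ 1) ∧ ‖a i‖ * (tmu.real F / 3) ≤ ‖a' i‖ ∧
      ∫ x in F1, ‖∑ j ∈ s.erase j0, a' j * V j x‖ ^ 2 ∂tmu ≤
        ((s.card : ℝ) ^ 2 + 2) * ((∫ x in F, ‖∑ j ∈ s, a j * V j x‖ ^ 2 ∂tmu) + (A / B) ^ 2) := by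
  have hle1 : tmu.real F ≤ 1 := measureReal_le_one
  set ε := tmu.real F with hε
  set J := ⌈2 / ε⌉₊ with hJ
  have hJ1 : 2 / ε ≤ J := Nat.le_ceil _
  have hJ2 : (J : ℝ) < 2 / ε + 1 := Nat.ceil_lt_add_one (by positivity)
  have hJ3 : 2 ≤ (J : ℝ) * ε := by rwa [div_le_iff₀ hpos] at hJ1
  have hJ4 : (J : ℝ) * ε ≤ 3 := by
    have : (J : ℝ) * ε ≤ (2 / ε + 1) * ε := mul_le_mul_of_nonneg_right hJ2.le hpos.le
    have e : (2 / ε + 1) * ε = 2 + ε := by field_simp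
    linarith
  have hJ0 : (0 : ℝ) < J := by
    by_contra hc
    have : (J : ℝ) ≤ 0 := not_lt.1 hc
    nlinarith
  -- the vectors
  set ξ0 := κ i 0 - κ j0 0 with hξ0
  set ξ1 := κ i 1 - κ j0 1 with hξ1
  have hξ : B ^ 2 ≤ ξ0 ^ 2 + ξ1 ^ 2 := D.sep i hi j0 hj hij
  have hB := D.hB
  have hB2 : 0 < B ^ 2 := by positivity
  have hξp : 0 < ξ0 ^ 2 + ξ1 ^ 2 := lt_of_lt_of_le hB2 hξ
  set h : Fin 2 → ℝ := fun k => (if k = 0 then ξ0 else ξ1) / (2 * J * (ξ0 ^ 2 + ξ1 ^ 2)) with hh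
  obtain ⟨l, hl1, hl2, hl3⟩ := recur F hF (toT h) J hpos hJ3
  rw [toT_nsmul] at hl3
  set y : Fin 2 → ℝ := fun k => l * h k with hy
  have hl1' : (1 : ℝ) ≤ l := by exact_mod_cast hl1
  have hl2' : (l : ℝ) ≤ J := by exact_mod_cast hl2.le
  have hy0 : y 0 = l * (ξ0 / (2 * J * (ξ0 ^ 2 + ξ1 ^ 2))) := by simp [hy, hh]
  have hy1 : y 1 = l * (ξ1 / (2 * J * (ξ0 ^ 2 + ξ1 ^ 2))) := by simp [hy, hh]
  have hξy : ξ0 * y 0 + ξ1 * y 1 = l / (2 * J) := by
    rw [hy0, hy1]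
    field_simp
  have hyn : (y 0) ^ 2 + (y 1) ^ 2 ≤ 1 / (4 * B ^ 2) := by
    have e : (y 0) ^ 2 + (y 1) ^ 2 = (l / J) ^ 2 * (1 / (4 * (ξ0 ^ 2 + ξ1 ^ 2))) := by
      rw [hy0, hy1]
      field_simp
      ring
    rw [e]
    have e1 : ((l : ℝ) / J) ^ 2 ≤ 1 := by
      have : (l : ℝ) / J ≤ 1 := by rw [div_le_one hJ0]; exact hl2'
      have h0 : 0 ≤ (l : ℝ) / J := by positivity
      nlinarith
    have e2 : 1 / (4 * (ξ0 ^ 2 + ξ1 ^ 2)) ≤ 1 / (4 * B ^ 2) :=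
      one_div_le_one_div_of_le (by positivity) (by linarith)
    calc (l / J : ℝ) ^ 2 * (1 / (4 * (ξ0 ^ 2 + ξ1 ^ 2))) ≤ 1 * (1 / (4 * B ^ 2)) := by
          gcongr
      _ = 1 / (4 * B ^ 2) := one_mul _
  set F1 := F ∩ {x | x + toT y ∈ F} with hF1
  have hF1m : MeasurableSet F1 := hF.inter (measurable_add_const _ hF)
  refine ⟨F1, inter_subset_left, hF1m, hl3, fun j => a j * ((ee (κ j) y - ee (κ j0) y) / 2),
    ?_, ?_, ?_⟩
  · intro j hjs
    rw [norm_mul, norm_div, Complex.norm_two]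
    have h1 := norm_sub_le (ee (κ j) y) (ee (κ j0) y)
    rw [norm_ee, norm_ee] at h1
    have h2 := ha j hjs
    have h3 := norm_nonneg (ee (κ j) y - ee (κ j0) y)
    have h4 := norm_nonneg (a j)
    nlinarith
  · rw [norm_mul, norm_div, Complex.norm_two, ee_sub]
    refine mul_le_mul_of_nonneg_left ?_ (norm_nonneg _)
    rw [← hξ0, ← hξ1, hξy]
    have h1 : (0 : ℝ) ≤ π * (l / (2 * J)) := by positivity
    have h2 : π * ((l : ℝ) / (2 * J)) ≤ π / 2 := by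
      have : (l : ℝ) / (2 * J) ≤ 1 / 2 := by
        rw [div_le_div_iff₀ (by positivity) (by norm_num)]
        linarith
      have := mul_le_mul_of_nonneg_left this Real.pi_pos.le
      linarith
    have h3 := Real.mul_le_sin h1 h2
    have h4 : 2 / π * (π * ((l : ℝ) / (2 * J))) = l / J := by
      field_simp
    rw [h4] at h3
    have h5 : ε / 3 ≤ (l : ℝ) / J := by
      rw [div_le_div_iff₀ (by norm_num) hJ0]
      nlinarith
    have h6 : 0 ≤ Real.sin (π * ((l : ℝ) / (2 * J))) := by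
      have : (0 : ℝ) ≤ (l : ℝ) / J := by positivity
      linarith
    rw [abs_of_nonneg h6]
    linarith
  · -- the main estimate
    set W : Torus → ℂ := fun x => ∑ j ∈ s, a j * V j x with hW
    have hWc : Continuous W := continuous_finsetSum _ fun j hj => continuous_const.mul (D.cont j hj)
    set r : ι → Torus → ℂ := fun j x => V j (x + toT y) - ee (κ j) y * V j x with hr
    have hrc : ∀ j ∈ s, Continuous (r j) := fun j hj =>
      ((D.cont j hj).comp (continuous_add_const _)).sub (continuous_const.mul (D.cont j hj))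
    set Z : Torus → ℂ := fun x => ∑ j ∈ s.erase j0,
      (a j * ((ee (κ j) y - ee (κ j0) y) / 2)) * V j x with hZ
    have hZc : Continuous Z := continuous_finsetSum _ fun j hj =>
      continuous_const.mul (D.cont j (Finset.mem_of_mem_erase hj))
    have hid : ∀ x, W (x + toT y) - ee (κ j0) y * W x = 2 * Z x + ∑ j ∈ s, a j * r j x := by
      intro x
      have hZ' : Z x = ∑ j ∈ s, (a j * ((ee (κ j) y - ee (κ j0) y) / 2)) * V j x := by
        rw [hZ]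
        refine Finset.sum_erase _ ?_
        simp
      rw [hZ', hW, Finset.mul_sum, Finset.mul_sum, ← Finset.sum_sub_distrib,
        ← Finset.sum_add_distrib]
      refine Finset.sum_congr rfl fun j _ => ?_
      simp only [hr]
      ring
    have hpt : ∀ x, ‖Z x‖ ^ 2 ≤ ‖W (x + toT y)‖ ^ 2 + ‖W x‖ ^ 2 +
        (s.card : ℝ) * ∑ j ∈ s, ‖r j x‖ ^ 2 := by
      intro x
      have e1 : 2 * ‖Z x‖ ≤ ‖W (x + toT y)‖ + ‖W x‖ + ∑ j ∈ s, ‖r j x‖ := by
        have e2 : 2 * Z x = W (x + toT y) - ee (κ j0) y * W x - ∑ j ∈ s, a j * r j x := by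
          rw [hid]; ring
        have e3 : 2 * ‖Z x‖ = ‖2 * Z x‖ := by rw [norm_mul, Complex.norm_two]
        rw [e3, e2]
        refine (norm_sub_le _ _).trans (add_le_add ((norm_sub_le _ _).trans ?_) ?_)
        · rw [norm_mul, norm_ee, one_mul]
        · refine (norm_sum_le _ _).trans (Finset.sum_le_sum fun j hj => ?_)
          rw [norm_mul]
          have := ha j hj
          have h0 := norm_nonneg (r j x)
          nlinarith
      have e4 : (∑ j ∈ s, ‖r j x‖) ^ 2 ≤ (s.card : ℝ) * ∑ j ∈ s, ‖r j x‖ ^ 2 :=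
        sq_sum_le_card_mul_sum_sq
      have e5 := norm_nonneg (Z x)
      have e6 := norm_nonneg (W (x + toT y))
      have e7 := norm_nonneg (W x)
      have e8 : 0 ≤ ∑ j ∈ s, ‖r j x‖ := Finset.sum_nonneg fun j _ => norm_nonneg _
      have e9 : (2 * ‖Z x‖) ^ 2 ≤ (‖W (x + toT y)‖ + ‖W x‖ + ∑ j ∈ s, ‖r j x‖) ^ 2 :=
        pow_le_pow_left₀ (by positivity) e1 2
      exact arith4 e9 e4
    have i1 : Integrable (fun x => ‖W (x + toT y)‖ ^ 2) tmu :=
      int_cont ((hWc.comp (continuous_add_const _)).norm.pow 2)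
    have i2 : Integrable (fun x => ‖W x‖ ^ 2) tmu := int_cont (hWc.norm.pow 2)
    have i3 : ∀ j ∈ s, Integrable (fun x => ‖r j x‖ ^ 2) tmu := fun j hj =>
      int_cont ((hrc j hj).norm.pow 2)
    have i4 : Integrable (fun x => (s.card : ℝ) * ∑ j ∈ s, ‖r j x‖ ^ 2) tmu :=
      (integrable_finsetSum _ i3).const_mul _
    have i5 : Integrable (fun x => ‖Z x‖ ^ 2) tmu := int_cont (hZc.norm.pow 2)
    have i6 : Integrable (fun x => ‖W (x + toT y)‖ ^ 2 + ‖W x‖ ^ 2) tmu := i1.add i2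
    have hmono : ∫ x in F1, ‖Z x‖ ^ 2 ∂tmu ≤ ∫ x in F1, (‖W (x + toT y)‖ ^ 2 + ‖W x‖ ^ 2 +
        (s.card : ℝ) * ∑ j ∈ s, ‖r j x‖ ^ 2) ∂tmu :=
      setIntegral_mono i5.integrableOn (i6.add i4).integrableOn hpt
    have hsplit : ∫ x in F1, (‖W (x + toT y)‖ ^ 2 + ‖W x‖ ^ 2 +
        (s.card : ℝ) * ∑ j ∈ s, ‖r j x‖ ^ 2) ∂tmu =
        (∫ x in F1, ‖W (x + toT y)‖ ^ 2 ∂tmu) + (∫ x in F1, ‖W x‖ ^ 2 ∂tmu) +
          (s.card : ℝ) * ∑ j ∈ s, ∫ x in F1, ‖r j x‖ ^ 2 ∂tmu := by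
      rw [integral_add i6.integrableOn i4.integrableOn, integral_add i1.integrableOn i2.integrableOn,
        integral_const_mul, integral_finsetSum _ fun j hj => (i3 j hj).integrableOn]
    have b1 : ∫ x in F1, ‖W (x + toT y)‖ ^ 2 ∂tmu ≤ ∫ x in F, ‖W x‖ ^ 2 ∂tmu :=
      int_shift W hWc F hF (toT y)
    have b2 : ∫ x in F1, ‖W x‖ ^ 2 ∂tmu ≤ ∫ x in F, ‖W x‖ ^ 2 ∂tmu := by
      have hsub : F1 ⊆ F := inter_subset_left
      have hnn : 0 ≤ᵐ[tmu.restrict F] fun x => ‖W x‖ ^ 2 :=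
        Eventually.of_forall fun x => sq_nonneg _
      exact setIntegral_mono_set i2.integrableOn hnn hsub.eventuallyLE
    have b3 : ∀ j ∈ s, ∫ x in F1, ‖r j x‖ ^ 2 ∂tmu ≤ (A / B) ^ 2 := by
      intro j hj
      have hnn : 0 ≤ᵐ[tmu] fun x => ‖r j x‖ ^ 2 := Eventually.of_forall fun x => sq_nonneg _
      have c1 : ∫ x in F1, ‖r j x‖ ^ 2 ∂tmu ≤ ∫ x, ‖r j x‖ ^ 2 ∂tmu :=
        setIntegral_le_integral (i3 j hj) hnn
      have c2 : ∫ x, ‖r j x‖ ^ 2 ∂tmu ≤ A ^ 2 * (y 0 ^ 2 + y 1 ^ 2) := D.mod j hj y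
      have c3 : A ^ 2 * (y 0 ^ 2 + y 1 ^ 2) ≤ A ^ 2 * (1 / (4 * B ^ 2)) :=
        mul_le_mul_of_nonneg_left hyn (sq_nonneg _)
      have c4 : A ^ 2 * (1 / (4 * B ^ 2)) = (A / B) ^ 2 / 4 := by
        field_simp
      have c5 : 0 ≤ (A / B) ^ 2 := sq_nonneg _
      linarith
    have b4 : ∑ j ∈ s, ∫ x in F1, ‖r j x‖ ^ 2 ∂tmu ≤ (s.card : ℝ) * (A / B) ^ 2 := by
      have := Finset.sum_le_sum b3
      rwa [Finset.sum_const, nsmul_eq_mul] at this
    have b5 : (s.card : ℝ) * ∑ j ∈ s, ∫ x in F1, ‖r j x‖ ^ 2 ∂tmu ≤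
        (s.card : ℝ) * ((s.card : ℝ) * (A / B) ^ 2) :=
      mul_le_mul_of_nonneg_left b4 (Nat.cast_nonneg _)
    have b6 : 0 ≤ ∫ x in F, ‖W x‖ ^ 2 ∂tmu := integral_nonneg fun x => by positivity
    have b7 : 0 ≤ (A / B) ^ 2 := sq_nonneg _
    have b8 : 0 ≤ (s.card : ℝ) ^ 2 := sq_nonneg _
    rw [hsplit] at hmono
    nlinarith [mul_nonneg b8 b6]

theorem ind (n : ℕ) : ∃ C : ℝ, 1 ≤ C ∧ ∃ N : ℕ, 1 ≤ N ∧ ∀ (ι : Type) (s : Finset ι)
    (V : ι → Torus → ℂ) (κ : ι → Fin 2 → ℝ) (A B : ℝ), Dat ι s V κ A B → s.card = n + 1 →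
    ∀ a : ι → ℂ, (∀ i ∈ s, ‖a i‖ ≤ 1) → ∀ i ∈ s, ∀ F : Set Torus, MeasurableSet F →
    0 < tmu.real F → ∃ F' ⊆ F, MeasurableSet F' ∧ (tmu.real F) ^ N ≤ C * tmu.real F' ∧
      ‖a i‖ ^ 2 * (tmu.real F) ^ N * ∫ x in F', ‖V i x‖ ^ 2 ∂tmu ≤
        C * ((∫ x in F, ‖∑ j ∈ s, a j * V j x‖ ^ 2 ∂tmu) + (A / B) ^ 2) := by
  classical
  induction n with
  | zero =>
    refine ⟨1, le_rfl, 1, le_rfl, ?_⟩
    intro ι s V κ A B D hs a ha i hi F hF hpos
    have hle1 : tmu.real F ≤ 1 := measureReal_le_one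
    obtain ⟨i', rfl⟩ := Finset.card_eq_one.1 hs
    rw [Finset.mem_singleton] at hi
    subst hi
    refine ⟨F, subset_rfl, hF, by rw [pow_one, one_mul], ?_⟩
    have h1 : ∫ x in F, ‖∑ j ∈ {i}, a j * V j x‖ ^ 2 ∂tmu =
        ‖a i‖ ^ 2 * ∫ x in F, ‖V i x‖ ^ 2 ∂tmu := by
      rw [← integral_const_mul]
      refine integral_congr_ae (Eventually.of_forall fun x => ?_)
      simp only [Finset.sum_singleton, norm_mul, mul_pow]
    rw [h1, pow_one, one_mul]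
    have h2 : 0 ≤ ∫ x in F, ‖V i x‖ ^ 2 ∂tmu := integral_nonneg fun x => sq_nonneg _
    have h3 : 0 ≤ ‖a i‖ ^ 2 * ∫ x in F, ‖V i x‖ ^ 2 ∂tmu := mul_nonneg (sq_nonneg _) h2
    have h4 : ‖a i‖ ^ 2 * tmu.real F * ∫ x in F, ‖V i x‖ ^ 2 ∂tmu =
        tmu.real F * (‖a i‖ ^ 2 * ∫ x in F, ‖V i x‖ ^ 2 ∂tmu) := by ring
    rw [h4]
    have h5 := mul_le_mul_of_nonneg_right hle1 h3
    have h6 := sq_nonneg (A / B)
    linarith
  | succ n ih =>
    obtain ⟨C, hC, N, hN, hind⟩ := ih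
    refine ⟨9 * 2 ^ N * (C * ((((n + 2 : ℕ) : ℝ) ^ 2 + 2) + 1)), ?_, 2 * N + 2, by omega, ?_⟩
    · have h1 : (1 : ℝ) ≤ 2 ^ N := one_le_pow₀ (by norm_num)
      have h2 : (1 : ℝ) ≤ (((n + 2 : ℕ) : ℝ) ^ 2 + 2) + 1 := by
        have := sq_nonneg ((n + 2 : ℕ) : ℝ)
        linarith
      have h3 : 1 ≤ C * ((((n + 2 : ℕ) : ℝ) ^ 2 + 2) + 1) := one_le_mul_of_one_le_of_one_le hC h2
      have h4 : (1 : ℝ) ≤ 9 * 2 ^ N := by linarith
      exact one_le_mul_of_one_le_of_one_le h4 h3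
    intro ι s V κ A B D hs a ha i hi F hF hpos
    have hle1 : tmu.real F ≤ 1 := measureReal_le_one
    obtain ⟨j0, hj, hji⟩ := Finset.exists_mem_ne (s := s) (by omega) i
    obtain ⟨F1, hF1, hF1m, hF1e, a', ha', hai, hint⟩ := elim D a ha hi hj (Ne.symm hji) F hF hpos
    have hD' : Dat ι (s.erase j0) V κ A B :=
      ⟨fun k hk => D.cont k (Finset.mem_of_mem_erase hk), D.hA, D.hB,
        fun k hk => D.mod k (Finset.mem_of_mem_erase hk),
        fun k hk k' hk' => D.sep k (Finset.mem_of_mem_erase hk) k' (Finset.mem_of_mem_erase hk')⟩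
    have hcard : (s.erase j0).card = n + 1 := by
      rw [Finset.card_erase_of_mem hj, hs]
      omega
    have hF1pos : 0 < tmu.real F1 := lt_of_lt_of_le (by positivity) hF1e
    obtain ⟨F', hF'1, hF'm, hF'2, hF'3⟩ := hind ι (s.erase j0) V κ A B hD' hcard a'
      (fun k hk => ha' k (Finset.mem_of_mem_erase hk)) i
      (Finset.mem_erase.2 ⟨Ne.symm hji, hi⟩) F1 hF1m hF1pos
    refine ⟨F', hF'1.trans hF1, hF'm, ?_, ?_⟩
    · -- the measure
      have e1 : ((tmu.real F) ^ 2 / 2) ^ N ≤ (tmu.real F1) ^ N :=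
        pow_le_pow_left₀ (by positivity) hF1e N
      have e2 : (tmu.real F) ^ (2 * N + 2) ≤ (tmu.real F) ^ (2 * N) :=
        pow_le_pow_of_le_one hpos.le hle1 (by omega)
      have e3 : (tmu.real F) ^ (2 * N) = 2 ^ N * ((tmu.real F) ^ 2 / 2) ^ N := by
        rw [div_pow, pow_mul]
        field_simp
      have e4 : (tmu.real F) ^ (2 * N) ≤ 2 ^ N * (C * tmu.real F') := by
        rw [e3]
        exact mul_le_mul_of_nonneg_left (e1.trans hF'2) (by positivity)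
      have e5 : 2 ^ N * (C * tmu.real F') ≤
          9 * 2 ^ N * (C * ((((n + 2 : ℕ) : ℝ) ^ 2 + 2) + 1)) * tmu.real F' := by
        have h1 : 0 ≤ 2 ^ N * (C * tmu.real F') := by positivity
        have h2 : (1 : ℝ) ≤ 9 * ((((n + 2 : ℕ) : ℝ) ^ 2 + 2) + 1) := by
          have := sq_nonneg ((n + 2 : ℕ) : ℝ)
          linarith
        have h3 := mul_le_mul_of_nonneg_left h2 h1
        calc 2 ^ N * (C * tmu.real F') = 2 ^ N * (C * tmu.real F') * 1 := by ring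
          _ ≤ 2 ^ N * (C * tmu.real F') * (9 * ((((n + 2 : ℕ) : ℝ) ^ 2 + 2) + 1)) := h3
          _ = _ := by ring
      exact e2.trans (e4.trans e5)
    · set Q := (∫ x in F, ‖∑ j ∈ s, a j * V j x‖ ^ 2 ∂tmu) + (A / B) ^ 2 with hQ
      have hQ0 : (A / B) ^ 2 ≤ Q := by
        have : 0 ≤ ∫ x in F, ‖∑ j ∈ s, a j * V j x‖ ^ 2 ∂tmu :=
          integral_nonneg fun x => sq_nonneg _
        linarith
      rw [hs] at hint
      have hI : 0 ≤ ∫ x in F', ‖V i x‖ ^ 2 ∂tmu := integral_nonneg fun x => sq_nonneg _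
      have e1 : ((tmu.real F) ^ 2 / 2) ^ N ≤ (tmu.real F1) ^ N :=
        pow_le_pow_left₀ (by positivity) hF1e N
      have e2 : (‖a i‖ * (tmu.real F / 3)) ^ 2 ≤ ‖a' i‖ ^ 2 :=
        pow_le_pow_left₀ (by positivity) hai 2
      have e3 : (‖a i‖ * (tmu.real F / 3)) ^ 2 * ((tmu.real F) ^ 2 / 2) ^ N *
          (∫ x in F', ‖V i x‖ ^ 2 ∂tmu) ≤ ‖a' i‖ ^ 2 * (tmu.real F1) ^ N *
          (∫ x in F', ‖V i x‖ ^ 2 ∂tmu) := by
        refine mul_le_mul_of_nonneg_right ?_ hI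
        exact mul_le_mul e2 e1 (by positivity) (by positivity)
      have e4 : C * ((∫ x in F1, ‖∑ j ∈ s.erase j0, a' j * V j x‖ ^ 2 ∂tmu) + (A / B) ^ 2) ≤
          C * (((((n + 2 : ℕ) : ℝ) ^ 2 + 2) + 1) * Q) := by
        refine mul_le_mul_of_nonneg_left ?_ (by linarith)
        have : ((((n + 2 : ℕ) : ℝ) ^ 2 + 2) + 1) * Q = (((n + 2 : ℕ) : ℝ) ^ 2 + 2) * Q + Q := by
          ring
        rw [this]
        exact add_le_add hint hQ0
      have e5 : ‖a i‖ ^ 2 * (tmu.real F) ^ (2 * N + 2) * (∫ x in F', ‖V i x‖ ^ 2 ∂tmu) =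
          (9 * 2 ^ N) * ((‖a i‖ * (tmu.real F / 3)) ^ 2 * ((tmu.real F) ^ 2 / 2) ^ N *
          (∫ x in F', ‖V i x‖ ^ 2 ∂tmu)) := by
        have : (tmu.real F) ^ (2 * N + 2) = 2 ^ N * ((tmu.real F) ^ 2 / 2) ^ N *
            (tmu.real F) ^ 2 := by
          rw [div_pow, pow_add, pow_mul]
          field_simp
        rw [this]
        ring
      rw [e5]
      calc (9 * 2 ^ N : ℝ) * ((‖a i‖ * (tmu.real F / 3)) ^ 2 * ((tmu.real F) ^ 2 / 2) ^ N *
            (∫ x in F', ‖V i x‖ ^ 2 ∂tmu)) ≤ (9 * 2 ^ N) *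
              (C * (((((n + 2 : ℕ) : ℝ) ^ 2 + 2) + 1) * Q)) :=
            mul_le_mul_of_nonneg_left (e3.trans (hF'3.trans e4)) (by positivity)
        _ = _ := by ring

theorem main : TaskSL := by
  intro n
  rcases n with _ | n
  · refine ⟨1, one_pos, 1, le_rfl, ?_⟩
    intro ι s V κ A B hs _ _ _ _ _ S _ i hi
    rw [Finset.card_eq_zero] at hs
    rw [hs] at hi
    exact absurd hi (Finset.notMem_empty i)
  · obtain ⟨C, hC, N, hN, hind⟩ := ind n
    refine ⟨C * C, by positivity, N + N, by omega, ?_⟩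
    intro ι s V κ A B hs hcont hA hB hmod hsep S hS i hi lam hlam hlow
    have hR0 : 0 ≤ (∫ x in S, ‖∑ j ∈ s, V j x‖ ^ 2 ∂tmu) + (A / B) ^ 2 :=
      add_nonneg (integral_nonneg fun x => sq_nonneg _) (sq_nonneg _)
    rcases (measureReal_nonneg (μ := tmu) (s := S)).eq_or_lt with h0 | hpos
    · rw [← h0, zero_pow (by omega), mul_zero]
      positivity
    have hD : Dat ι s V κ A B := ⟨hcont, hA, hB, hmod, hsep⟩
    obtain ⟨F', hF', hF'm, h1, h2⟩ := hind ι s V κ A B hD hs (fun _ => 1)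
      (fun _ _ => by rw [norm_one]) i hi S hS hpos
    simp only [norm_one, one_pow, one_mul] at h2
    have hVi : Integrable (fun x => ‖V i x‖ ^ 2) tmu := int_cont ((hcont i hi).norm.pow 2)
    have h3 : lam ^ 2 * tmu.real F' ≤ ∫ x in F', ‖V i x‖ ^ 2 ∂tmu := by
      have e1 : ∫ x in F', lam ^ 2 ∂tmu = lam ^ 2 * tmu.real F' := by
        rw [setIntegral_const, smul_eq_mul, mul_comm]
      rw [← e1]
      refine setIntegral_mono_on (integrable_const _).integrableOn hVi.integrableOn hF'm ?_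
      intro x hx
      exact pow_le_pow_left₀ hlam.le (hlow x (hF' hx)) 2
    have hSN : 0 < (tmu.real S) ^ N := pow_pos hpos N
    calc lam ^ 2 * (tmu.real S) ^ (N + N) = lam ^ 2 * ((tmu.real S) ^ N * (tmu.real S) ^ N) := by
          rw [pow_add]
      _ ≤ lam ^ 2 * ((tmu.real S) ^ N * (C * tmu.real F')) := by
          gcongr
      _ = C * ((tmu.real S) ^ N * (lam ^ 2 * tmu.real F')) := by ring
      _ ≤ C * ((tmu.real S) ^ N * ∫ x in F', ‖V i x‖ ^ 2 ∂tmu) := by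
          gcongr
      _ ≤ C * (C * ((∫ x in S, ‖∑ j ∈ s, V j x‖ ^ 2 ∂tmu) + (A / B) ^ 2)) := by
          refine mul_le_mul_of_nonneg_left h2 (by linarith)
      _ = _ := by ring

end

end Pool.Agent.TH416.J2109
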