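import Pool.Agent.TH371.Apy.Defs

/-!
# Explicit product inequalities (job 1145, APY2)
-/

set_option autoImplicit false

namespace Pool.Agent.TH416.ApyProd

open Pool.Agent.TH371.Apy

lemma cc_ge (i : ℕ) : 1 ≤ cc i := by
  unfold cc
  have : (1:ℝ) ≤ 2 ^ i := one_le_pow₀ (by norm_num)
  linarith

/-- the product -/
noncomputable def G (K : ℕ) (Z : ℝ) : ℝ := ∏ i ∈ Finset.range K, (3 * (1 + 2 * Z ^ 2 / cc i))

lemma G_nonneg (K : ℕ) (Z : ℝ) : 0 ≤ G K Z := by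
  refine Finset.prod_nonneg (fun i _ => ?_)
  have := cc_ge i
  positivity

lemma ratio (K : ℕ) (Z : ℝ) (hZ0 : 0 < Z) (hZ : 2 * (K:ℝ) ≤ Z) :
    (((Z + 1) / Z) ^ 2) ^ K ≤ 4 := by
  have h1 : (Z + 1) / Z ≤ Real.exp (1 / Z) := by
    have h2 := Real.add_one_le_exp (1 / Z)
    have h3 : (Z + 1) / Z = 1 / Z + 1 := by
      rw [add_div, div_self hZ0.ne', add_comm]
    rw [h3]
    exact h2
  have h4 : 0 ≤ (Z + 1) / Z := by positivity
  have h5 : (((Z + 1) / Z) ^ 2) ^ K ≤ (Real.exp (1 / Z)) ^ (2 * K) := by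
    rw [← pow_mul]
    exact pow_le_pow_left₀ h4 h1 _
  refine h5.trans ?_
  rw [← Real.exp_nat_mul]
  have h6 : ((2 * K : ℕ) : ℝ) * (1 / Z) ≤ 1 := by
    push_cast
    rw [mul_one_div, div_le_one hZ0]
    exact hZ
  refine (Real.exp_le_exp.2 h6).trans ?_
  have := Real.exp_one_lt_d9
  linarith

lemma G_step (K : ℕ) (Z : ℝ) (hZ0 : 0 < Z) (hZ : 2 * (K:ℝ) ≤ Z) : G K (Z + 1) ≤ 4 * G K Z := by
  have h1 : G K (Z + 1) ≤ ∏ i ∈ Finset.range K,
      (((Z + 1) / Z) ^ 2 * (3 * (1 + 2 * Z ^ 2 / cc i))) := by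
    refine Finset.prod_le_prod (fun i _ => ?_) (fun i _ => ?_)
    · have := cc_ge i
      positivity
    · have hc := cc_ge i
      have h2 : ((Z + 1) / Z) ^ 2 * (3 * (1 + 2 * Z ^ 2 / cc i)) =
          3 * (((Z + 1) / Z) ^ 2 + 2 * (Z + 1) ^ 2 / cc i) := by
        field_simp
      rw [h2]
      have h3 : 1 ≤ ((Z + 1) / Z) ^ 2 := by
        refine one_le_pow₀ ?_
        rw [one_le_div hZ0]
        linarith
      linarith
  rw [Finset.prod_mul_distrib, Finset.prod_const, Finset.card_range] at h1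
  exact h1.trans (mul_le_mul_of_nonneg_right (ratio K Z hZ0 hZ) (G_nonneg K Z))

lemma G_mono (K m₀ : ℕ) (h0 : 100 * G K ((m₀ : ℝ) + 2 * K + 2) ≤ 4 ^ m₀) (m : ℕ) (hm : m₀ ≤ m) :
    100 * G K ((m : ℝ) + 2 * K + 2) ≤ 4 ^ m := by
  induction m, hm using Nat.le_induction with
  | base => exact h0
  | succ m _ ih =>
    have h1 : ((m + 1 : ℕ) : ℝ) + 2 * K + 2 = ((m : ℝ) + 2 * K + 2) + 1 := by push_cast; ring
    have hm0 : (0:ℝ) ≤ m := Nat.cast_nonneg m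
    have hK0 : (0:ℝ) ≤ K := Nat.cast_nonneg K
    rw [h1, pow_succ]
    have h2 := G_step K ((m : ℝ) + 2 * K + 2) (by linarith) (by linarith)
    linarith

theorem prod_small_eleven (m : ℕ) (hm : 52 ≤ m) :
    100 * ∏ i ∈ Finset.range 11, (3 * (1 + 2 * ((m : ℝ) + 2 * 11 + 2) ^ 2 / cc i)) ≤ 4 ^ m := by
  have h1 := G_mono 11 52 (by
    simp only [G, Finset.prod_range_succ, Finset.prod_range_zero, cc]
    norm_num) m hm
  unfold G at h1
  push_cast at h1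
  exact h1

lemma big_step (K : ℕ) (Z : ℝ) (hZ0 : 0 < Z) (hZ : 2 * (K:ℝ) ≤ Z) :
    (3 * (Z + 1)) ^ K ≤ 2 * (3 * Z) ^ K := by
  have h1 := ratio K Z hZ0 hZ
  have h2 : ((Z + 1) / Z) ^ K ≤ 2 := by
    rw [← pow_mul, mul_comm, pow_mul] at h1
    have h3 : (0:ℝ) ≤ ((Z + 1) / Z) ^ K := by positivity
    nlinarith
  have h3 : (3 * (Z + 1)) ^ K = ((Z + 1) / Z) ^ K * (3 * Z) ^ K := by
    rw [← mul_pow]
    congr 1
    field_simp
  rw [h3]
  exact mul_le_mul_of_nonneg_right h2 (by positivity)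

lemma big_mono (K m₀ : ℕ) (h0 : 10 * (3 * ((m₀ : ℝ) + 2 * K + 2)) ^ K ≤ 2 ^ m₀) (m : ℕ)
    (hm : m₀ ≤ m) : 10 * (3 * ((m : ℝ) + 2 * K + 2)) ^ K ≤ 2 ^ m := by
  induction m, hm using Nat.le_induction with
  | base => exact h0
  | succ m _ ih =>
    have h1 : ((m + 1 : ℕ) : ℝ) + 2 * K + 2 = ((m : ℝ) + 2 * K + 2) + 1 := by push_cast; ring
    have hm0 : (0:ℝ) ≤ m := Nat.cast_nonneg m
    have hK0 : (0:ℝ) ≤ K := Nat.cast_nonneg K
    rw [h1, pow_succ]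
    have h2 := big_step K ((m : ℝ) + 2 * K + 2) (by linarith) (by linarith)
    linarith

/-- The bound by powers. -/
lemma G_le (K : ℕ) (Z : ℝ) (hZ : 1 ≤ Z) : G K Z ≤ ((3 * Z) ^ K) ^ 2 := by
  have e1 : ((3 * Z) ^ K) ^ 2 = ((3 * Z) ^ 2) ^ K := by
    rw [← pow_mul, ← pow_mul, mul_comm K 2]
  rw [e1]
  unfold G
  calc _ ≤ ∏ i ∈ Finset.range K, ((3 * Z) ^ 2) := by
        refine Finset.prod_le_prod (fun i _ => ?_) (fun i _ => ?_)
        · have := cc_ge i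
          positivity
        · have hc := cc_ge i
          have h1 : 2 * Z ^ 2 / cc i ≤ 2 * Z ^ 2 := div_le_self (by positivity) hc
          nlinarith
    _ = _ := by rw [Finset.prod_const, Finset.card_range]

/-- The inequality at the smallest values of `m`. -/
lemma base_ineq (N e : ℕ) (he : e ≤ 1) (hN : 153 ≤ N) (hN2 : N ≤ 250)
    (h0 : 10 * (3 * (((N - 16 - e : ℕ) : ℝ) + 2 * ((14 + e : ℕ) : ℝ) + 2)) ^ (14 + e) ≤
      2 ^ (N - 16 - e)) (i : ℕ) :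
    10 * (3 * (((N * 2 ^ i - 2 * i - 16 - e : ℕ) : ℝ) + 2 * ((14 + e + 2 * i : ℕ) : ℝ) + 2)) ^
      (14 + e + 2 * i) ≤ (2:ℝ) ^ (N * 2 ^ i - 2 * i - 16 - e) := by
  induction i with
  | zero => simpa using h0
  | succ i ih =>
    have hi : i < 2 ^ i := Nat.lt_two_pow_self
    have hNi : 153 * 2 ^ i ≤ N * 2 ^ i := Nat.mul_le_mul_right _ hN
    have hpow : N * 2 ^ (i + 1) = 2 * (N * 2 ^ i) := by rw [pow_succ]; ring
    obtain ⟨n, hn⟩ : ∃ n, N * 2 ^ i = n + 2 * i + 16 + e := ⟨N * 2 ^ i - 2 * i - 16 - e, by omega⟩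
    have hn1 : N * 2 ^ i - 2 * i - 16 - e = n := by omega
    have hn2 : N * 2 ^ (i + 1) - 2 * (i + 1) - 16 - e = 2 * n + 2 * i + 14 + e := by omega
    rw [hn1] at ih
    rw [hn2]
    set K := 14 + e + 2 * i with hK
    have hK2 : 14 + e + 2 * (i + 1) = K + 2 := by omega
    rw [hK2]
    set Z : ℝ := (n : ℝ) + 2 * (K : ℝ) + 2 with hZ
    have hZ' : ((2 * n + 2 * i + 14 + e : ℕ) : ℝ) + 2 * ((K + 2 : ℕ) : ℝ) + 2 ≤ 2 * Z := by
      rw [hZ, hK]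
      push_cast
      have : (e : ℝ) ≤ 1 := by exact_mod_cast he
      have : (0:ℝ) ≤ i := Nat.cast_nonneg i
      have : (0:ℝ) ≤ e := Nat.cast_nonneg e
      linarith
    have hZ0 : 0 ≤ ((2 * n + 2 * i + 14 + e : ℕ) : ℝ) + 2 * ((K + 2 : ℕ) : ℝ) + 2 := by positivity
    have hZp : 0 ≤ Z := by positivity
    have h3Z : 3 * Z ≤ 2 ^ (10 + i) := by
      have h1 : (n : ℝ) + 2 * i + 16 + e = (N:ℝ) * 2 ^ i := by
        have := hn.symm
        exact_mod_cast this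
      have h2 : Z = (N:ℝ) * 2 ^ i + 2 * i + e + 14 := by
        rw [hZ, hK, ← h1]
        push_cast
        ring
      have h3 : (N:ℝ) ≤ 250 := by exact_mod_cast hN2
      have h4 : (i:ℝ) ≤ 2 ^ i := by exact_mod_cast hi.le
      have h5 : (e : ℝ) ≤ 1 := by exact_mod_cast he
      have h6 : (1:ℝ) ≤ 2 ^ i := one_le_pow₀ (by norm_num)
      have h7 : (N:ℝ) * 2 ^ i ≤ 250 * 2 ^ i := mul_le_mul_of_nonneg_right h3 (by positivity)
      rw [h2, pow_add]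
      norm_num
      linarith
    calc 10 * (3 * (((2 * n + 2 * i + 14 + e : ℕ) : ℝ) + 2 * ((K + 2 : ℕ) : ℝ) + 2)) ^ (K + 2)
        ≤ 10 * (3 * (2 * Z)) ^ (K + 2) := by
          refine mul_le_mul_of_nonneg_left ?_ (by norm_num)
          refine pow_le_pow_left₀ (by positivity) ?_ _
          linarith
      _ = 2 ^ (K + 2) * (10 * (3 * Z) ^ K) * (3 * Z) ^ 2 := by
          have : 3 * (2 * Z) = 2 * (3 * Z) := by ring
          rw [this, mul_pow, pow_add (3 * Z)]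
          ring
      _ ≤ 2 ^ (K + 2) * 2 ^ n * (2 ^ (10 + i)) ^ 2 := by
          gcongr
      _ = 2 ^ (K + 2 + n + (10 + i) * 2) := by
          rw [← pow_add, ← pow_mul, ← pow_add]
      _ ≤ 2 ^ (2 * n + 2 * i + 14 + e) := by
          refine pow_le_pow_right₀ (by norm_num) ?_
          omega

lemma of_big (K m : ℕ) (h : 10 * (3 * ((m : ℝ) + 2 * K + 2)) ^ K ≤ 2 ^ m) :
    100 * ∏ i ∈ Finset.range K, (3 * (1 + 2 * ((m : ℝ) + 2 * K + 2) ^ 2 / cc i)) ≤ 4 ^ m := by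
  have h1 := G_le K ((m : ℝ) + 2 * K + 2) (by
    have : (0:ℝ) ≤ m := Nat.cast_nonneg m
    have : (0:ℝ) ≤ K := Nat.cast_nonneg K
    linarith)
  have h2 : (10 * (3 * ((m : ℝ) + 2 * K + 2)) ^ K) ^ 2 ≤ (2 ^ m) ^ 2 :=
    pow_le_pow_left₀ (by positivity) h 2
  have h3 : ((2:ℝ) ^ m) ^ 2 = 4 ^ m := by
    rw [← pow_mul, mul_comm, pow_mul]
    norm_num
  rw [h3, mul_pow] at h2
  unfold G at h1
  linarith

lemma big_case (N e : ℕ) (he : e ≤ 1) (hN : 153 ≤ N) (hN2 : N ≤ 250)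
    (hNe : 1.02 * (N : ℝ) ^ 2 ≤ 3 * 2 ^ (13 + e) - 2)
    (h0 : 10 * (3 * (((N - 16 - e : ℕ) : ℝ) + 2 * ((14 + e : ℕ) : ℝ) + 2)) ^ (14 + e) ≤
      2 ^ (N - 16 - e)) (i m : ℕ)
    (hm : cc (14 + e + 2 * i - 1) < 1.02 * ((m : ℝ) + ((14 + e + 2 * i : ℕ) : ℝ) + 5 / 2) ^ 2) :
    N * 2 ^ i - 2 * i - 16 - e ≤ m := by
  have _ := h0
  have _ := hN
  have _ := hN2
  have _ := he
  have h1 : 14 + e + 2 * i - 1 = 13 + e + 2 * i := by omega
  rw [h1] at hm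
  unfold cc at hm
  have h2 : (2:ℝ) ^ (13 + e + 2 * i) = 2 ^ (13 + e) * (2 ^ i) ^ 2 := by
    rw [pow_add, pow_mul, ← pow_mul 2 i 2, mul_comm i 2, pow_mul]
  rw [h2] at hm
  have h6 : (1:ℝ) ≤ (2 ^ i) ^ 2 := one_le_pow₀ (one_le_pow₀ (by norm_num))
  have h3 : 1.02 * ((N:ℝ) * 2 ^ i) ^ 2 <
      1.02 * ((m : ℝ) + ((14 + e + 2 * i : ℕ) : ℝ) + 5 / 2) ^ 2 := by
    refine lt_of_le_of_lt ?_ hm
    rw [mul_pow, ← mul_assoc]
    nlinarith
  have h4 : (N:ℝ) * 2 ^ i < (m : ℝ) + ((14 + e + 2 * i : ℕ) : ℝ) + 5 / 2 := by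
    refine lt_of_pow_lt_pow_left₀ 2 (by positivity) ?_
    linarith
  have h5 : (N:ℝ) * 2 ^ i < (((m + 14 + e + 2 * i + 3 : ℕ)) : ℝ) := by
    push_cast at h4 ⊢
    linarith
  have h7 : N * 2 ^ i < m + 14 + e + 2 * i + 3 := by exact_mod_cast h5
  omega

theorem prod_small (K m : ℕ) (hK : 12 ≤ K)
    (hm : cc (K - 1) < 1.02 * ((m : ℝ) + K + 5 / 2) ^ 2) :
    100 * ∏ i ∈ Finset.range K, (3 * (1 + 2 * ((m : ℝ) + 2 * K + 2) ^ 2 / cc i)) ≤ 4 ^ m := by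
  by_cases h12 : K = 12
  · subst h12
    have h1 : 64 ≤ m := by
      by_contra hc
      push Not at hc
      have h2 : (m:ℝ) ≤ 63 := by exact_mod_cast (by omega : m ≤ 63)
      have h3 : (0:ℝ) ≤ m := Nat.cast_nonneg m
      unfold cc at hm
      norm_num at hm
      nlinarith
    exact G_mono 12 64 (by
      simp only [G, Finset.prod_range_succ, Finset.prod_range_zero, cc]
      norm_num) m h1
  by_cases h13 : K = 13
  · subst h13
    have h1 : 95 ≤ m := by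
      by_contra hc
      push Not at hc
      have h2 : (m:ℝ) ≤ 94 := by exact_mod_cast (by omega : m ≤ 94)
      have h3 : (0:ℝ) ≤ m := Nat.cast_nonneg m
      unfold cc at hm
      norm_num at hm
      nlinarith
    exact G_mono 13 95 (by
      simp only [G, Finset.prod_range_succ, Finset.prod_range_zero, cc]
      norm_num) m h1
  have hK14 : 14 ≤ K := by omega
  apply of_big
  rcases Nat.even_or_odd (K - 14) with h | h
  · obtain ⟨i, hi⟩ := h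
    have hKi : K = 14 + 0 + 2 * i := by omega
    have h0 : 10 * (3 * (((153 - 16 - 0 : ℕ) : ℝ) + 2 * ((14 + 0 : ℕ) : ℝ) + 2)) ^ (14 + 0) ≤
      (2:ℝ) ^ (153 - 16 - 0) := by norm_num
    rw [hKi] at hm ⊢
    have h1 := big_case 153 0 (by norm_num) (by norm_num) (by norm_num) (by norm_num) h0 i m hm
    exact big_mono _ _ (base_ineq 153 0 (by norm_num) (by norm_num) (by norm_num) h0 i) m h1
  · obtain ⟨i, hi⟩ := h
    have hKi : K = 14 + 1 + 2 * i := by omega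
    have h0 : 10 * (3 * (((200 - 16 - 1 : ℕ) : ℝ) + 2 * ((14 + 1 : ℕ) : ℝ) + 2)) ^ (14 + 1) ≤
      (2:ℝ) ^ (200 - 16 - 1) := by norm_num
    rw [hKi] at hm ⊢
    have h1 := big_case 200 1 (by norm_num) (by norm_num) (by norm_num) (by norm_num) h0 i m hm
    exact big_mono _ _ (base_ineq 200 1 (by norm_num) (by norm_num) (by norm_num) h0 i) m h1

end Pool.Agent.TH416.ApyProd
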