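import Pool.Agent.TH371.Apy.Defs

/-!
# A singular Volterra equation (job 1149, APY6)
-/

set_option autoImplicit false

namespace Pool.Agent.TH416.ApyVolterra

open MeasureTheory Set

/-- the hypotheses on the coefficients -/
structure Hyp (y1 M : ℝ) (a b : ℝ → ℝ) : Prop where
  hy1 : 0 < y1
  ha : ContinuousOn a (Ioc 0 y1)
  ha0 : ∀ y ∈ Ioc 0 y1, 0 ≤ a y
  hb0 : ∀ y ∈ Ioc 0 y1, 0 ≤ b y
  hbi : IntervalIntegrable b volume 0 y1
  hM : ∀ y ∈ Ioc 0 y1, a y * ∫ x in (0 : ℝ)..y, b x ≤ M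

variable {y1 M : ℝ} {a b : ℝ → ℝ}

/-- inner integral -/
noncomputable def J (b F : ℝ → ℝ) (η : ℝ) : ℝ := ∫ ξ in (0 : ℝ)..η, b ξ * F ξ

lemma int_bF (h : Hyp y1 M a b) {F : ℝ → ℝ} (hF : ContinuousOn F (Icc 0 y1)) :
    IntervalIntegrable (fun ξ => b ξ * F ξ) volume 0 y1 := by
  apply h.hbi.mul_continuousOn
  rwa [uIcc_of_le h.hy1.le]

lemma int_sub (h : Hyp y1 M a b) {f : ℝ → ℝ} (hf : IntervalIntegrable f volume 0 y1)
    {y : ℝ} (hy : y ∈ Icc 0 y1) : IntervalIntegrable f volume 0 y := by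
  refine hf.mono_set ?_
  rw [uIcc_of_le hy.1, uIcc_of_le h.hy1.le]
  exact Icc_subset_Icc le_rfl hy.2

lemma J_cont (h : Hyp y1 M a b) {F : ℝ → ℝ} (hF : ContinuousOn F (Icc 0 y1)) :
    ContinuousOn (J b F) (Icc 0 y1) := by
  have := intervalIntegral.continuousOn_primitive_interval' (int_bF h hF) (left_mem_uIcc)
  rwa [uIcc_of_le h.hy1.le] at this

lemma J_bound (h : Hyp y1 M a b) {F : ℝ → ℝ} (hF : ContinuousOn F (Icc 0 y1)) {C : ℝ}
    (hC : ∀ ξ ∈ Icc 0 y1, |F ξ| ≤ C) {η : ℝ} (hη : η ∈ Ioc 0 y1) :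
    |a η * J b F η| ≤ M * C := by
  have hηI : η ∈ Icc 0 y1 := ⟨hη.1.le, hη.2⟩
  have hC0 : 0 ≤ C := (abs_nonneg _).trans (hC η hηI)
  have h1 : |J b F η| ≤ C * ∫ x in (0 : ℝ)..η, b x := by
    unfold J
    refine (intervalIntegral.abs_integral_le_integral_abs hη.1.le).trans ?_
    rw [← intervalIntegral.integral_const_mul]
    refine intervalIntegral.integral_mono_on_of_le_Ioo hη.1.le
      (int_sub h (int_bF h hF) hηI).abs ((int_sub h h.hbi hηI).const_mul C) ?_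
    intro x hx
    have hx1 : x ∈ Ioc 0 y1 := ⟨hx.1, hx.2.le.trans hη.2⟩
    rw [abs_mul, abs_of_nonneg (h.hb0 x hx1), mul_comm]
    exact mul_le_mul_of_nonneg_right (hC x ⟨hx1.1.le, hx1.2⟩) (h.hb0 x hx1)
  rw [abs_mul, abs_of_nonneg (h.ha0 η hη)]
  calc a η * |J b F η| ≤ a η * (C * ∫ x in (0 : ℝ)..η, b x) :=
        mul_le_mul_of_nonneg_left h1 (h.ha0 η hη)
    _ = C * (a η * ∫ x in (0 : ℝ)..η, b x) := by ring
    _ ≤ C * M := mul_le_mul_of_nonneg_left (h.hM η hη) hC0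
    _ = M * C := mul_comm _ _

lemma bdd_of_cont {F : ℝ → ℝ} (hF : ContinuousOn F (Icc 0 y1)) :
    ∃ C, ∀ ξ ∈ Icc 0 y1, |F ξ| ≤ C := by
  obtain ⟨C, hC⟩ := isCompact_Icc.exists_bound_of_continuousOn hF
  exact ⟨C, fun ξ hξ => by simpa using hC ξ hξ⟩

lemma int_aJ (h : Hyp y1 M a b) {F : ℝ → ℝ} (hF : ContinuousOn F (Icc 0 y1)) :
    IntervalIntegrable (fun η => a η * J b F η) volume 0 y1 := by
  obtain ⟨C, hC⟩ := bdd_of_cont hF
  rw [intervalIntegrable_iff_integrableOn_Ioc_of_le h.hy1.le]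
  refine Integrable.of_bound (C := M * C) ?_ ?_
  · have h1 : ContinuousOn (fun η => a η * J b F η) (Ioc 0 y1) :=
      h.ha.mul ((J_cont h hF).mono Ioc_subset_Icc_self)
    exact h1.aestronglyMeasurable measurableSet_Ioc
  · refine (ae_restrict_iff' measurableSet_Ioc).2 (Filter.Eventually.of_forall (fun η hη => ?_))
    rw [Real.norm_eq_abs]
    exact J_bound h hF hC hη

/-- the integral operator -/
noncomputable def K (a b F : ℝ → ℝ) (y : ℝ) : ℝ := ∫ η in (0 : ℝ)..y, a η * J b F η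

lemma K_cont (h : Hyp y1 M a b) {F : ℝ → ℝ} (hF : ContinuousOn F (Icc 0 y1)) :
    ContinuousOn (K a b F) (Icc 0 y1) := by
  have := intervalIntegral.continuousOn_primitive_interval' (int_aJ h hF) (left_mem_uIcc)
  rwa [uIcc_of_le h.hy1.le] at this

lemma K_bound (h : Hyp y1 M a b) {F : ℝ → ℝ} (hF : ContinuousOn F (Icc 0 y1)) {C : ℝ}
    (hC : ∀ ξ ∈ Icc 0 y1, |F ξ| ≤ C) {y : ℝ} (hy : y ∈ Icc 0 y1) :
    |K a b F y| ≤ M * C * y := by
  have h1 := intervalIntegral.norm_integral_le_of_norm_le_const (a := (0:ℝ)) (b := y)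
    (f := fun η => a η * J b F η) (C := M * C) (by
      intro x hx
      rw [uIoc_of_le hy.1] at hx
      rw [Real.norm_eq_abs]
      exact J_bound h hF hC ⟨hx.1, hx.2.trans hy.2⟩)
  rw [sub_zero, abs_of_nonneg hy.1, Real.norm_eq_abs] at h1
  exact h1

lemma J_sub (h : Hyp y1 M a b) {F G : ℝ → ℝ} (hF : ContinuousOn F (Icc 0 y1))
    (hG : ContinuousOn G (Icc 0 y1)) {η : ℝ} (hη : η ∈ Icc 0 y1) :
    J b (fun x => F x - G x) η = J b F η - J b G η := by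
  unfold J
  rw [← intervalIntegral.integral_sub (int_sub h (int_bF h hF) hη) (int_sub h (int_bF h hG) hη)]
  congr 1
  funext x
  ring

lemma K_sub (h : Hyp y1 M a b) {F G : ℝ → ℝ} (hF : ContinuousOn F (Icc 0 y1))
    (hG : ContinuousOn G (Icc 0 y1)) {y : ℝ} (hy : y ∈ Icc 0 y1) :
    K a b (fun x => F x - G x) y = K a b F y - K a b G y := by
  unfold K
  rw [← intervalIntegral.integral_sub (int_sub h (int_aJ h hF) hy) (int_sub h (int_aJ h hG) hy)]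
  refine intervalIntegral.integral_congr (fun x hx => ?_)
  rw [uIcc_of_le hy.1] at hx
  rw [J_sub h hF hG ⟨hx.1, hx.2.trans hy.2⟩]
  ring

lemma K_nonneg (h : Hyp y1 M a b) {F : ℝ → ℝ} 
    (h0 : ∀ ξ ∈ Icc 0 y1, 0 ≤ F ξ) {y : ℝ} (hy : y ∈ Icc 0 y1) : 0 ≤ K a b F y := by
  unfold K
  refine intervalIntegral.integral_nonneg_of_ae_restrict hy.1 ?_
  rw [Filter.EventuallyLE]
  have hnull : ∀ᵐ x ∂(volume.restrict (Icc (0:ℝ) y)), x ≠ 0 := by
    refine ae_restrict_of_ae ?_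
    exact Measure.ae_ne volume 0
  filter_upwards [hnull, ae_restrict_mem measurableSet_Icc] with x hx0 hx
  have hx1 : x ∈ Ioc 0 y1 := ⟨lt_of_le_of_ne hx.1 (Ne.symm hx0), hx.2.trans hy.2⟩
  refine mul_nonneg (h.ha0 x hx1) ?_
  unfold J
  refine intervalIntegral.integral_nonneg_of_ae_restrict hx.1 ?_
  rw [Filter.EventuallyLE]
  have hnull2 : ∀ᵐ z ∂(volume.restrict (Icc (0:ℝ) x)), z ≠ 0 :=
    ae_restrict_of_ae (Measure.ae_ne volume 0)
  filter_upwards [hnull2, ae_restrict_mem measurableSet_Icc] with z hz0 hz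
  have hz1 : z ∈ Ioc 0 y1 := ⟨lt_of_le_of_ne hz.1 (Ne.symm hz0), hz.2.trans hx1.2⟩
  exact mul_nonneg (h.hb0 z hz1) (h0 z ⟨hz1.1.le, hz1.2⟩)

/-- The extension of a continuous function on the interval. -/
noncomputable def ext (h : 0 ≤ y1) (f : C(Icc (0:ℝ) y1, ℝ)) : ℝ → ℝ := IccExtend h f

lemma ext_cont (h : 0 ≤ y1) (f : C(Icc (0:ℝ) y1, ℝ)) : ContinuousOn (ext h f) (Icc 0 y1) :=
  (f.continuous.Icc_extend').continuousOn

lemma ext_apply (h : 0 ≤ y1) (f : C(Icc (0:ℝ) y1, ℝ)) {y : ℝ} (hy : y ∈ Icc 0 y1) :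
    ext h f y = f ⟨y, hy⟩ := IccExtend_of_mem h f hy

/-- The contraction. -/
noncomputable def T (h : Hyp y1 M a b) {ψ₀ : ℝ → ℝ} (h0 : ContinuousOn ψ₀ (Icc 0 y1))
    (f : C(Icc (0:ℝ) y1, ℝ)) : C(Icc (0:ℝ) y1, ℝ) :=
  ⟨fun y => ψ₀ y + K a b (ext h.hy1.le f) y, by
    exact (continuousOn_iff_continuous_domRestrict.1 h0).add
      (continuousOn_iff_continuous_domRestrict.1 (K_cont h (ext_cont h.hy1.le f)))⟩

lemma T_apply (h : Hyp y1 M a b) {ψ₀ : ℝ → ℝ} (h0 : ContinuousOn ψ₀ (Icc 0 y1))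
    (f : C(Icc (0:ℝ) y1, ℝ)) (y : Icc (0:ℝ) y1) :
    T h h0 f y = ψ₀ y + K a b (ext h.hy1.le f) y := rfl

lemma M_nonneg (h : Hyp y1 M a b) : 0 ≤ M := by
  refine le_trans ?_ (h.hM y1 ⟨h.hy1, le_rfl⟩)
  refine mul_nonneg (h.ha0 y1 ⟨h.hy1, le_rfl⟩) ?_
  refine intervalIntegral.integral_nonneg_of_ae_restrict h.hy1.le ?_
  rw [Filter.EventuallyLE]
  have hnull2 : ∀ᵐ z ∂(volume.restrict (Icc (0:ℝ) y1)), z ≠ 0 :=
    ae_restrict_of_ae (Measure.ae_ne volume 0)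
  filter_upwards [hnull2, ae_restrict_mem measurableSet_Icc] with z hz0 hz
  exact h.hb0 z ⟨lt_of_le_of_ne hz.1 (Ne.symm hz0), hz.2⟩

lemma T_contr (h : Hyp y1 M a b) (hM1 : M * y1 < 1) {ψ₀ : ℝ → ℝ}
    (h0 : ContinuousOn ψ₀ (Icc 0 y1)) :
    ContractingWith (M * y1).toNNReal (T h h0) := by
  have hMy : 0 ≤ M * y1 := mul_nonneg (M_nonneg h) h.hy1.le
  refine ⟨?_, LipschitzWith.of_dist_le_mul (fun f g => ?_)⟩
  · rw [← NNReal.coe_lt_coe, Real.coe_toNNReal _ hMy]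
    exact hM1
  · rw [Real.coe_toNNReal _ hMy]
    rw [ContinuousMap.dist_le (by positivity)]
    intro y
    rw [T_apply, T_apply, Real.dist_eq, add_sub_add_left_eq_sub,
      ← K_sub h (ext_cont h.hy1.le f) (ext_cont h.hy1.le g) y.2]
    refine (K_bound h ((ext_cont h.hy1.le f).sub (ext_cont h.hy1.le g)) (C := dist f g)
      ?_ y.2).trans ?_
    · intro ξ hξ
      rw [Pi.sub_apply, ext_apply _ _ hξ, ext_apply _ _ hξ, ← Real.dist_eq]
      exact ContinuousMap.dist_apply_le_dist _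
    · have h1 : (y:ℝ) ≤ y1 := y.2.2
      have h2 : 0 ≤ M * dist f g := mul_nonneg (M_nonneg h) dist_nonneg
      calc M * dist f g * y ≤ M * dist f g * y1 := mul_le_mul_of_nonneg_left h1 h2
        _ = M * y1 * dist f g := by ring

theorem volterra (y1 M : ℝ) (hy1 : 0 < y1) (a b ψ₀ : ℝ → ℝ)
    (ha : ContinuousOn a (Ioc 0 y1)) (hb : ContinuousOn b (Ioc 0 y1))
    (ha0 : ∀ y ∈ Ioc 0 y1, 0 ≤ a y) (hb0 : ∀ y ∈ Ioc 0 y1, 0 ≤ b y)
    (hbi : IntervalIntegrable b volume 0 y1)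
    (hM : ∀ y ∈ Ioc 0 y1, a y * ∫ x in (0 : ℝ)..y, b x ≤ M) (hM1 : M * y1 < 1)
    (h0 : ContinuousOn ψ₀ (Icc 0 y1)) (h00 : ∀ y ∈ Icc 0 y1, 0 ≤ ψ₀ y) :
    ∃ ψ : ℝ → ℝ, ContinuousOn ψ (Icc 0 y1) ∧ (∀ y ∈ Icc 0 y1, 0 ≤ ψ y) ∧
      ∀ y ∈ Icc 0 y1, ψ y = ψ₀ y + ∫ η in (0 : ℝ)..y, a η * ∫ ξ in (0 : ℝ)..η, b ξ * ψ ξ := by
  have _ := hb
  have h : Hyp y1 M a b := ⟨hy1, ha, ha0, hb0, hbi, hM⟩
  have hc := T_contr h hM1 h0
  have hne : Nonempty (C(Icc (0:ℝ) y1, ℝ)) := ⟨0⟩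
  set f := ContractingWith.fixedPoint (T h h0) hc with hf
  have hfix : T h h0 f = f := ContractingWith.fixedPoint_isFixedPt hc
  have hlim := ContractingWith.tendsto_iterate_fixedPoint hc (0 : C(Icc (0:ℝ) y1, ℝ))
  have hit : ∀ n : ℕ, ∀ y : Icc (0:ℝ) y1, 0 ≤ ((T h h0)^[n] 0) y := by
    intro n
    induction n with
    | zero => intro y; simp
    | succ n ih =>
      intro y
      rw [Function.iterate_succ', Function.comp_apply, T_apply]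
      refine add_nonneg (h00 y y.2) (K_nonneg h ?_ y.2)
      intro ξ hξ
      rw [ext_apply _ _ hξ]
      exact ih _
  have hpos : ∀ y : Icc (0:ℝ) y1, 0 ≤ f y := by
    intro y
    have h1 : Filter.Tendsto (fun n => ((T h h0)^[n] 0) y) Filter.atTop (nhds (f y)) := by
      have h2 : Continuous (fun g : C(Icc (0:ℝ) y1, ℝ) => g y) :=
        continuous_eval_const y
      exact (h2.tendsto f).comp hlim
    exact ge_of_tendsto' h1 (fun n => hit n y)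
  refine ⟨ext hy1.le f, ext_cont hy1.le f, fun y hy => ?_, fun y hy => ?_⟩
  · rw [ext_apply _ _ hy]
    exact hpos _
  · rw [ext_apply _ _ hy]
    have h1 : T h h0 f ⟨y, hy⟩ = f ⟨y, hy⟩ := by rw [hfix]
    rw [← h1, T_apply]
    rfl

end Pool.Agent.TH416.ApyVolterra
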