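import Pool.Agent.TH387.EI.Defs
import Pool.Agent.W658.States

/-!
# A state of `A` near `f ∘ φ` on a finite set (job EI-3a, helper416 for helper387)
-/

set_option autoImplicit false
set_option linter.unusedSectionVars false

open scoped ComplexOrder InnerProductSpace ComplexConjugate

noncomputable section

namespace Pool.Agent.TH387.EI

universe u

namespace FState

/-! ### states of unital algebras -/

section unital

variable {D : Type u} [CStarAlgebra D]

/-- the norm of `1 + x* x` -/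
theorem norm_one_add [Nontrivial D] (x : D) :
    ‖(1 : D) + star x * x‖ = 1 + ‖star x * x‖ := by
  let _ := CStarAlgebra.spectralOrder D
  have _ := CStarAlgebra.spectralOrderedRing D
  refine le_antisymm ?_ ?_
  · refine (norm_add_le _ _).trans ?_
    rw [CStarRing.norm_one]
  · have h1 : (0 : D) ≤ star x * x := star_mul_self_nonneg x
    have h2 := CStarAlgebra.norm_mem_spectrum_of_nonneg h1
    have h3 : (1 : ℝ) + ‖star x * x‖ ∈ spectrum ℝ ((1 : D) + star x * x) := by
      have h4 := spectrum.add_mem_iff (R := ℝ) (a := star x * x) (r := ‖star x * x‖) (s := (1 : ℝ))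
      have h5 := spectrum.singleton_add_eq (R := ℝ) (star x * x) (1 : ℝ)
      rw [map_one] at h5
      rw [← h5]
      exact Set.add_mem_add (Set.mem_singleton _) h2
    have h6 := spectrum.norm_le_norm_of_mem h3
    rw [Real.norm_eq_abs] at h6
    exact (le_abs_self _).trans h6

/-- a norming state -/
theorem norming [Nontrivial D] (x : D) : ∃ g : D → ℂ, (∀ a b, g (a + b) = g a + g b) ∧
    (∀ (c : ℂ) a, g (c • a) = c * g a) ∧ (∀ a, 0 ≤ g (star a * a)) ∧ g 1 = 1 ∧
    g (star x * x) = (‖star x * x‖ : ℂ) := by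
  have h1 := norm_one_add x
  have h2 : ‖(1 : D) + star x * x‖ ≠ 0 := by
    rw [h1]
    have := norm_nonneg (star x * x)
    linarith
  obtain ⟨g, hg1, hg2⟩ := exists_dual_vector ℂ ((1 : D) + star x * x) h2
  have hn : ∀ a, ‖g a‖ ≤ ‖a‖ := fun a => by
    have := g.le_opNorm a
    rwa [hg1, one_mul] at this
  have k1 := hn 1
  rw [CStarRing.norm_one] at k1
  have k2 := hn (star x * x)
  rw [map_add, h1] at hg2
  have k3 : g 1 + g (star x * x) = 1 + (‖star x * x‖ : ℂ) := by
    rw [hg2]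
    push_cast
    rfl
  have r1 : (g 1).re + (g (star x * x)).re = 1 + ‖star x * x‖ := by
    have := congrArg Complex.re k3
    simpa using this
  have r2 : (g 1).re ≤ 1 := (Complex.re_le_norm _).trans k1
  have r3 : (g (star x * x)).re ≤ ‖star x * x‖ := (Complex.re_le_norm _).trans k2
  have r4 : (g 1).re = 1 := by linarith
  have r5 : g 1 = 1 := by
    have s1 : (g 1).re ^ 2 + (g 1).im ^ 2 ≤ 1 := by
      have : ‖g 1‖ ^ 2 ≤ 1 := by
        have := norm_nonneg (g 1)
        nlinarith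
      rw [← Complex.normSq_eq_norm_sq, Complex.normSq_apply] at this
      nlinarith
    have s2 : (g 1).im = 0 := by
      rw [r4] at s1
      nlinarith
    exact Complex.ext (by simp [r4]) (by simp [s2])
  refine ⟨g, fun a b => map_add g a b, fun c a => by rw [map_smul]; rfl,
    Pool.Agent.W658.Irrep.pos_of_norm g hg1 r5, r5, ?_⟩
  rw [r5] at k3
  exact add_left_cancel k3

section st

variable {g : D → ℂ} (hadd : ∀ a b, g (a + b) = g a + g b) (hsm : ∀ (c : ℂ) a, g (c • a) = c * g a)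
  (hpos : ∀ a, 0 ≤ g (star a * a)) (hone : g 1 = 1)

include hadd hsm hpos hone

theorem sub (a b : D) : g (a - b) = g a - g b := by
  have := hadd a ((-1 : ℂ) • b)
  rw [hsm, neg_one_smul, ← sub_eq_add_neg] at this
  rw [this]
  ring

/-- a form of the Cauchy-Schwarz inequality -/
theorem right (w h : D) (hh : star h = h) : ‖g (w * h)‖ ^ 2 ≤ ‖w‖ ^ 2 * (g (h * h)).re := by
  have h1 := Pool.Agent.W658.Irrep.cs g hadd hsm hpos hone (w * h)
  obtain ⟨y, hy⟩ := Pool.Agent.W658.Irrep.bound_pos w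
  have h2 := hpos (y * h)
  have e1 : star (y * h) * (y * h) = ((‖w‖ ^ 2 : ℝ) : ℂ) • (h * h) - star (w * h) * (w * h) := by
    rw [star_mul, star_mul, hh, mul_assoc, ← mul_assoc (star y), ← hy, sub_mul, mul_sub,
      smul_mul_assoc, one_mul, mul_smul_comm, mul_assoc, mul_assoc]
  rw [e1, sub hadd hsm hpos hone, hsm] at h2
  have h3 := (Complex.le_def.1 h2).1
  simp only [Complex.zero_re, Complex.sub_re, Complex.mul_re, Complex.ofReal_re,
    Complex.ofReal_im, zero_mul, sub_zero] at h3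
  linarith

theorem left (w h : D) (hh : star h = h) : ‖g (h * w)‖ ^ 2 ≤ ‖w‖ ^ 2 * (g (h * h)).re := by
  have h1 := right hadd hsm hpos hone (star w) h hh
  have h2 := Pool.Agent.W658.Irrep.herm g hadd hsm hpos hone (h * w)
  rw [star_mul, hh] at h2
  rw [h2, norm_star] at h1
  rwa [RCLike.norm_conj] at h1

/-- the main estimate for a state -/
theorem main {u X : D} {l : ℂ} {ε : ℝ} (hε : 0 < ε) (hε1 : ε ≤ 1 / 100) (hu : star u = u)
    (hu1 : ‖u‖ ≤ 1) (hX : ‖X‖ ≤ 1) (hl : ‖l‖ ≤ 1) (hgu : (1 - 7 * ε : ℝ) ≤ (g u).re)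
    (h : ‖u * X * u - l • (u * u)‖ ≤ 24 * ε) : ‖g X - l‖ ≤ 100 * √ε := by
  have hb := Pool.Agent.W658.Irrep.norm_bound g hadd hsm hpos hone
  have hs := sub hadd hsm hpos hone
  -- the element 1 - u
  have h1u : star (1 - u) = 1 - u := by rw [star_sub, star_one, hu]
  have e1 : (1 - u) * (1 - u) = 1 - (2 : ℂ) • u + u * u := by
    rw [sub_mul, one_mul, mul_sub, mul_one, two_smul]
    abel
  have g2 : g ((1 - u) * (1 - u)) = 1 - 2 * g u + g (u * u) := by
    rw [e1, hadd, hs, hone, hsm]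
  have huu : ‖u * u‖ ≤ 1 := (norm_mul_le _ _).trans (by nlinarith [norm_nonneg u])
  have guu : (g (u * u)).re ≤ 1 :=
    (Complex.re_le_norm _).trans ((hb _).trans huu)
  have guuP : 0 ≤ g (u * u) := by
    have := hpos u
    rwa [hu] at this
  have guu2 : (g u).re ^ 2 ≤ (g (u * u)).re := by
    have := Pool.Agent.W658.Irrep.cs g hadd hsm hpos hone u
    rw [hu] at this
    have h2 := Complex.abs_re_le_norm (g u)
    have h3 : |(g u).re| ^ 2 ≤ ‖g u‖ ^ 2 := pow_le_pow_left₀ (abs_nonneg _) h2 2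
    rw [sq_abs] at h3
    linarith
  have hq : (g ((1 - u) * (1 - u))).re ≤ 14 * ε := by
    rw [g2]
    simp only [Complex.add_re, Complex.sub_re, Complex.one_re, Complex.mul_re, Complex.re_ofNat,
      Complex.im_ofNat, zero_mul, sub_zero]
    linarith
  have hq0 : 0 ≤ (g ((1 - u) * (1 - u))).re := by
    have := hpos (1 - u)
    rw [h1u] at this
    exact (Complex.le_def.1 this).1
  set r : ℝ := √ε with hr
  have hr0 : 0 ≤ r := Real.sqrt_nonneg _
  have hr2 : r ^ 2 = ε := Real.sq_sqrt hε.le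
  have hr1 : r ≤ 1 / 10 := by
    rw [hr]
    refine Real.sqrt_le_iff.2 ⟨by norm_num, by norm_num; exact hε1⟩
  have t1 : ‖g ((1 - u) * X)‖ ≤ 4 * r := by
    have a1 := left hadd hsm hpos hone X (1 - u) h1u
    have a2 : ‖g ((1 - u) * X)‖ ^ 2 ≤ (4 * r) ^ 2 := by
      have a3 : ‖X‖ ^ 2 ≤ 1 := pow_le_one₀ (norm_nonneg _) hX
      have a4 : ‖X‖ ^ 2 * (g ((1 - u) * (1 - u))).re ≤ 1 * (14 * ε) :=
        mul_le_mul a3 hq hq0 (by norm_num)
      nlinarith
    exact le_of_sq_le_sq a2 (by positivity)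
  have t2 : ‖g (u * X * (1 - u))‖ ≤ 4 * r := by
    have a1 := right hadd hsm hpos hone (u * X) (1 - u) h1u
    have a2 : ‖g (u * X * (1 - u))‖ ^ 2 ≤ (4 * r) ^ 2 := by
      have a3 : ‖u * X‖ ^ 2 ≤ 1 := by
        refine pow_le_one₀ (norm_nonneg _) ((norm_mul_le _ _).trans ?_)
        nlinarith [norm_nonneg u, norm_nonneg X]
      have a4 : ‖u * X‖ ^ 2 * (g ((1 - u) * (1 - u))).re ≤ 1 * (14 * ε) :=
        mul_le_mul a3 hq hq0 (by norm_num)
      nlinarith
    exact le_of_sq_le_sq a2 (by positivity)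
  have t3 : ‖g (u * X * u) - l * g (u * u)‖ ≤ 24 * ε := by
    rw [← hsm, ← hs]
    exact (hb _).trans h
  have t4 : ‖l * g (u * u) - l‖ ≤ 14 * ε := by
    have e : l * g (u * u) - l = l * (g (u * u) - 1) := by ring
    rw [e, norm_mul]
    have a1 : ‖g (u * u) - 1‖ ≤ 14 * ε := by
      have a2 : g (u * u) = ((g (u * u)).re : ℂ) :=
        Complex.ext (by simp) (by simpa using (Complex.le_def.1 guuP).2.symm)
      rw [a2]
      have a3 : (((g (u * u)).re : ℂ) - 1) = (((g (u * u)).re - 1 : ℝ) : ℂ) := by push_cast; rfl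
      rw [a3, Complex.norm_real, Real.norm_eq_abs, abs_le]
      constructor
      · nlinarith
      · linarith
    calc ‖l‖ * ‖g (u * u) - 1‖ ≤ 1 * (14 * ε) := mul_le_mul hl a1 (norm_nonneg _) (by norm_num)
      _ = 14 * ε := one_mul _
  have e2 : X = (1 - u) * X + u * X * (1 - u) + u * X * u := by
    rw [sub_mul, one_mul, mul_sub, mul_one]
    abel
  have e3 : g X - l = g ((1 - u) * X) + g (u * X * (1 - u)) + (g (u * X * u) - l * g (u * u)) +
      (l * g (u * u) - l) := by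
    have : g X = g ((1 - u) * X) + g (u * X * (1 - u)) + g (u * X * u) := by
      rw [← hadd, ← hadd, ← e2]
    rw [this]
    ring
  rw [e3]
  have n1 := norm_add_le (g ((1 - u) * X) + g (u * X * (1 - u)) +
    (g (u * X * u) - l * g (u * u))) (l * g (u * u) - l)
  have n2 := norm_add_le (g ((1 - u) * X) + g (u * X * (1 - u))) (g (u * X * u) - l * g (u * u))
  have n3 := norm_add_le (g ((1 - u) * X)) (g (u * X * (1 - u)))
  nlinarith

end st

end unital

/-! ### the estimates on the maps -/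

section maps

variable {A B : Type u} [NonUnitalCStarAlgebra A] [NonUnitalCStarAlgebra B]

/-- product of two close pairs -/
theorem mul_close {x x' y y' : B} {c d : ℝ} (hx : ‖x‖ ≤ 1) (hy' : ‖y'‖ ≤ 1)
    (h1 : ‖x - x'‖ ≤ c) (h2 : ‖y - y'‖ ≤ d) : ‖x * y - x' * y'‖ ≤ c + d := by
  have e : x * y - x' * y' = x * (y - y') + (x - x') * y' := by
    rw [mul_sub, sub_mul]; abel
  rw [e]
  refine (norm_add_le _ _).trans ?_
  have a1 := norm_mul_le x (y - y')
  have a2 := norm_mul_le (x - x') y'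
  have a3 : ‖x‖ * ‖y - y'‖ ≤ 1 * d := mul_le_mul hx h2 (norm_nonneg _) (by norm_num)
  have a4 : ‖x - x'‖ * ‖y'‖ ≤ c * 1 := by
    refine mul_le_mul h1 hy' (norm_nonneg _) (le_trans (norm_nonneg _) h1)
  linarith

theorem mul1 {x y : B} (hx : ‖x‖ ≤ 1) (hy : ‖y‖ ≤ 1) : ‖x * y‖ ≤ 1 :=
  (norm_mul_le _ _).trans (by nlinarith [norm_nonneg x, norm_nonneg y])

variable {φ : A → B} {ε : ℝ}

/-- the image of `a' * a'` -/
theorem sq_close (hφ : AI φ ε) {a' : A} (ha' : ‖a'‖ ≤ 1) {b : B} (hb : IsSelfAdjoint b)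
    (hb1 : ‖b‖ ≤ 1) (h : ‖b - φ a'‖ ≤ ε) : ‖φ (star a' * a') - b * b‖ ≤ 4 * ε := by
  have hsa : ‖star a'‖ ≤ 1 := by rwa [norm_star]
  have h1 := hφ.mul (star a') a' hsa ha'
  have h2 := hφ.star a' ha'
  have h3 : ‖star (φ a') - b‖ ≤ ε := by
    have : star (φ a') - b = star (φ a' - b) := by rw [star_sub, hb.star_eq]
    rw [this, norm_star, norm_sub_rev]
    exact h
  have h4 : ‖φ (star a') - b‖ ≤ 2 * ε := by
    have e : φ (star a') - b = (φ (star a') - star (φ a')) + (star (φ a') - b) := by abel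
    rw [e]
    refine (norm_add_le _ _).trans (by linarith)
  have h5 : ‖φ a' - b‖ ≤ ε := by rw [norm_sub_rev]; exact h
  have h6 : ‖φ (star a') * φ a' - b * b‖ ≤ 2 * ε + ε :=
    mul_close (hφ.norm _ hsa) hb1 h4 h5
  have e : φ (star a' * a') - b * b =
      (φ (star a' * a') - φ (star a') * φ a') + (φ (star a') * φ a' - b * b) := by abel
  rw [e]
  refine (norm_add_le _ _).trans (by linarith)

/-- the estimate on `a x a - l a a` -/
theorem axa (hφ : AI φ ε) {a x : A} (ha : ‖a‖ ≤ 1) (hx : ‖x‖ ≤ 1) {b : B} (hb1 : ‖b‖ ≤ 1)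
    (hab : ‖φ a - b * b‖ ≤ 4 * ε) {l : ℂ} (hl : ‖l‖ ≤ 1)
    (hbx : ‖b * φ x * b - l • (b * b)‖ ≤ ε) : ‖a * x * a - l • (a * a)‖ ≤ 24 * ε := by
  have hax := mul1 ha hx
  have haxa := mul1 hax ha
  have haa := mul1 ha ha
  have hbb := mul1 hb1 hb1
  have hpa := hφ.norm a ha
  have hpx := hφ.norm x hx
  have hl2 : ‖-(l / 2)‖ ≤ 1 := by
    rw [norm_neg, norm_div, Complex.norm_ofNat]
    linarith
  have hh2 : ‖(1 / 2 : ℂ)‖ ≤ 1 := by norm_num
  -- the three approximations
  have k1 : ‖φ (a * x * a) - b * b * φ x * (b * b)‖ ≤ 10 * ε := by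
    have c1 := hφ.mul (a * x) a hax ha
    have c2 := hφ.mul a x ha hx
    have c3 : ‖φ (a * x) - b * b * φ x‖ ≤ 5 * ε := by
      have d1 : ‖φ a * φ x - b * b * φ x‖ ≤ 4 * ε + 0 :=
        mul_close hpa hpx hab (by rw [sub_self, norm_zero])
      have e : φ (a * x) - b * b * φ x = (φ (a * x) - φ a * φ x) + (φ a * φ x - b * b * φ x) := by
        abel
      rw [e]
      refine (norm_add_le _ _).trans (by linarith)
    have c4 : ‖φ (a * x) * φ a - b * b * φ x * (b * b)‖ ≤ 5 * ε + 4 * ε :=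
      mul_close (hφ.norm _ hax) hbb c3 hab
    have e : φ (a * x * a) - b * b * φ x * (b * b) =
        (φ (a * x * a) - φ (a * x) * φ a) + (φ (a * x) * φ a - b * b * φ x * (b * b)) := by abel
    rw [e]
    refine (norm_add_le _ _).trans (by linarith)
  have k2 : ‖φ (a * a) - b * b * (b * b)‖ ≤ 9 * ε := by
    have c1 := hφ.mul a a ha ha
    have c4 : ‖φ a * φ a - b * b * (b * b)‖ ≤ 4 * ε + 4 * ε :=
      mul_close hpa hbb hab hab
    have e : φ (a * a) - b * b * (b * b) =
        (φ (a * a) - φ a * φ a) + (φ a * φ a - b * b * (b * b)) := by abel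
    rw [e]
    refine (norm_add_le _ _).trans (by linarith)
  have k3 : ‖b * b * φ x * (b * b) - l • (b * b * (b * b))‖ ≤ ε := by
    have e : b * b * φ x * (b * b) - l • (b * b * (b * b)) =
        b * (b * φ x * b - l • (b * b)) * b := by
      rw [mul_sub, sub_mul, mul_smul_comm, smul_mul_assoc]
      simp only [mul_assoc]
    rw [e]
    refine (norm_mul_le _ _).trans ?_
    have d1 := norm_mul_le b (b * φ x * b - l • (b * b))
    have d2 := norm_nonneg (b * φ x * b - l • (b * b))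
    have d3 : ‖b‖ * ‖b * φ x * b - l • (b * b)‖ ≤ 1 * ε :=
      mul_le_mul hb1 hbx d2 (by norm_num)
    have d4 : ‖b * (b * φ x * b - l • (b * b))‖ ≤ ε := by linarith
    calc _ ≤ ε * 1 := mul_le_mul d4 hb1 (norm_nonneg _) (le_trans (norm_nonneg _) d4)
      _ = ε := mul_one _
  -- half of the element
  set z : A := (1 / 2 : ℂ) • (a * x * a) + (-(l / 2)) • (a * a) with hz
  have hz1 : ‖z‖ ≤ 1 := by
    rw [hz]
    refine (norm_add_le _ _).trans ?_
    have c1 : ‖(1 / 2 : ℂ)‖ = 1 / 2 := by norm_num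
    rw [norm_smul, norm_smul, c1, norm_neg, norm_div, Complex.norm_ofNat]
    have c2 : ‖l‖ / 2 * ‖a * a‖ ≤ 1 / 2 * 1 :=
      mul_le_mul (by linarith) haa (norm_nonneg _) (by norm_num)
    linarith
  have hlin := hφ.lin (a * x * a) (a * a) haxa haa (1 / 2) (-(l / 2)) hh2 hl2
  rw [← hz] at hlin
  have hpz : ‖φ z‖ ≤ 11 * ε := by
    have e : φ z = (φ z - (1 / 2 : ℂ) • φ (a * x * a) - (-(l / 2)) • φ (a * a)) +
        ((1 / 2 : ℂ) • (φ (a * x * a) - b * b * φ x * (b * b)) +
          (-(l / 2)) • (φ (a * a) - b * b * (b * b)) +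
          (1 / 2 : ℂ) • (b * b * φ x * (b * b) - l • (b * b * (b * b)))) := by
      simp only [smul_sub, smul_smul, neg_smul]
      rw [show (1 / 2 : ℂ) * l = l / 2 by ring]
      abel
    rw [e]
    have n1 := norm_add_le (φ z - (1 / 2 : ℂ) • φ (a * x * a) - (-(l / 2)) • φ (a * a))
        ((1 / 2 : ℂ) • (φ (a * x * a) - b * b * φ x * (b * b)) +
          (-(l / 2)) • (φ (a * a) - b * b * (b * b)) +
          (1 / 2 : ℂ) • (b * b * φ x * (b * b) - l • (b * b * (b * b))))
    have n2 := norm_add_le ((1 / 2 : ℂ) • (φ (a * x * a) - b * b * φ x * (b * b)) +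
          (-(l / 2)) • (φ (a * a) - b * b * (b * b)))
          ((1 / 2 : ℂ) • (b * b * φ x * (b * b) - l • (b * b * (b * b))))
    have n3 := norm_add_le ((1 / 2 : ℂ) • (φ (a * x * a) - b * b * φ x * (b * b)))
          ((-(l / 2)) • (φ (a * a) - b * b * (b * b)))
    rw [norm_smul, norm_smul] at n3
    rw [norm_smul] at n2
    have c1 : ‖(1 / 2 : ℂ)‖ = 1 / 2 := by norm_num
    rw [c1] at n2 n3
    have c2 : ‖-(l / 2)‖ * ‖φ (a * a) - b * b * (b * b)‖ ≤ 1 / 2 * (9 * ε) := by
      refine mul_le_mul ?_ k2 (norm_nonneg _) (by norm_num)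
      rw [norm_neg, norm_div, Complex.norm_ofNat]
      linarith
    linarith
  have hiso := hφ.iso z hz1
  have hzn : ‖z‖ ≤ 12 * ε := by
    have := (abs_le.1 hiso).2
    linarith
  have e : a * x * a - l • (a * a) = (2 : ℂ) • z := by
    rw [hz, smul_add, smul_smul, smul_smul]
    rw [show (2 : ℂ) * (1 / 2) = 1 by norm_num, show (2 : ℂ) * -(l / 2) = -l by ring, one_smul,
      neg_smul, sub_eq_add_neg]
  rw [e, norm_smul, Complex.norm_ofNat]
  linarith

end maps

end FState

open FState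

variable {A B : Type u} [NonUnitalCStarAlgebra A] [NonUnitalCStarAlgebra B]
  {H K : Type u} [NormedAddCommGroup H] [InnerProductSpace ℂ H] [CompleteSpace H]
  [NormedAddCommGroup K] [InnerProductSpace ℂ K] [CompleteSpace K]

theorem finite_state (hexc : ExcisionP.{u}) (φ : A → B) (ε : ℝ) (hε : 0 < ε) (hε1 : ε ≤ 1 / 100)
    (hφ : AI φ ε) (π : B →⋆ₙₐ[ℂ] (K →L[ℂ] K)) (hπ : Kap π) (κ : K) (hκ : ‖κ‖ = 1) (F : Finset A)
    (hF : ∀ x ∈ F, ‖x‖ ≤ 1) :
    ∃ g : A → ℂ, PF g ∧ ∀ x ∈ F, ‖g x - ⟪κ, π (φ x) κ⟫_ℂ‖ ≤ 100 * √ε := by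
  classical
  obtain ⟨b, hb, hb1, hb2, hbF⟩ := hexc B K π hπ κ hκ (F.image φ) ε hε
  obtain ⟨a', ha', hba'⟩ := hφ.surj b hb1
  have hsq := sq_close hφ ha' hb hb1 hba'
  have hsa : ‖star a'‖ ≤ 1 := by rwa [norm_star]
  have ha1 : ‖star a' * a'‖ ≤ 1 := mul1 hsa ha'
  -- lower bound of the norm
  have hbb : ‖b * b‖ = ‖b‖ * ‖b‖ := by
    have := CStarRing.norm_star_mul_self (x := b)
    rwa [hb.star_eq] at this
  have hlow : 1 - 7 * ε ≤ ‖star a' * a'‖ := by
    have h1 := (abs_le.1 (hφ.iso _ ha1)).1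
    have h2 : ‖b * b‖ ≤ ‖φ (star a' * a')‖ + 4 * ε := by
      have e : b * b = φ (star a' * a') - (φ (star a' * a') - b * b) := by abel
      rw [e]
      refine (norm_sub_le _ _).trans (by linarith)
    rw [hbb] at h2
    nlinarith
  -- the state
  have hC : Nontrivial (Unitization ℂ A) := inferInstance
  obtain ⟨g, hadd, hsm, hpos, hone, hg⟩ := norming ((a' : A) : Unitization ℂ A)
  have ei : star ((a' : A) : Unitization ℂ A) * ((a' : A) : Unitization ℂ A) =
      ((star a' * a' : A) : Unitization ℂ A) := by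
    rw [Unitization.inr_mul, Unitization.inr_star]
  rw [ei, Unitization.norm_inr] at hg
  refine ⟨fun x => g (x : Unitization ℂ A), ?_, ?_⟩
  · refine ⟨?_, ?_, ?_, ?_, ?_⟩
    · intro x y
      rw [Unitization.inr_add, hadd]
    · intro c x
      rw [Unitization.inr_smul, hsm]
    · intro x
      have := hpos (x : Unitization ℂ A)
      rwa [← Unitization.inr_star, ← Unitization.inr_mul] at this
    · intro x
      have := Pool.Agent.W658.Irrep.cs g hadd hsm hpos hone (x : Unitization ℂ A)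
      rwa [← Unitization.inr_star, ← Unitization.inr_mul] at this
    · intro x
      have := Pool.Agent.W658.Irrep.norm_bound g hadd hsm hpos hone (x : Unitization ℂ A)
      rwa [Unitization.norm_inr] at this
  · intro x hx
    have hx1 := hF x hx
    have hl : ‖⟪κ, π (φ x) κ⟫_ℂ‖ ≤ 1 := by
      refine (norm_inner_le_norm _ _).trans ?_
      rw [hκ, one_mul]
      refine ((π (φ x)).le_opNorm κ).trans ?_
      rw [hκ, mul_one]
      exact (NonUnitalStarAlgHom.norm_apply_le π (φ x)).trans (hφ.norm x hx1)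
    have hbx := hbF (φ x) (Finset.mem_image_of_mem φ hx)
    have h1 := axa hφ ha1 hx1 hb1 hsq hl hbx
    refine main hadd hsm hpos hone (u := ((star a' * a' : A) : Unitization ℂ A)) hε hε1 ?_ ?_ ?_ hl
      ?_ ?_
    · rw [← Unitization.inr_star, star_mul, star_star]
    · rw [Unitization.norm_inr]; exact ha1
    · rw [Unitization.norm_inr]; exact hx1
    · rw [hg, Complex.ofReal_re]; exact hlow
    · rw [← Unitization.inr_mul, ← Unitization.inr_mul, ← Unitization.inr_mul,
        ← Unitization.inr_smul, ← Unitization.inr_sub, Unitization.norm_inr]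
      exact h1

end Pool.Agent.TH387.EI

end
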