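import Pool.Agent.TH563.V.Defs
import Pool.Agent.TH563.Z.Gx2

/-!
# Step at a vertex with a circle: expansions, general edge
-/

set_option autoImplicit false
set_option maxHeartbeats 1000000

namespace Pool.Agent.TH416.J1740

open Finset Filter Topology Metric
open Pool.Agent.W711.HT hiding XX
open Pool.Agent.TH563.UV
open Pool.Agent.TH563.V
open Pool.Agent.TH563.Z (XB gh_up)
open Pool.Agent.W719.AX (UX GX Rl ig S_LOCX)
open Pool.Agent.W85.HT hiding Rc_mono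
open Pool.Agent.W293.HT
open Pool.Agent.W688.AX (isOpen_Rcx cont2 unif_neg sq3_ev sqrt4 nbhd)
open Pool.Agent.TH929.J29 (UN_diff locb locxb even_deriv_zero)
open scoped Real

section

variable {ρ τ κ c C : ℝ} {U : Set ℂ} {k : ℕ → ℂ → ℂ → ℂ} {σ : ℂ → ℂ → ℂ} {κ₁ c₁ C₁ : ℝ}
  {t m : ℕ} {X : ℕ → ℂ → ℂ} {F : ℂ → ℂ}

/-- the functions `σ(·, p)` -/
theorem s_diff1 (hs : DifferentiableOn ℂ (fun p : ℂ × ℂ => σ p.1 p.2)
    (Rc (3 * ρ) (3 * τ) ×ˢ U)) {p : ℂ} (hp : p ∈ U) :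
    DifferentiableOn ℂ (fun w => σ w p) (Rc (3 * ρ) (3 * τ)) := by
  have : DifferentiableOn ℂ (fun w : ℂ => (w, p)) (Rc (3 * ρ) (3 * τ)) :=
    (differentiable_id.prodMk (differentiable_const p)).differentiableOn
  exact hs.comp this (fun w hw => ⟨hw, hp⟩)

/-- the functions `σ(w, ·)` -/
theorem s_diff2 (hs : DifferentiableOn ℂ (fun p : ℂ × ℂ => σ p.1 p.2)
    (Rc (3 * ρ) (3 * τ) ×ˢ U)) {w : ℂ} (hw : w ∈ Rc (3 * ρ) (3 * τ)) :
    DifferentiableOn ℂ (fun p => σ w p) U := by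
  have : DifferentiableOn ℂ (fun p : ℂ => (w, p)) U :=
    ((differentiable_const w).prodMk differentiable_id).differentiableOn
  exact hs.comp this (fun p hp => ⟨hw, hp⟩)

/-- the size of `X_N` near the segment `[-ρ, ρ]` -/
lemma X_near (hρ : 0 < ρ) (hτ : 0 < τ) (hF : DifferentiableOn ℂ F (Rc (3 * ρ) (3 * τ)))
    (hmw : MW X F (Rc (2 * ρ) (2 * τ)))
    (hre : ∀ x : ℝ, |x| ≤ ρ → (F x).re ≤ (F 0).re) {ε : ℝ} (hε : 0 < ε) :
    ∀ᶠ N : ℕ in atTop, ∀ x y : ℝ, |x| ≤ ρ → |y| ≤ 1 / N →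
      ‖X N (x + y * Complex.I)‖ ≤ Real.exp (N * ((F 0).re + ε)) := by
  have hKK : Kc (2 * ρ) (2 * τ) ⊆ Rc (3 * ρ) (3 * τ) := by
    intro w hw
    rw [Kc_mem] at hw
    exact ⟨by linarith [hw.1], by linarith [hw.2]⟩
  have huc := (Kc_compact (2 * ρ) (2 * τ)).uniformContinuousOn_of_continuous
    (hF.continuousOn.mono hKK)
  rw [Metric.uniformContinuousOn_iff] at huc
  obtain ⟨δ, hδ, hδ2⟩ := huc (ε / 2) (by positivity)
  have hev : ∀ᶠ N : ℕ in atTop, (1 : ℝ) / N < min τ δ := by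
    have : Tendsto (fun N : ℕ => (1 : ℝ) / (N : ℝ)) atTop (𝓝 0) :=
      tendsto_const_div_atTop_nhds_zero_nat _
    exact this.eventually_lt_const (lt_min hτ hδ)
  filter_upwards [hmw (ε / 2) (by positivity), hev] with N h1 h3 x y hx hy
  have hN' : (0 : ℝ) ≤ N := Nat.cast_nonneg N
  have h3a : (1 : ℝ) / N < τ := h3.trans_le (min_le_left _ _)
  have h3b : (1 : ℝ) / N < δ := h3.trans_le (min_le_right _ _)
  have m1 : ((x : ℂ) + y * Complex.I) ∈ Rc (2 * ρ) (2 * τ) := by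
    refine ⟨?_, ?_⟩
    · rw [xy_re]; linarith
    · rw [xy_im]; linarith
  have m2 : ((x : ℂ) + y * Complex.I) ∈ Kc (2 * ρ) (2 * τ) := by
    rw [Kc_mem]
    exact ⟨m1.1.le, m1.2.le⟩
  have m3 : (x : ℂ) ∈ Kc (2 * ρ) (2 * τ) := by
    rw [Kc_mem, Complex.ofReal_re, Complex.ofReal_im, abs_zero]
    exact ⟨by linarith, by linarith⟩
  obtain ⟨k1, k2⟩ := h1 _ m1
  rw [← Real.log_le_iff_le_exp (norm_pos_iff.2 k1)]
  have k3 := (abs_le.1 k2).2
  have k4 := hδ2 _ m2 _ m3 (by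
    rw [dist_eq_norm, add_sub_cancel_left, norm_mul, Complex.norm_I, Complex.norm_real,
      Real.norm_eq_abs, mul_one]
    linarith)
  rw [dist_eq_norm] at k4
  have k5 := (Complex.re_le_norm _).trans k4.le
  rw [Complex.sub_re] at k5
  have k6 := hre x hx
  have k8 : (F (x + y * Complex.I)).re ≤ (F 0).re + ε / 2 := by linarith
  have k9 := mul_le_mul_of_nonneg_left k8 hN'
  linarith

/-- the bound of `X_N` near the real axis -/
lemma xb_v (hρ : 0 < ρ) (hτ : 0 < τ) (hκ₁ : 0 < κ₁) (hc₁ : 0 < c₁)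
    (hX : GoodV ρ τ κ₁ c₁ C₁ t X F) : XB X (F 0).re := by
  intro ε hε
  have hre : ∀ x : ℝ, |x| ≤ ρ → (F x).re ≤ (F 0).re := by
    intro x hx
    have h1 := real_axis hX.gh hτ hρ x hx
    have h2 : 0 ≤ c₁ * (t : ℝ) / 2 * x ^ 2 := by positivity
    linarith
  filter_upwards [X_near hρ hτ hX.gh.an hX.mw hre hε, hX.gl1] with N h1 h2 x y hx hy
  rcases le_total |x| ρ with h | h
  · exact h1 x y h hy
  · refine (h2 x y h hx hy).trans (Real.exp_le_exp.2 ?_)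
    apply mul_le_mul_of_nonneg_left _ (Nat.cast_nonneg N)
    have : 0 ≤ (t : ℝ) * (κ₁ / 2) := by positivity
    linarith

/-- bounds of the second derivative of the sum -/
lemma gh_v (hK : ED ρ τ κ c C U k σ) (hc₁ : 0 < c₁) (hC₁ : 0 < C₁)
    (hX : GoodV ρ τ κ₁ c₁ C₁ t X F) :
    ∃ L : ℝ, 0 ≤ L ∧ ∀ p ∈ U, GH ρ τ c L (fun w => F w + σ w p) := by
  have hρ0 := hK.hρ.1
  have hτ0 := hK.hτ.1
  have hτρ := hK.hτ.2
  have hC := hK.hC
  have hUc := isOpen_Rc (3 * ρ) (3 * τ)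
  have hsub23 : Rc (2 * ρ) (2 * τ) ⊆ Rc (3 * ρ) (3 * τ) := Rc_mono (by linarith) (by linarith)
  refine ⟨C₁ * (t : ℝ) + 8 * C / τ ^ 2, by positivity, ?_⟩
  intro p hp
  have hsd := s_diff1 hK.san hp
  refine ⟨hX.gh.an.add hsd, ?_, ?_, ?_⟩
  · intro w hw
    show F (-w) + σ (-w) p = F w + σ w p
    rw [hX.gh.ev w hw, hK.ev w hw p hp]
  · intro w hw
    rw [dd_add hUc hX.gh.an hsd (hsub23 hw), Complex.add_re]
    have e1 := hX.gh.d2 w hw
    have e2 := hK.conc w (hsub23 hw) p hp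
    have e3 : 0 ≤ c₁ * (t : ℝ) := by positivity
    linarith
  · intro w hw
    rw [dd_add hUc hX.gh.an hsd (hsub23 hw)]
    refine (norm_add_le _ _).trans ?_
    have e1 := hX.gh.d2b w hw
    have e2 := cauchy2 (g := fun w => σ w p) hτ0 hτρ hsd
      (fun z hz => hK.sbd z hz p hp) hw
    linarith

/-- asymptotics of the product with the kernel -/
lemma mw_pr (hK : ED ρ τ κ c C U k σ) (hX : GoodV ρ τ κ₁ c₁ C₁ t X F) :
    ∀ ε' : ℝ, 0 < ε' → ∀ᶠ N : ℕ in atTop, ∀ w ∈ Rc (2 * ρ) (2 * τ),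
      ∀ p ∈ U, X N w * k N w p ≠ 0 ∧
        |Real.log ‖X N w * k N w p‖ - N * (F w + σ w p).re| ≤ ε' * N := by
  intro ε' hε'
  have hρ0 := hK.hρ.1
  have hτ0 := hK.hτ.1
  filter_upwards [hX.mw (ε' / 2) (by positivity), hK.mw (ε' / 2) (by positivity)] with
    N h1 h2 w hw p hp
  obtain ⟨k1, k2⟩ := h1 w hw
  obtain ⟨k3, k4⟩ := h2 w (Rc_mono (by linarith) (by linarith) hw) p hp
  refine ⟨mul_ne_zero k1 k3, ?_⟩
  rw [norm_mul, Real.log_mul (norm_ne_zero_iff.2 k1) (norm_ne_zero_iff.2 k3), Complex.add_re]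
  rw [abs_le] at k2 k4 ⊢
  constructor
  · linarith [k2.1, k4.1]
  · linarith [k2.2, k4.2]

/-- far from `0` -/
lemma far_pr (hK : ED ρ τ κ c C U k σ) (hB : XB X (F 0).re) :
    ∀ᶠ N : ℕ in atTop, ∀ p ∈ U, ∀ x y : ℝ, ρ ≤ |x| → |x| ≤ π → |y| ≤ 1 / N →
      ‖X N (x + y * Complex.I) * k N (x + y * Complex.I) p‖ ≤
        Real.exp (N * ((F 0).re + (σ 0 p).re - 3 / 4 * κ)) := by
  have hκ := hK.hκ.1
  filter_upwards [hB (κ / 4) (by positivity), hK.far] with N h1 h2 p hp x y hx1 hx2 hy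
  have k1 := h1 x y hx2 hy
  have k2 := h2 x y hx1 hx2 hy p hp
  rw [norm_mul]
  refine (mul_le_mul k1 k2 (norm_nonneg _) (Real.exp_pos _).le).trans ?_
  rw [← Real.exp_add, ← mul_add]
  apply Real.exp_le_exp.2
  apply mul_le_mul_of_nonneg_left _ (Nat.cast_nonneg N)
  linarith

end

/-- the step at a vertex with a circle, expansions -/
theorem vtx : S_VTX := by
  intro ρ τ κ c C U k σ hK κ₁' c₁ C₁ hκ₁' hc₁ hC₁ t X F hX ρ₂ τ₂ V W Ak hρ₂ hτ₂ hAk hW hVW hWU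
    m A hA a hst
  have hρ0 := hK.hρ.1
  have hρ1 := hK.hρ.2
  have hτ0 := hK.hτ.1
  have hτρ := hK.hτ.2
  have hκ := hK.hκ.1
  have hc := hK.hc
  have hπ := Real.pi_gt_three
  have hρ20 := hAk.hρ
  have hτ20 := hAk.hτ
  have hUc := isOpen_Rc (3 * ρ) (3 * τ)
  have h0c : (0 : ℂ) ∈ Rc (3 * ρ) (3 * τ) := zero_mem_Rc (by linarith) (by linarith)
  have hVU : V ⊆ U := hVW.trans hWU
  have hR2 : Rc ρ₂ τ₂ ⊆ Rc (3 * ρ) (3 * τ) := Rc_mono (by linarith) (by linarith)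
  have hsd : ∀ p ∈ U, DifferentiableOn ℂ (fun w => σ w p) (Rc (3 * ρ) (3 * τ)) :=
    fun p hp => s_diff1 hK.san hp
  have hre : ∀ p : ℂ, (F 0 + π * Complex.I + σ 0 p).re = (F 0 + σ 0 p).re := by
    intro p
    rw [Complex.add_re, Complex.add_re, Complex.add_re]
    simp
  have hB := xb_v hρ0 hτ0 hκ₁' hc₁ hX
  obtain ⟨L, hL, hgh⟩ := gh_v hK hc₁ hC₁ hX
  have hdec : ∀ p ∈ W, ∀ x : ℝ, |x| ≤ ρ →
      (F x + σ x p).re ≤ (F 0 + σ 0 p).re - c / 2 * x ^ 2 := fun p hp x hx =>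
    real_axis (hgh p (hWU hp)) hτ0 hρ0 x hx
  have hmw : ∀ ε' : ℝ, 0 < ε' → ∀ᶠ N : ℕ in atTop, ∀ w ∈ Rc (2 * ρ) (2 * τ),
      ∀ p ∈ W, X N w * k N w p ≠ 0 ∧
        |Real.log ‖X N w * k N w p‖ - N * (F w + σ w p).re| ≤ ε' * N := by
    intro ε' hε'
    filter_upwards [mw_pr hK hX ε' hε'] with N h1 w hw p hp
    exact h1 w hw p (hWU hp)
  obtain ⟨κ₁, hκ₁, hloc⟩ := locb upb (a := a) (K := W)
    (Y := fun N w p => X N w * k N w p) (G := fun w p => F w + σ w p)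
    (c₀ := c / 2) (L := L) (τ₁ := τ) hρ0 (by linarith) hτ0 hτ0
    (fun N p hp => (hX.an N).mul (hK.kan N p (hWU hp))) hmw (by positivity) hL
    hdec
    (fun p hp x y hx hy hy' => gh_up (hgh p (hWU hp)) hρ0 hτ0 hL hx hy hy')
    ⟨3 / 4 * κ, by positivity, by
      filter_upwards [far_pr hK hB] with N h1 p hp x y hx1 hx2 hy
      rw [Complex.add_re]
      exact h1 p (hWU hp) x y hx1 hx2 hy⟩
  have hF'd : DifferentiableOn ℂ (fun p => F 0 + π * Complex.I + σ 0 p) U :=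
    (s_diff2 hK.san h0c).const_add _
  obtain ⟨BF, hBF⟩ := (Kc_compact ρ₂ τ₂).exists_bound_of_continuousOn
    (hX.gh.an.continuousOn.mono (show Kc ρ₂ τ₂ ⊆ Rc (3 * ρ) (3 * τ) from by
      intro w hw
      rw [Kc_mem] at hw
      exact ⟨by linarith [hw.1], by linarith [hw.2]⟩))
  have hSKc : Rc ρ₂ τ₂ ⊆ Kc ρ₂ τ₂ := by
    intro w hw
    rw [Kc_mem]
    exact ⟨hw.1.le, hw.2.le⟩
  have hball : ∀ u ∈ ball (0 : ℂ) (min ρ₂ τ₂), u ∈ Rc ρ₂ τ₂ := by
    intro u hu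
    rw [mem_ball, dist_zero_right] at hu
    have h1 := Complex.abs_re_le_norm u
    have h2 := Complex.abs_im_le_norm u
    have h3 := min_le_left ρ₂ τ₂
    have h4 := min_le_right ρ₂ τ₂
    exact ⟨by linarith, by linarith⟩
  obtain ⟨B, hB', hB0⟩ := locxb Pool.Agent.W719.AX.f_LX Pool.Agent.W303.AX.uxmul
    (δ := min ρ₂ τ₂) (c := c) (a := a)
    (S := V) (X := X) (F := F) (A := A)
    (k := fun N w p => (((Real.sqrt N) ^ 3 : ℝ) : ℂ) * Complex.exp (-(N * σ w p)) * k N w p)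
    (k' := Ak)
    (σ := σ) (V := fun p => F 0 + σ 0 p)
    (W := fun N p => ((Real.sqrt N : ℝ) : ℂ) ^ 3 * stk a (fun N w => UN N w * X N w) k N p)
    (lt_min hρ20 hτ20) hc hA hX.an (hX.gh.an.mono hR2) hball
    ⟨max BF C, fun w hw => ⟨(hBF w (hSKc hw)).trans (le_max_left _ _), fun p hp =>
      (hK.sbd w (hR2 hw) p (hVU hp)).trans (le_max_right _ _)⟩⟩
    (by
      intro N p hp
      have h1 : ContinuousOn (fun w => σ w p) (Rc ρ₂ τ₂) :=
        ((hsd p (hVU hp)).mono hR2).continuousOn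
      have h2 : ContinuousOn (fun w => k N w p) (Rc ρ₂ τ₂) :=
        (hK.kan N p (hVU hp)).continuous.continuousOn
      exact (continuousOn_const.mul
        (Complex.continuous_exp.comp_continuousOn (continuousOn_const.mul h1).neg)).mul h2)
    (fun p hp => (hsd p (hVU hp)).mono hR2) hAk.ux (fun n p hp => hAk.d1 n p hp) hAk.nz
    (by
      intro p hp
      have hG := hgh p (hVU hp)
      exact ⟨rfl, hG.d0 hρ0 hτ0, hG.d2 0 (zero_mem_Rc (by linarith) (by linarith))⟩)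
    (by
      intro δ' hδ'0 hδ'
      have hδρ : δ' ≤ ρ := by
        have := min_le_left ρ₂ τ₂
        linarith
      obtain ⟨κ₂, hκ₂, hout⟩ := Pool.Agent.TH929.J29.outer (a := a) (K := W)
        (Y := fun N w p => X N w * k N w p) (G := fun w p => F w + σ w p)
        (c₀ := c / 2) hρ0 (by linarith) hτ0 hδ'0 hδρ
        (fun N p hp => (hX.an N).mul (hK.kan N p (hWU hp))) hmw (by positivity)
        hdec
      refine ⟨min κ₁ κ₂ / 2, by have := lt_min hκ₁ hκ₂; positivity, ?_⟩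
      filter_upwards [hloc, hout, sq3_ev (κ := min κ₁ κ₂ / 4)
        (by have := lt_min hκ₁ hκ₂; positivity), ev_exp (show 0 < min κ₁ κ₂ / 4 by
          have := lt_min hκ₁ hκ₂; positivity) 2] with N h1 h2 h3 h4 p hp
      have hN' : (0 : ℝ) ≤ N := Nat.cast_nonneg N
      have k1 := h1 p (hVW hp)
      have k2 := h2 p (hVW hp)
      obtain ⟨Q, hQ⟩ : ∃ Q : ℝ, Q = (F 0 + σ 0 p).re := ⟨_, rfl⟩
      rw [← hQ] at k1 k2
      have e1 : (∫ x in (-δ')..δ', Ea a N x *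
          (X N x * (Complex.exp (N * σ x p) *
            ((((Real.sqrt N) ^ 3 : ℝ) : ℂ) * Complex.exp (-(N * σ x p)) * k N x p)))) =
          ((Real.sqrt N : ℝ) : ℂ) ^ 3 * ∫ x in (-δ')..δ', Ea a N x *
            (X N x * k N x p) := by
        rw [← intervalIntegral.integral_const_mul]
        congr 1
        funext x
        have e2 : Complex.exp (N * σ x p) * Complex.exp (-(N * σ x p)) = 1 := by
          rw [← Complex.exp_add, add_neg_cancel, Complex.exp_zero]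
        push_cast
        linear_combination (Ea a N x * X N x * ((Real.sqrt N : ℝ) : ℂ) ^ 3 *
          k N x p) * e2
      have e0 : stk a (fun N w => UN N w * X N w) k N p =
          upp (1 / N) fun w => Ea a N w * (UN N w * (X N w * k N w p)) * kr N w := by
        unfold stk
        congr 1
        funext w
        ring
      rw [e1, e0]
      obtain ⟨I1, hI1⟩ : ∃ I1 : ℂ, I1 = ∫ x in (-ρ)..ρ, Ea a N x *
        (X N x * k N x p) := ⟨_, rfl⟩
      obtain ⟨I2, hI2⟩ : ∃ I2 : ℂ, I2 = ∫ x in (-δ')..δ', Ea a N x *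
        (X N x * k N x p) := ⟨_, rfl⟩
      rw [← hI1] at k1 k2
      rw [← hI2] at k2 ⊢
      obtain ⟨T, hT⟩ : ∃ T : ℂ, T = upp (1 / N) fun w => Ea a N w * (UN N w *
        (X N w * k N w p)) * kr N w := ⟨_, rfl⟩
      rw [← hT] at k1 ⊢
      have e3 : ((Real.sqrt N : ℝ) : ℂ) ^ 3 * T - (-Complex.I) * (((Real.sqrt N : ℝ) : ℂ) ^ 3 * I2)
          = ((Real.sqrt N : ℝ) : ℂ) ^ 3 * ((T - (-Complex.I) * I1) +
            (-Complex.I) * (I1 - I2)) := by ring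
      rw [e3, norm_mul]
      have h5 : ‖((Real.sqrt N : ℝ) : ℂ) ^ 3‖ = (Real.sqrt N) ^ 3 := by
        rw [norm_pow, Complex.norm_real, Real.norm_eq_abs, abs_of_nonneg (Real.sqrt_nonneg _)]
      rw [h5]
      have k3 : ‖(T - (-Complex.I) * I1) + (-Complex.I) * (I1 - I2)‖ ≤
          Real.exp (min κ₁ κ₂ / 4 * N) * Real.exp (N * (Q - min κ₁ κ₂)) := by
        refine (norm_add_le _ _).trans ?_
        rw [norm_mul (-Complex.I), norm_neg, Complex.norm_I, one_mul]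
        have a1 : Real.exp (N * (Q - κ₁)) ≤ Real.exp (N * (Q - min κ₁ κ₂)) :=
          Real.exp_le_exp.2 (mul_le_mul_of_nonneg_left
            (by linarith [min_le_left κ₁ κ₂]) hN')
        have a2 : Real.exp (N * (Q - κ₂)) ≤ Real.exp (N * (Q - min κ₁ κ₂)) :=
          Real.exp_le_exp.2 (mul_le_mul_of_nonneg_left
            (by linarith [min_le_right κ₁ κ₂]) hN')
        have a3 := mul_le_mul_of_nonneg_right h4 (Real.exp_pos (N * (Q - min κ₁ κ₂))).le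
        linarith
      refine (mul_le_mul h3 k3 (norm_nonneg _) (Real.exp_pos _).le).trans ?_
      rw [← Real.exp_add, ← Real.exp_add]
      apply le_of_eq
      congr 1
      rw [hQ]
      ring)
  have hfun : (fun (N : ℕ) (z : ℂ) => (N : ℂ) ^ (2 * (m + 1)) * (-1) ^ (N * (m + 1)) *
      Complex.exp (-(N * (F 0 + π * Complex.I + σ 0 z))) *
        stk a (fun N w => UN N w * X N w) k N z) =
      (fun (N : ℕ) (p : ℂ) => (N : ℂ) ^ (2 * m) *
      (Real.sqrt N : ℂ) * (-1) ^ (N * m) *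
      Complex.exp (-(N * (F 0 + σ 0 p))) * (((Real.sqrt N : ℝ) : ℂ) ^ 3 *
        stk a (fun N w => UN N w * X N w) k N p)) := by
    funext N p
    have e := sqrt4 N
    have e3 : (N : ℂ) ^ (2 * (m + 1)) = (N : ℂ) ^ (2 * m) * (N : ℂ) ^ 2 := by ring
    have e4 : Complex.exp (-(N * (F 0 + π * Complex.I + σ 0 p))) =
        Complex.exp (-(N * (F 0 + σ 0 p))) * (-1) ^ N := by
      have e5 : -((N : ℂ) * (F 0 + π * Complex.I + σ 0 p)) =
          -(N * (F 0 + σ 0 p)) + -((N : ℂ) * (π * Complex.I)) := by ring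
      rw [e5, Complex.exp_add, Complex.exp_neg (N * (π * Complex.I)), Complex.exp_nat_mul,
        Complex.exp_pi_mul_I, ← inv_pow]
      norm_num
    have e5 : ((-1 : ℂ)) ^ (N * (m + 1)) * (-1) ^ N = (-1) ^ (N * m) := by
      rw [Nat.mul_add, mul_one, pow_add, mul_assoc, ← pow_add, ← two_mul, pow_mul]
      norm_num
    rw [e3, ← e, e4, ← e5]
    ring
  have hux : UX (fun (N : ℕ) (z : ℂ) => (N : ℂ) ^ (2 * (m + 1)) * (-1) ^ (N * (m + 1)) *
      Complex.exp (-(N * (F 0 + π * Complex.I + σ 0 z))) *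
        stk a (fun N w => UN N w * X N w) k N z) B V := by
    rw [hfun]
    exact hB'
  refine ⟨B, hux, ?_, hB0⟩
  refine Pool.Agent.W303.AX.uxan _ B V hAk.hV ?_ hux
  filter_upwards with N
  have h1 : DifferentiableOn ℂ (fun z => Complex.exp (-((N : ℂ) *
      (F 0 + π * Complex.I + σ 0 z)))) V :=
    (((hF'd.mono hVU).const_mul (N : ℂ)).neg).cexp
  exact (h1.const_mul ((N : ℂ) ^ (2 * (m + 1)) * (-1) ^ (N * (m + 1)))).mul (hst N)

end Pool.Agent.TH416.J1740
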