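import Pool.Agent.TH599.VR.Defs

/-!
# VR-B (job 2564, helper416 for helper599): the l1-sum of cubes is a linear image of the l1 ball
-/

set_option autoImplicit false

open Pool.Agent.TH599.VR

namespace Pool.Agent.TH416.J2564

/-- the sign of a Boolean -/
def sg (b : Bool) : ℝ := if b then 1 else -1

lemma abs_sg (b : Bool) : |sg b| = 1 := by cases b <;> simp [sg]

/-- the map, on functions -/
def Lm (J m : ℕ) : ((Fin J × (Fin m → Bool)) → ℝ) →ₗ[ℝ] (Fin J × Fin m → ℝ) where
  toFun a := fun q => ∑ s, a (q.1, s) * sg (s q.2)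
  map_add' a b := by
    funext q
    simp only [Pi.add_apply, add_mul, Finset.sum_add_distrib]
  map_smul' c a := by
    funext q
    simp only [Pi.smul_apply, smul_eq_mul, RingHom.id_apply, Finset.mul_sum, mul_assoc]

/-- the weights -/
noncomputable def f {m : ℕ} (y : Fin m → ℝ) (i : Fin m) (b : Bool) : ℝ := (1 + sg b * y i) / 2

lemma sum_f {m : ℕ} (y : Fin m → ℝ) (i : Fin m) : ∑ b, f y i b = 1 := by
  rw [Fintype.sum_bool]
  unfold f sg
  simp only [if_true, Bool.false_eq_true, if_false]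
  ring

lemma sum_f_sg {m : ℕ} (y : Fin m → ℝ) (i : Fin m) : ∑ b, f y i b * sg b = y i := by
  rw [Fintype.sum_bool]
  unfold f sg
  simp only [if_true, Bool.false_eq_true, if_false]
  ring

lemma sum_prod_f {m : ℕ} (y : Fin m → ℝ) : ∑ s : Fin m → Bool, ∏ i, f y i (s i) = 1 := by
  have h := Finset.prod_univ_sum (fun _ : Fin m => (Finset.univ : Finset Bool)) (f y)
  rw [Fintype.piFinset_univ] at h
  rw [← h]
  exact Finset.prod_eq_one fun i _ => sum_f y i

lemma sum_prod_f_sg {m : ℕ} (y : Fin m → ℝ) (i0 : Fin m) :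
    ∑ s : Fin m → Bool, (∏ i, f y i (s i)) * sg (s i0) = y i0 := by
  classical
  have h := Finset.prod_univ_sum (fun _ : Fin m => (Finset.univ : Finset Bool))
    (fun i b => f y i b * (if i = i0 then sg b else 1))
  rw [Fintype.piFinset_univ] at h
  have h2 : ∀ s : Fin m → Bool, ∏ i, (f y i (s i) * (if i = i0 then sg (s i) else 1)) =
      (∏ i, f y i (s i)) * sg (s i0) := by
    intro s
    rw [Finset.prod_mul_distrib]
    congr 1
    rw [Finset.prod_ite_eq' Finset.univ i0 fun i => sg (s i)]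
    simp
  simp only [h2] at h
  rw [← h, Finset.prod_eq_single i0]
  · simp only [if_true]
    exact sum_f_sg y i0
  · intro i _ hi
    simp only [if_neg hi, mul_one]
    exact sum_f y i
  · intro h3
    exact absurd (Finset.mem_univ _) h3

theorem cubes_eq_image (J m : ℕ) :
    ∃ L : ((Fin J × (Fin m → Bool)) → ℝ) →ₗ[ℝ] EuclideanSpace ℝ (Fin J × Fin m),
      L '' l1ball (Fin J × (Fin m → Bool)) = cubes J m := by
  refine ⟨(WithLp.linearEquiv 2 ℝ (Fin J × Fin m → ℝ)).symm.toLinearMap ∘ₗ Lm J m, ?_⟩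
  ext x
  constructor
  · rintro ⟨a, ha, rfl⟩
    have ha' : ∑ q, |a q| ≤ 1 := ha
    rw [Fintype.sum_prod_type] at ha'
    refine le_trans (Finset.sum_le_sum fun j _ => ?_) ha'
    refine (pi_norm_le_iff_of_nonneg (Finset.sum_nonneg fun _ _ => abs_nonneg _)).2 fun i => ?_
    show |∑ s, a (j, s) * sg (s i)| ≤ _
    refine (Finset.abs_sum_le_sum_abs _ _).trans (Finset.sum_le_sum fun s _ => ?_)
    rw [abs_mul, abs_sg, mul_one]
  · intro hx
    have hx' : ∑ j : Fin J, ‖(fun i : Fin m => x (j, i))‖ ≤ 1 := hx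
    set t : Fin J → ℝ := fun j => ‖(fun i : Fin m => x (j, i))‖ with ht
    have ht0 : ∀ j, 0 ≤ t j := fun j => norm_nonneg _
    have hxt : ∀ j i, |x (j, i)| ≤ t j := fun j i => by
      have := norm_le_pi_norm (fun i : Fin m => x (j, i)) i
      exact this
    set y : Fin J → Fin m → ℝ := fun j i => x (j, i) / t j with hy
    have hyt : ∀ j i, t j * y j i = x (j, i) := by
      intro j i
      rcases (ht0 j).eq_or_lt with h | h
      · have h2 := hxt j i
        rw [← h] at h2
        rw [abs_nonpos_iff.1 h2, ← h, zero_mul]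
      · rw [hy]
        field_simp
    have hy1 : ∀ j i, |y j i| ≤ 1 := by
      intro j i
      rw [hy]
      simp only [abs_div, abs_of_nonneg (ht0 j)]
      exact div_le_one_of_le₀ (hxt j i) (ht0 j)
    have hf0 : ∀ j i b, 0 ≤ f (y j) i b := by
      intro j i b
      unfold f
      have h1 : |sg b * y j i| ≤ 1 := by
        rw [abs_mul, abs_sg, one_mul]
        exact hy1 j i
      have h2 := neg_le_of_abs_le h1
      linarith
    refine ⟨fun q => t q.1 * ∏ i, f (y q.1) i (q.2 i), ?_, ?_⟩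
    · show ∑ q : Fin J × (Fin m → Bool), |t q.1 * ∏ i, f (y q.1) i (q.2 i)| ≤ 1
      refine le_trans (le_of_eq ?_) hx'
      rw [Fintype.sum_prod_type]
      refine Finset.sum_congr rfl fun j _ => ?_
      have : ∀ s : Fin m → Bool, |t j * ∏ i, f (y j) i (s i)| = t j * ∏ i, f (y j) i (s i) :=
        fun s => abs_of_nonneg (mul_nonneg (ht0 j) (Finset.prod_nonneg fun i _ => hf0 j i _))
      simp only [this]
      rw [← Finset.mul_sum, sum_prod_f, mul_one]
    · have hL : Lm J m (fun q => t q.1 * ∏ i, f (y q.1) i (q.2 i)) = WithLp.ofLp x := by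
        funext q
        have h1 : Lm J m (fun q => t q.1 * ∏ i, f (y q.1) i (q.2 i)) q =
            ∑ s : Fin m → Bool, (t q.1 * ∏ i, f (y q.1) i (s i)) * sg (s q.2) := rfl
        rw [h1]
        simp only [mul_assoc]
        rw [← Finset.mul_sum, sum_prod_f_sg, hyt]
      rw [LinearMap.comp_apply, hL]
      exact WithLp.toLp_ofLp 2 x

end Pool.Agent.TH416.J2564
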